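import Mathlib

/-!
# Module CH : discrete convexity (chords)

Abstract lemma on a sequence of points `(x i, y i)`, `M ≤ i ≤ N`, with `x` strictly DEcreasing and slopes
`s i = (y i - y (i+1)) / (x i - x (i+1))` nonincreasing in `i` (so the points are in convex position, read from right to
left as `i` increases).  For `b < a` let `σ` be the slope of the chord through the points `b` and `a`.
Then: points between `b` and `a` are below the chord, all others above the line, and `s (a-1) ≤ σ ≤ s b`.

Proof: every difference `y i - y j` (`i < j`) is `∑_{k=i}^{j-1} s k (x k - x (k+1))`, a positive combination, so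
`s (j-1) (x i - x j) ≤ y i - y j ≤ s i (x i - x j)` (easy induction on `j`).  Applying this to `(b,m)`, `(m,a)` etc. and
comparing gives everything: e.g. for `b < m < a`: `y b - y m ≥ s (m-1) (x b - x m)` and
`y m - y a ≤ s m (x m - x a) ≤ s (m-1) (x m - x a)`, so slope(b,m) ≥ slope(m,a), hence `m` is below the chord.
-/

namespace Pool.H68.AC

theorem ch_x (x : ℕ → ℝ) (M N : ℕ) (hx : ∀ i, M ≤ i → i < N → x (i + 1) < x i) (i : ℕ)
    (hi : M ≤ i) : ∀ j, i < j → j ≤ N → x j < x i := by
  intro j hij hj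
  induction j, hij using Nat.le_induction with
  | base => exact hx i hi hj
  | succ j hij ih => exact (hx j (by omega) (by omega)).trans (ih (by omega))

theorem ch_s (s : ℕ → ℝ) (M N : ℕ) (hs : ∀ i, M ≤ i → i + 2 ≤ N → s (i + 1) ≤ s i) (i : ℕ)
    (hi : M ≤ i) : ∀ j, i ≤ j → j < N → s j ≤ s i := by
  intro j hij hj
  induction j, hij using Nat.le_induction with
  | base => exact le_rfl
  | succ j hij ih => exact (hs j (by omega) (by omega)).trans (ih (by omega))

theorem ch_up (x y : ℕ → ℝ) (M N : ℕ) (hx : ∀ i, M ≤ i → i < N → x (i + 1) < x i) (c : ℝ) (i : ℕ)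
    (hi : M ≤ i) : ∀ j, i ≤ j → j ≤ N →
      (∀ k, i ≤ k → k < j → (y k - y (k + 1)) / (x k - x (k + 1)) ≤ c) →
      y i - y j ≤ c * (x i - x j) := by
  intro j hij hj hc
  induction j, hij using Nat.le_induction with
  | base => simp
  | succ j hij ih =>
    have h1 := ih (by omega) (fun k hk hk' => hc k hk (by omega))
    have h2 := hc j hij (by omega)
    have h3 := hx j (by omega) (by omega)
    rw [div_le_iff₀ (by linarith)] at h2
    linarith

theorem ch_lo (x y : ℕ → ℝ) (M N : ℕ) (hx : ∀ i, M ≤ i → i < N → x (i + 1) < x i) (c : ℝ) (i : ℕ)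
    (hi : M ≤ i) : ∀ j, i ≤ j → j ≤ N →
      (∀ k, i ≤ k → k < j → c ≤ (y k - y (k + 1)) / (x k - x (k + 1))) →
      c * (x i - x j) ≤ y i - y j := by
  intro j hij hj hc
  induction j, hij using Nat.le_induction with
  | base => simp
  | succ j hij ih =>
    have h1 := ih (by omega) (fun k hk hk' => hc k hk (by omega))
    have h2 := hc j hij (by omega)
    have h3 := hx j (by omega) (by omega)
    rw [le_div_iff₀ (by linarith)] at h2
    linarith

theorem chord (x y : ℕ → ℝ) (M N : ℕ) (hx : ∀ i, M ≤ i → i < N → x (i + 1) < x i)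
    (hs : ∀ i, M ≤ i → i + 2 ≤ N →
      (y (i + 1) - y (i + 2)) / (x (i + 1) - x (i + 2)) ≤ (y i - y (i + 1)) / (x i - x (i + 1)))
    (b a : ℕ) (hb : M ≤ b) (hba : b < a) (haN : a ≤ N) (σ : ℝ) (hσ : σ = (y b - y a) / (x b - x a)) :
    (∀ m, b ≤ m → m ≤ a → y m ≤ y a + σ * (x m - x a)) ∧
    (∀ m, a ≤ m → m ≤ N → y a + σ * (x m - x a) ≤ y m) ∧
    (∀ m, M ≤ m → m ≤ b → y a + σ * (x m - x a) ≤ y m) ∧
    σ ≤ (y b - y (b + 1)) / (x b - x (b + 1)) := by
  obtain ⟨s, hsd⟩ : ∃ s : ℕ → ℝ, s = fun k => (y k - y (k + 1)) / (x k - x (k + 1)) := ⟨_, rfl⟩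
  have hs1 : ∀ i, M ≤ i → i + 2 ≤ N → s (i + 1) ≤ s i := by
    intro i hi hi'
    rw [hsd]
    exact hs i hi hi'
  have hmono : ∀ i j, M ≤ i → i ≤ j → j < N → s j ≤ s i := fun i j hi hij hj =>
    ch_s s M N hs1 i hi j hij hj
  have hup : ∀ (c : ℝ) (i j : ℕ), M ≤ i → i ≤ j → j ≤ N → (∀ k, i ≤ k → k < j → s k ≤ c) →
      y i - y j ≤ c * (x i - x j) := by
    intro c i j hi hij hj hc
    rw [hsd] at hc
    exact ch_up x y M N hx c i hi j hij hj hc
  have hlo : ∀ (c : ℝ) (i j : ℕ), M ≤ i → i ≤ j → j ≤ N → (∀ k, i ≤ k → k < j → c ≤ s k) →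
      c * (x i - x j) ≤ y i - y j := by
    intro c i j hi hij hj hc
    rw [hsd] at hc
    exact ch_lo x y M N hx c i hi j hij hj hc
  have hxba : 0 < x b - x a := sub_pos.mpr (ch_x x M N hx b hb a hba haN)
  have hσ' : σ * (x b - x a) = y b - y a := by
    rw [hσ, div_mul_cancel₀ _ hxba.ne']
  have hσb : σ ≤ s b := by
    have h1 := hup (s b) b a hb hba.le haN (fun k hk hk' => hmono b k hb hk (by omega))
    rw [← hσ'] at h1
    exact le_of_mul_le_mul_right h1 hxba
  refine ⟨?_, ?_, ?_, ?_⟩
  · intro m hbm hma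
    rcases hbm.eq_or_lt with h1 | h1
    · subst h1
      linarith
    rcases hma.eq_or_lt with h2 | h2
    · subst h2
      linarith
    have h3 : y m - y a ≤ s m * (x m - x a) :=
      hup (s m) m a (by omega) h2.le haN (fun k hk hk' => hmono m k (by omega) hk (by omega))
    have h4 : s m * (x b - x m) ≤ y b - y m :=
      hlo (s m) b m hb h1.le (by omega) (fun k hk hk' => hmono k m (by omega) (by omega) (by omega))
    have h5 : 0 < x b - x m := sub_pos.mpr (ch_x x M N hx b hb m h1 (by omega))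
    have h6 : 0 < x m - x a := sub_pos.mpr (ch_x x M N hx m (by omega) a h2 haN)
    have h7 := mul_le_mul_of_nonneg_right h3 h5.le
    have h8 := mul_le_mul_of_nonneg_right h4 h6.le
    have h9 : (y m - y a) * (x b - x a) ≤ (σ * (x m - x a)) * (x b - x a) := by
      have h10 : (σ * (x m - x a)) * (x b - x a) = (y b - y a) * (x m - x a) := by
        rw [← hσ']
        ring
      rw [h10]
      nlinarith
    have h11 := le_of_mul_le_mul_right h9 hxba
    linarith
  · intro m ham hmN
    rcases ham.eq_or_lt with h1 | h1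
    · subst h1
      linarith
    have h3 : y a - y m ≤ s a * (x a - x m) :=
      hup (s a) a m (by omega) h1.le hmN (fun k hk hk' => hmono a k (by omega) hk (by omega))
    have h4 : s a * (x b - x a) ≤ y b - y a :=
      hlo (s a) b a hb hba.le haN (fun k hk hk' => hmono k a (by omega) (by omega) (by omega))
    rw [← hσ'] at h4
    have h5 : s a ≤ σ := le_of_mul_le_mul_right h4 hxba
    have h6 : 0 < x a - x m := sub_pos.mpr (ch_x x M N hx a (by omega) m h1 hmN)
    have h7 := mul_le_mul_of_nonneg_right h5 h6.le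
    linarith
  · intro m hMm hmb
    have h3 : s b * (x m - x b) ≤ y m - y b :=
      hlo (s b) m b hMm hmb (by omega) (fun k hk hk' => hmono k b (by omega) (by omega) (by omega))
    have h6 : 0 ≤ x m - x b := by
      rcases hmb.eq_or_lt with h1 | h1
      · subst h1
        simp
      · exact (sub_pos.mpr (ch_x x M N hx m hMm b h1 (by omega))).le
    have h7 := mul_le_mul_of_nonneg_right hσb h6
    linarith
  · rw [hsd] at hσb
    exact hσb

/-- A line through the last point `N` which is strictly above the point `m'` is (weakly) above all points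
`m` with `m' ≤ m ≤ N`. (From the first part of `chord` with `b = m'`, `a = N`.) -/
theorem line_above (x y : ℕ → ℝ) (M N : ℕ) (hx : ∀ i, M ≤ i → i < N → x (i + 1) < x i)
    (hs : ∀ i, M ≤ i → i + 2 ≤ N →
      (y (i + 1) - y (i + 2)) / (x (i + 1) - x (i + 2)) ≤ (y i - y (i + 1)) / (x i - x (i + 1)))
    (τ : ℝ) (m' : ℕ) (hm' : M ≤ m') (hmN : m' ≤ N) (hlt : y m' < y N + τ * (x m' - x N))
    (m : ℕ) (h1 : m' ≤ m) (h2 : m ≤ N) : y m ≤ y N + τ * (x m - x N) := by
  rcases hmN.eq_or_lt with h3 | h3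
  · subst h3
    simp at hlt
  have h4 := (chord x y M N hx hs m' N hm' h3 le_rfl _ rfl).1 m h1 h2
  have h5 : 0 < x m' - x N := sub_pos.mpr (ch_x x M N hx m' hm' N h3 le_rfl)
  have h6 : (y m' - y N) / (x m' - x N) ≤ τ := by
    rw [div_le_iff₀ h5]
    linarith
  have h7 : 0 ≤ x m - x N := by
    rcases h2.eq_or_lt with h8 | h8
    · subst h8
      simp
    · exact (sub_pos.mpr (ch_x x M N hx m (by omega) N h8 le_rfl)).le
  have h9 := mul_le_mul_of_nonneg_right h6 h7
  linarith

end Pool.H68.AC
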