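import Mathlib

/-!
# MP_ec1142_co : average number of colours (definitions)

Number side: `PP n = B_n / n!` (Bell numbers), `pp n = PP (n+1) / PP n`, and for a function `f` of block sizes
`Phi f n` = average over all partitions of an `n`-set of `∑_{blocks b} f |b|`  (for `f 0 = 0`).
Graph side: for a weight `ω` on finite sets, `ZZ ω T = ∑_{partitions P of T} ∏_{b ∈ P} ω b` and
`SS F ω T = ∑_P (∑_{b ∈ P} F b) ∏_{b ∈ P} ω b`.
-/

namespace Pool.H68.AC

open Finset

/-- `PP n = B_n / n!`. -/
noncomputable def PP (n : ℕ) : ℝ := (Nat.bell n : ℝ) / (n.factorial : ℝ)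

/-- `pp n = PP (n+1) / PP n`. -/
noncomputable def pp (n : ℕ) : ℝ := PP (n + 1) / PP n

/-- `ee n = pp n - pp (n+1)` (positive for `n ≥ 1`). -/
noncomputable def ee (n : ℕ) : ℝ := pp n - pp (n + 1)

/-- `yy n = pp n * pp (n+1)`; the points `(pp n, yy n)`, `n ≥ 2`, are in convex position. -/
noncomputable def yy (n : ℕ) : ℝ := pp n * pp (n + 1)

/-- slope between the points `n` and `n+1`. -/
noncomputable def sl (n : ℕ) : ℝ := (yy n - yy (n + 1)) / ee n

/-- average over all partitions of an `n`-set of the sum of `f |b|` over the blocks `b` (for `f 0 = 0`). -/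
noncomputable def Phi (f : ℕ → ℝ) (n : ℕ) : ℝ :=
  (∑ k ∈ range (n + 1), (n.choose k : ℝ) * (Nat.bell (n - k) : ℝ) * f k) / (Nat.bell n : ℝ)

/-- `f 0 = 0` and `f` is concave on `{0, ..., N}`. -/
def Cv (f : ℕ → ℝ) (N : ℕ) : Prop := f 0 = 0 ∧ ∀ k, k + 2 ≤ N → f (k + 2) + f k ≤ 2 * f (k + 1)

variable {V : Type*} [DecidableEq V]

/-- partition function of the block weight `ω` on the finite set `T`. -/
noncomputable def ZZ (ω : Finset V → ℝ) (T : Finset V) : ℝ :=
  ∑ P : Finpartition T, ∏ b ∈ P.parts, ω b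

/-- weighted sum over the partitions of `T` of the sum of `F b` over the blocks. -/
noncomputable def SS (F : Finset V → ℝ) (ω : Finset V → ℝ) (T : Finset V) : ℝ :=
  ∑ P : Finpartition T, (∑ b ∈ P.parts, F b) * ∏ b ∈ P.parts, ω b

/-- the weight `1` on the independent sets of `G`, `0` on all other sets. -/
noncomputable def om (G : SimpleGraph V) (b : Finset V) : ℝ :=
  open Classical in if (∀ x ∈ b, ∀ y ∈ b, ¬ G.Adj x y) then 1 else 0

/-- the part of the weight `ω` carried by the sets not contained in `W`. -/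
noncomputable def omN (ω : Finset V → ℝ) (W : Finset V) (b : Finset V) : ℝ :=
  if b ⊆ W then 0 else ω b

end Pool.H68.AC
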