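import Mathlib

/-!
# Definitions used in the statement (MP_ec1142_co)
-/

namespace Pool.H68.AC

open Finset

/-- A partition of the vertex set is stable for `G` if every block is an independent set; the stable partitions are
the classes of proper colourings of `G` up to equivalence. -/
def Stable {V : Type*} [Fintype V] [DecidableEq V] (G : SimpleGraph V)
    (P : Finpartition (univ : Finset V)) : Prop :=
  ∀ b ∈ P.parts, ∀ x ∈ b, ∀ y ∈ b, ¬ G.Adj x y

/-- the finite set of all stable partitions of `G` -/
noncomputable def stableParts {V : Type*} [Fintype V] [DecidableEq V] (G : SimpleGraph V) :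
    Finset (Finpartition (univ : Finset V)) :=
  open Classical in univ.filter (fun P => Stable G P)

/-- the average over all stable partitions of `G` of the sum of `f |b|` over the blocks `b` -/
noncomputable def blockAvg {V : Type*} [Fintype V] [DecidableEq V] (G : SimpleGraph V) (f : ℕ → ℝ) : ℝ :=
  (∑ P ∈ stableParts G, ∑ b ∈ P.parts, f (#b)) / (#(stableParts G) : ℝ)

/-- the average number of colours: the average over all stable partitions of the number of blocks -/
noncomputable def avgColours {V : Type*} [Fintype V] [DecidableEq V] (G : SimpleGraph V) : ℝ :=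
  (∑ P ∈ stableParts G, (#P.parts : ℝ)) / (#(stableParts G) : ℝ)

/-- `L_3(n, r)` of the problem (`Nat.bell` are the Bell numbers) -/
noncomputable def L3 (n r : ℕ) : ℝ :=
  (∑ i ∈ range (n - r + 1), ((n - r).choose i : ℝ) * (Nat.bell (r + i) : ℝ)) /
    (∑ i ∈ range (n - r + 1), ((n - r).choose i : ℝ) * (Nat.bell (r + i - 1) : ℝ))

/-- the graph `K_{1,d} ∪ (n - d - 1) K_1` on `Fin n` (for `d < n`): vertex `0` is joined to the vertices `1, ..., d` -/
def starPlus (n d : ℕ) : SimpleGraph (Fin n) where
  Adj i j := (i.val = 0 ∧ 1 ≤ j.val ∧ j.val ≤ d) ∨ (j.val = 0 ∧ 1 ≤ i.val ∧ i.val ≤ d)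
  symm := ⟨by
    intro i j h
    rcases h with h | h
    · exact Or.inr h
    · exact Or.inl h⟩
  loopless := ⟨by
    intro i h
    rcases h with h | h <;> omega⟩

end Pool.H68.AC
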