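import Pool.Agent.H68.AC.FP

/-!
# Module PR : splitting a partition into the blocks inside `W` and the other blocks

`omN ω W` is the weight `ω` restricted to the sets not contained in `W`.
* `ZZ_split`: `∑_P ∏ ω = ∑_{Y ⊆ T ∩ W} (∑_{partitions of Y} ∏ ω) (∑_{partitions of T \ Y} ∏ omN ω W)`, where `Y` is the union
  of the blocks contained in `W`.  Proof by strong induction on `#T` with `ZZ_insert` only: for `T = ∅` both sides are `1`.
  For `T = insert v T'`:  `ZZ ω T = ∑_{b ⊆ T'} ω (insert v b) ZZ ω (T' \ b)`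
  `= ∑_b ω (insert v b) ∑_{Y ⊆ (T' \ b) ∩ W} ZZ ω Y * ZZ (omN ω W) ((T' \ b) \ Y)` (induction).  Write
  `ω (insert v b) = [insert v b ⊆ W] ω (insert v b) + omN ω W (insert v b)`.  The second part gives (put `Y` outside)
  `∑_{Y ⊆ T' ∩ W} ZZ ω Y * ∑_{b ⊆ T' \ Y} omN (insert v b) ZZ (omN) ((T' \ Y) \ b) = ∑_{Y ⊆ T ∩ W, v ∉ Y} ZZ ω Y * ZZ (omN) (T \ Y)`.
  The first part (only if `v ∈ W`) gives, with `Y' = insert v (b ∪ Y)`,
  `∑_{Y' ∋ v, Y' ⊆ T ∩ W} (∑_{b ⊆ Y' \ v} ω (insert v b) ZZ ω ((Y' \ v) \ b)) ZZ (omN) (T \ Y')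
    = ∑_{Y' ∋ v} ZZ ω Y' * ZZ (omN) (T \ Y')`.
* `SS_split`: for `b ⊆ W ⊆ T`, `ZZ ω (T \ b) = ∑_{Y0 ⊆ W \ b} ZZ ω Y0 * ZZ (omN ω W) ((T \ b) \ Y0)`
  (`ZZ_split`, `(T \ b) ∩ W = W \ b`); put `Y = b ∪ Y0`, exchange the sums and use `SS_eq` for `Y`.
-/

namespace Pool.H68.AC

open Finset

variable {V : Type*} [DecidableEq V]

theorem PR_swap (T W : Finset V) (g : Finset V → Finset V → ℝ) :
    ∑ b ∈ T.powerset, ∑ Y ∈ ((T \ b) ∩ W).powerset, g b Y =
      ∑ Y ∈ (T ∩ W).powerset, ∑ b ∈ (T \ Y).powerset, g b Y := by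
  apply Finset.sum_comm'
  intro b Y
  simp only [mem_powerset]
  constructor
  · rintro ⟨h1, h2⟩
    refine ⟨fun x hx => mem_sdiff.mpr ⟨h1 hx, fun hY => ?_⟩, fun x hx => ?_⟩
    · exact (mem_sdiff.mp (mem_inter.mp (h2 hY)).1).2 hx
    · have := mem_inter.mp (h2 hx)
      exact mem_inter.mpr ⟨(mem_sdiff.mp this.1).1, this.2⟩
  · rintro ⟨h1, h2⟩
    refine ⟨fun x hx => (mem_sdiff.mp (h1 hx)).1, fun x hx => ?_⟩
    have := mem_inter.mp (h2 hx)
    exact mem_inter.mpr ⟨mem_sdiff.mpr ⟨this.1, fun hb => (mem_sdiff.mp (h1 hb)).2 hx⟩, this.2⟩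

theorem PR_reindex (U : Finset V) (g : Finset V → Finset V → ℝ) :
    ∑ Y ∈ U.powerset, ∑ b ∈ Y.powerset, g b (Y \ b) =
      ∑ b ∈ U.powerset, ∑ Y ∈ (U \ b).powerset, g b Y := by
  rw [Finset.sum_sigma', Finset.sum_sigma']
  refine Finset.sum_bij' (fun p _ => ⟨p.2, p.1 \ p.2⟩) (fun p _ => ⟨p.1 ∪ p.2, p.1⟩) ?_ ?_ ?_ ?_ ?_
  · rintro ⟨Y, b⟩ h
    simp only [mem_sigma, mem_powerset] at h ⊢
    exact ⟨h.2.trans h.1, sdiff_subset_sdiff h.1 (Subset.refl _)⟩
  · rintro ⟨b, Y⟩ h
    simp only [mem_sigma, mem_powerset] at h ⊢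
    exact ⟨union_subset h.1 (h.2.trans sdiff_subset), subset_union_left⟩
  · rintro ⟨Y, b⟩ h
    simp only [mem_sigma, mem_powerset] at h ⊢
    rw [union_sdiff_of_subset h.2]
  · rintro ⟨b, Y⟩ h
    simp only [mem_sigma, mem_powerset] at h ⊢
    have hd : Disjoint b Y := by
      rw [disjoint_left]
      intro x hx hY
      exact (mem_sdiff.mp (h.2 hY)).2 hx
    rw [union_sdiff_cancel_left hd]
  · rintro ⟨Y, b⟩ h
    rfl

theorem ZZ_split (ω : Finset V → ℝ) (W T : Finset V) :
    ZZ ω T = ∑ Y ∈ (T ∩ W).powerset, ZZ ω Y * ZZ (omN ω W) (T \ Y) := by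
  induction h : #T using Nat.strong_induction_on generalizing T with
  | _ n ih =>
    rcases T.eq_empty_or_nonempty with rfl | ⟨v, hv⟩
    · simp [ZZ_empty]
    · obtain ⟨T', hvT', rfl⟩ : ∃ T', v ∉ T' ∧ insert v T' = T :=
        ⟨T.erase v, notMem_erase v T, insert_erase hv⟩
      have hIH : ∀ b, b ⊆ T' → ZZ ω (T' \ b) =
          ∑ Y ∈ ((T' \ b) ∩ W).powerset, ZZ ω Y * ZZ (omN ω W) ((T' \ b) \ Y) := by
        intro b hb
        refine ih (#(T' \ b)) ?_ _ rfl
        have h1 := card_le_card (sdiff_subset (s := T') (t := b))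
        rw [card_insert_of_notMem hvT'] at h
        omega
      have hL : ZZ ω (insert v T') = ∑ b ∈ T'.powerset, ∑ Y ∈ ((T' \ b) ∩ W).powerset,
          ω (insert v b) * (ZZ ω Y * ZZ (omN ω W) ((T' \ b) \ Y)) := by
        rw [ZZ_insert ω hvT']
        apply sum_congr rfl
        intro b hb
        rw [hIH b (mem_powerset.mp hb), mul_sum]
      -- first part of the right side
      have hR1 : ∀ Y, Y ⊆ T' ∩ W → ZZ ω Y * ZZ (omN ω W) (insert v T' \ Y) =
          ∑ b ∈ (T' \ Y).powerset, omN ω W (insert v b) * (ZZ ω Y * ZZ (omN ω W) ((T' \ b) \ Y)) := by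
        intro Y hY
        have hvY : v ∉ Y := fun h => hvT' (mem_inter.mp (hY h)).1
        rw [insert_sdiff_of_notMem _ hvY, ZZ_insert _ (fun h => hvT' (mem_sdiff.mp h).1), mul_sum]
        apply sum_congr rfl
        intro b hb
        rw [sdiff_right_comm]
        ring
      by_cases hvW : v ∈ W
      · have e1 : insert v T' ∩ W = insert v (T' ∩ W) := insert_inter_of_mem hvW
        have hvTW : v ∉ T' ∩ W := fun h => hvT' (mem_inter.mp h).1
        rw [e1, sum_powerset_insert hvTW]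
        have hR2 : ∀ Y, Y ⊆ T' ∩ W → ZZ ω (insert v Y) * ZZ (omN ω W) (insert v T' \ insert v Y) =
            ∑ b ∈ Y.powerset, ω (insert v b) * (ZZ ω (Y \ b) * ZZ (omN ω W) ((T' \ b) \ (Y \ b))) := by
          intro Y hY
          have hvY : v ∉ Y := fun h => hvT' (mem_inter.mp (hY h)).1
          have e2 : insert v T' \ insert v Y = T' \ Y := by
            ext x
            simp only [mem_sdiff, mem_insert]
            constructor
            · rintro ⟨h1, h2⟩
              push Not at h2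
              exact ⟨h1.resolve_left h2.1, h2.2⟩
            · rintro ⟨h1, h2⟩
              refine ⟨Or.inr h1, ?_⟩
              rintro (rfl | h3)
              · exact hvT' h1
              · exact h2 h3
          rw [e2, ZZ_insert ω hvY, sum_mul]
          apply sum_congr rfl
          intro b hb
          have hb' := mem_powerset.mp hb
          have e3 : (T' \ b) \ (Y \ b) = T' \ Y := by
            ext x
            simp only [mem_sdiff]
            constructor
            · rintro ⟨⟨h1, h2⟩, h3⟩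
              exact ⟨h1, fun h => h3 ⟨h, h2⟩⟩
            · rintro ⟨h1, h2⟩
              exact ⟨⟨h1, fun h => h2 (hb' h)⟩, fun h => h2 h.1⟩
          rw [e3]
          ring
        rw [sum_congr rfl (fun Y hY => hR1 Y (mem_powerset.mp hY)),
          sum_congr rfl (fun Y hY => hR2 Y (mem_powerset.mp hY))]
        rw [← PR_swap T' W (fun b Y => omN ω W (insert v b) * (ZZ ω Y * ZZ (omN ω W) ((T' \ b) \ Y)))]
        rw [PR_reindex (T' ∩ W) (fun b Y => ω (insert v b) * (ZZ ω Y * ZZ (omN ω W) ((T' \ b) \ Y)))]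
        have e4 : ∑ b ∈ (T' ∩ W).powerset, ∑ Y ∈ ((T' ∩ W) \ b).powerset,
              ω (insert v b) * (ZZ ω Y * ZZ (omN ω W) ((T' \ b) \ Y)) =
            ∑ b ∈ T'.powerset, ∑ Y ∈ ((T' \ b) ∩ W).powerset,
              (if insert v b ⊆ W then ω (insert v b) else 0) * (ZZ ω Y * ZZ (omN ω W) ((T' \ b) \ Y)) := by
          have hsub : (T' ∩ W).powerset ⊆ T'.powerset := powerset_mono.mpr inter_subset_left
          rw [← sum_subset hsub]
          · apply sum_congr rfl
            intro b hb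
            have hb' := mem_powerset.mp hb
            have hbW : insert v b ⊆ W := insert_subset hvW (hb'.trans inter_subset_right)
            have e5 : (T' ∩ W) \ b = (T' \ b) ∩ W := by
              ext x
              simp only [mem_sdiff, mem_inter]
              tauto
            rw [e5]
            apply sum_congr rfl
            intro Y _
            rw [if_pos hbW]
          · intro b hb hb'
            apply sum_eq_zero
            intro Y _
            rw [if_neg, zero_mul]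
            intro hbW
            apply hb'
            rw [mem_powerset]
            exact subset_inter (mem_powerset.mp hb) ((subset_insert v b).trans hbW)
        rw [e4, hL, ← sum_add_distrib]
        apply sum_congr rfl
        intro b _
        rw [← sum_add_distrib]
        apply sum_congr rfl
        intro Y _
        unfold omN
        split_ifs <;> ring
      · have e1 : insert v T' ∩ W = T' ∩ W := insert_inter_of_notMem hvW
        rw [e1, sum_congr rfl (fun Y hY => hR1 Y (mem_powerset.mp hY))]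
        rw [← PR_swap T' W (fun b Y => omN ω W (insert v b) * (ZZ ω Y * ZZ (omN ω W) ((T' \ b) \ Y)))]
        rw [hL]
        apply sum_congr rfl
        intro b _
        apply sum_congr rfl
        intro Y _
        have : ¬ insert v b ⊆ W := fun h => hvW (h (mem_insert_self _ _))
        unfold omN
        rw [if_neg this]

theorem SS_split (F ω : Finset V → ℝ) (h0 : F ∅ = 0) {W T : Finset V} (hW : W ⊆ T) :
    ∑ b ∈ W.powerset, F b * ω b * ZZ ω (T \ b) =
      ∑ Y ∈ W.powerset, SS F ω Y * ZZ (omN ω W) (T \ Y) := by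
  have h1 : ∀ Y, Y ⊆ W → SS F ω Y * ZZ (omN ω W) (T \ Y) =
      ∑ b ∈ Y.powerset, F b * ω b * (ZZ ω (Y \ b) * ZZ (omN ω W) ((T \ b) \ (Y \ b))) := by
    intro Y hY
    rw [SS_eq F ω h0 Y, sum_mul]
    apply sum_congr rfl
    intro b hb
    have hb' := mem_powerset.mp hb
    have e3 : (T \ b) \ (Y \ b) = T \ Y := by
      ext x
      simp only [mem_sdiff]
      constructor
      · rintro ⟨⟨h1, h2⟩, h3⟩
        exact ⟨h1, fun h => h3 ⟨h, h2⟩⟩
      · rintro ⟨h1, h2⟩
        exact ⟨⟨h1, fun h => h2 (hb' h)⟩, fun h => h2 h.1⟩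
    rw [e3]
    ring
  rw [sum_congr rfl (fun Y hY => h1 Y (mem_powerset.mp hY)),
    PR_reindex W (fun b Y => F b * ω b * (ZZ ω Y * ZZ (omN ω W) ((T \ b) \ Y)))]
  apply sum_congr rfl
  intro b hb
  have hb' := mem_powerset.mp hb
  rw [ZZ_split ω W (T \ b), mul_sum]
  have e5 : (T \ b) ∩ W = W \ b := by
    ext x
    simp only [mem_sdiff, mem_inter]
    constructor
    · rintro ⟨⟨h1, h2⟩, h3⟩
      exact ⟨h3, h2⟩
    · rintro ⟨h1, h2⟩
      exact ⟨⟨hW h1, h2⟩, h1⟩
  rw [e5]

end Pool.H68.AC
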