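import Pool.Agent.H68.AC.FP

/-!
# Module RF : the edgeless graph (weight `ω = 1`) and the recursion for `Phi`

* `ZZ_one`: induction on `#T` with `ZZ_insert` and `Nat.bell_succ` (`∑_{b ⊆ T'}` grouped by `#b`:
  `Finset.sum_powerset_apply_card`).
* `SS_one`: `SS_eq` and `ZZ_one`.
* `Phi_rec`: apply `SS_insert` with `ω = 1`, `F b = f #b` on a set with `n+1` elements (e.g. `T = range n`, `w = n` in `ℕ`), or directly:
  `C(n+1,k) = C(n,k) + C(n,k-1)`, `B_{n+1-k} = ∑_j C(n-k,j) B_{n-k-j}`, `C(n,k) C(n-k,j) = C(n,j) C(n-j,k)`.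
* `Phi_zero`, `Phi_one`: `Phi f 0 = 0`, `Phi f 1 = f 1` for `f 0 = 0`.
* `Phi_const`: for `f k = if k = 0 then 0 else 1`: `Phi f n = B_{n+1}/B_n - 1`.
-/

namespace Pool.H68.AC

open Finset

variable {V : Type*} [DecidableEq V]

theorem rf_bell_succ (n : ℕ) : (Nat.bell (n + 1) : ℝ) =
    ∑ k ∈ range (n + 1), (n.choose k : ℝ) * (Nat.bell (n - k) : ℝ) := by
  rw [Nat.bell_succ, ← Nat.range_succ_eq_Iic]
  push_cast
  rfl

theorem ZZ_one (T : Finset V) : ZZ (fun _ => (1 : ℝ)) T = (Nat.bell (#T) : ℝ) := by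
  induction hn : #T using Nat.strong_induction_on generalizing T with
  | _ n ih =>
    rcases Nat.eq_zero_or_pos n with h0 | h0
    · subst h0
      have : T = ∅ := Finset.card_eq_zero.1 hn
      subst this
      rw [ZZ_empty]; simp
    · have hne : T.Nonempty := Finset.card_pos.1 (by omega)
      obtain ⟨w, hwT⟩ := hne
      obtain ⟨T', hwT', rfl⟩ : ∃ T', w ∉ T' ∧ insert w T' = T :=
        ⟨T.erase w, Finset.notMem_erase _ _, Finset.insert_erase hwT⟩
      have hc : #T' + 1 = n := by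
        rw [Finset.card_insert_of_notMem hwT'] at hn; exact hn
      rw [ZZ_insert _ hwT', ← hc, rf_bell_succ]
      have : ∀ b ∈ T'.powerset, (1 : ℝ) * ZZ (fun _ => (1 : ℝ)) (T' \ b) =
          (fun k => (Nat.bell (#T' - k) : ℝ)) (#b) := by
        intro b hb
        have hb' := Finset.mem_powerset.1 hb
        have h1 : #(T' \ b) = #T' - #b := Finset.card_sdiff_of_subset hb'
        rw [one_mul, ih (#T' - #b) (by omega) (T' \ b) h1]
      rw [Finset.sum_congr rfl this]
      refine (Finset.sum_powerset_apply_card (fun k => (Nat.bell (#T' - k) : ℝ)) (x := T')).trans ?_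
      apply Finset.sum_congr rfl
      intro k _
      simp

theorem rf_bell_pos (n : ℕ) : (0 : ℝ) < (Nat.bell n : ℝ) := by
  have h := ZZ_one (range n)
  rw [card_range] at h
  have h2 : (0 : ℝ) < ZZ (fun _ : Finset ℕ => (1 : ℝ)) (range n) := by
    unfold ZZ
    apply Finset.sum_pos
    · intro P _; simp
    · exact ⟨⊥, Finset.mem_univ _⟩
  rw [h] at h2
  exact h2

theorem rf_bell_mul_Phi (f : ℕ → ℝ) (n : ℕ) : (Nat.bell n : ℝ) * Phi f n =
    ∑ k ∈ range (n + 1), (n.choose k : ℝ) * (Nat.bell (n - k) : ℝ) * f k := by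
  have := rf_bell_pos n
  unfold Phi
  field_simp

theorem SS_one (f : ℕ → ℝ) (h0 : f 0 = 0) (T : Finset V) :
    SS (fun b => f (#b)) (fun _ => (1 : ℝ)) T = (Nat.bell (#T) : ℝ) * Phi f (#T) := by
  rw [SS_eq _ _ (by simpa using h0), rf_bell_mul_Phi]
  have : ∀ b ∈ T.powerset, f (#b) * 1 * ZZ (fun _ => (1 : ℝ)) (T \ b) =
      (fun k => (Nat.bell (#T - k) : ℝ) * f k) (#b) := by
    intro b hb
    have hb' := Finset.mem_powerset.1 hb
    have h1 : #(T \ b) = #T - #b := Finset.card_sdiff_of_subset hb'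
    rw [ZZ_one, h1]; ring
  rw [Finset.sum_congr rfl this]
  refine (Finset.sum_powerset_apply_card (fun k => (Nat.bell (#T - k) : ℝ) * f k) (x := T)).trans ?_
  apply Finset.sum_congr rfl
  intro k _
  simp only [nsmul_eq_mul]
  ring

theorem Phi_zero (f : ℕ → ℝ) (h0 : f 0 = 0) : Phi f 0 = 0 := by
  simp [Phi, h0]

theorem Phi_one (f : ℕ → ℝ) (h0 : f 0 = 0) : Phi f 1 = f 1 := by
  simp [Phi, Finset.sum_range_succ, h0]

theorem Phi_const (n : ℕ) :
    Phi (fun k => if k = 0 then 0 else 1) n = (Nat.bell (n + 1) : ℝ) / (Nat.bell n : ℝ) - 1 := by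
  have hB := rf_bell_pos n
  have h1 := rf_bell_mul_Phi (fun k => if k = 0 then 0 else 1) n
  have h2 := rf_bell_succ n
  rw [Finset.sum_range_succ'] at h1 h2
  simp only [Nat.add_eq_zero_iff, one_ne_zero, and_false, if_false, if_true, mul_one, mul_zero, add_zero,
    Nat.choose_zero_right, Nat.cast_one, Nat.sub_zero, one_mul] at h1 h2
  have h3 : (Nat.bell (n + 1) : ℝ) = (Nat.bell n : ℝ) * Phi (fun k => if k = 0 then 0 else 1) n + Nat.bell n := by
    rw [h2, h1]
  rw [h3]
  field_simp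
  ring

theorem Phi_rec (f : ℕ → ℝ) (h0 : f 0 = 0) (n : ℕ) :
    (Nat.bell (n + 1) : ℝ) * Phi f (n + 1) =
      ∑ k ∈ range (n + 1), (n.choose k : ℝ) * (Nat.bell (n - k) : ℝ) * (f (k + 1) + Phi f (n - k)) := by
  have hn : n ∉ range n := by simp
  have h1 := SS_one f h0 (insert n (range n))
  have h2 := SS_insert (fun b => f (#b)) (fun _ => (1 : ℝ)) hn
  rw [Finset.card_insert_of_notMem hn, card_range] at h1
  rw [← h1, h2]
  have : ∀ b ∈ (range n).powerset, (1 : ℝ) * (f (#(insert n b)) * ZZ (fun _ => (1 : ℝ)) (range n \ b) +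
      SS (fun b => f (#b)) (fun _ => (1 : ℝ)) (range n \ b)) =
      (fun k => (Nat.bell (n - k) : ℝ) * (f (k + 1) + Phi f (n - k))) (#b) := by
    intro b hb
    have hb' := Finset.mem_powerset.1 hb
    have hc : #(range n \ b) = n - #b := by
      rw [Finset.card_sdiff_of_subset hb', card_range]
    rw [Finset.card_insert_of_notMem (fun h => hn (hb' h)), ZZ_one, SS_one f h0, hc]
    ring
  rw [Finset.sum_congr rfl this]
  refine (Finset.sum_powerset_apply_card
    (fun k => (Nat.bell (n - k) : ℝ) * (f (k + 1) + Phi f (n - k))) (x := range n)).trans ?_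
  rw [card_range]
  apply Finset.sum_congr rfl
  intro k _
  simp only [nsmul_eq_mul]
  ring

end Pool.H68.AC
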