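import Pool.Agent.H68.AC.PF
import Pool.Agent.H68.AC.PR
import Pool.Agent.H68.AC.RF

/-!
# Module IN : the main induction

`main_ineq` : for every graph and every `f` concave on `{0..N}` with `f 0 = 0`, and every vertex set `T`, `#T ≤ N`:
the average over the stable partitions of `G[T]` of `∑_b f |b|` is at least its value `Phi f #T` for the edgeless graph.

Strong induction on `n = #T` (for all `f`).  `T = ∅`: both sides `0`.  `T = insert w T'`, `#T' = n`;
`W = {x ∈ T' : ¬ G.Adj w x}`, `ω = om G`; for `b ⊆ T'`: `ω (insert w b) = if b ⊆ W then ω b else 0`.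
`c = Phi f (n+1)`, `g k = f (k+1) + Phi f (n-k) - c` (`0 ≤ k ≤ n`), `g' k = if k = 0 then 0 else g k`.  By `SS_insert`, `ZZ_insert`
`SS f T - c ZZ T = ∑_{b ⊆ W} ω b (f(#b+1) ZZ (T' \ b) + SS f (T' \ b) - c ZZ (T' \ b)) ≥ ∑_{b ⊆ W} ω b ZZ (T' \ b) g #b`
(induction: `SS f (T' \ b) ≥ Phi f (n - #b) ZZ (T' \ b)`) `= g 0 ZZ T' + ∑_{b ⊆ W} g' #b ω b ZZ (T' \ b)`
`= ∑_{Y ⊆ W} ZZ (omN ω W) (T' \ Y) (g 0 ZZ Y + SS g' Y)` (`ZZ_split`, `SS_split`)
`≥ ∑_{Y ⊆ W} ZZ (omN ω W) (T' \ Y) ZZ Y (g 0 + Phi g' #Y)` (induction for `g'` !) and `g 0 + Phi g' y ≥ g 0 (1 - y/n) ≥ 0`: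
* `Phi f` is concave on `{0..n+1}` (`phi_cv`), so `g 0 = f 1 - (Phi f (n+1) - Phi f n) ≥ 0` (`Phi f 1 - Phi f 0 = f 1`);
* `Cv g' n` : second differences of `g` are `≤ 0` and `g' 0 = 0 ≤ g 0`;
* `g 0 + Phi g' n = 0` by `Phi_rec` (with `B_{n+1} = ∑ C(n,k) B_{n-k}`), and `Phi g'` is concave with `Phi g' 0 = 0`.
`main_strict` : if moreover `w` has a neighbour in `T'` then `#Y ≤ #W < n` for all `Y ⊆ W`, so for `g 0 > 0` everything is
strictly positive (`∑_Y ZZ(omN) (T' \ Y) ZZ Y = ZZ T' ≥ 1`; the partition into singletons).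
-/

namespace Pool.H68.AC

open Finset

variable {V : Type*} [DecidableEq V]

theorem in_om_nonneg (G : SimpleGraph V) (b : Finset V) : 0 ≤ om G b := by
  unfold om; split_ifs <;> norm_num

theorem ZZ_om_pos (G : SimpleGraph V) (T : Finset V) : 1 ≤ ZZ (om G) T := by
  classical
  have h1 : ∏ b ∈ (⊥ : Finpartition T).parts, om G b = 1 := by
    apply Finset.prod_eq_one
    intro b hb
    rw [Finpartition.mem_bot_iff] at hb
    obtain ⟨a, _, rfl⟩ := hb
    unfold om
    rw [if_pos]
    intro x hx y hy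
    rw [Finset.mem_singleton] at hx hy
    subst hx; subst hy
    exact G.irrefl
  unfold ZZ
  rw [← h1]
  exact Finset.single_le_sum (f := fun P : Finpartition T => ∏ b ∈ P.parts, om G b)
    (fun P _ => Finset.prod_nonneg fun b _ => in_om_nonneg G b) (Finset.mem_univ _)

theorem in_om_insert (G : SimpleGraph V) [DecidableRel G.Adj] {w : V} {T b : Finset V} (hw : w ∉ T) (hb : b ⊆ T) :
    om G (insert w b) = if b ⊆ T.filter (fun x => ¬ G.Adj w x) then om G b else 0 := by
  classical
  unfold om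
  by_cases h : b ⊆ T.filter (fun x => ¬ G.Adj w x)
  · rw [if_pos h]
    by_cases h2 : ∀ x ∈ b, ∀ y ∈ b, ¬ G.Adj x y
    · rw [if_pos h2, if_pos]
      intro x hx y hy
      rw [Finset.mem_insert] at hx hy
      rcases hx with rfl | hx <;> rcases hy with rfl | hy
      · exact G.irrefl
      · exact (Finset.mem_filter.1 (h hy)).2
      · intro hxy; exact (Finset.mem_filter.1 (h hx)).2 hxy.symm
      · exact h2 x hx y hy
    · rw [if_neg h2, if_neg]
      intro h3
      exact h2 fun x hx y hy => h3 x (Finset.mem_insert_of_mem hx) y (Finset.mem_insert_of_mem hy)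
  · rw [if_neg h, if_neg]
    intro h3
    apply h
    intro x hx
    exact Finset.mem_filter.2 ⟨hb hx, h3 w (Finset.mem_insert_self _ _) x (Finset.mem_insert_of_mem hx)⟩

theorem in_cv_mul {u : ℕ → ℝ} {N : ℕ} (h : Cv u N) {y : ℕ} (hy : y ≤ N) : (y : ℝ) * u N ≤ N * u y := by
  have step : ∀ k, k + 1 ≤ N → (k : ℝ) * u (k + 1) ≤ (k + 1) * u k := by
    intro k
    induction k with
    | zero => intro _; simp [h.1]
    | succ k ih =>
      intro hk
      have h1 := ih (by omega)
      have h2 := h.2 k (by omega)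
      push_cast
      nlinarith
  have gen : ∀ M, y ≤ M → M ≤ N → (y : ℝ) * u M ≤ M * u y := by
    intro M hM
    induction M, hM using Nat.le_induction with
    | base => intro _; exact le_refl _
    | succ M hM ih =>
      intro hN
      have h1 := ih (by omega)
      have h2 := step M hN
      rcases Nat.eq_zero_or_pos M with h0 | h0
      · subst h0
        have : y = 0 := by omega
        subst this
        simp [h.1]
      · have hM0 : (0 : ℝ) < M := by exact_mod_cast h0
        have hy0 : (0 : ℝ) ≤ y := Nat.cast_nonneg _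
        have e1 : (y : ℝ) * (M * u (M + 1)) ≤ y * ((M + 1) * u M) := mul_le_mul_of_nonneg_left h2 hy0
        have e2 : ((M : ℝ) + 1) * (y * u M) ≤ (M + 1) * (M * u y) :=
          mul_le_mul_of_nonneg_left h1 (by positivity)
        have e3 : (M : ℝ) * (y * u (M + 1)) ≤ M * ((M + 1) * u y) := by nlinarith
        push_cast
        exact le_of_mul_le_mul_left e3 hM0
  exact gen N hy le_rfl

theorem in_cv_mono {u : ℕ → ℝ} {N M : ℕ} (h : Cv u N) (hM : M ≤ N) : Cv u M :=
  ⟨h.1, fun k hk => h.2 k (by omega)⟩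

/-- the auxiliary function `g'`. -/
noncomputable def gg (f : ℕ → ℝ) (n k : ℕ) : ℝ :=
  if k = 0 then 0 else f (k + 1) + Phi f (n - k) - Phi f (n + 1)

/-- its value at `0` before truncation. -/
noncomputable def g0 (f : ℕ → ℝ) (n : ℕ) : ℝ := f 1 + Phi f n - Phi f (n + 1)

theorem in_slope {u : ℕ → ℝ} {N : ℕ} (h : Cv u N) : ∀ k, k + 1 ≤ N → u (k + 1) - u k ≤ u 1 - u 0 := by
  intro k
  induction k with
  | zero => intro _; simp
  | succ k ih =>
    intro hk
    have h1 := ih (by omega)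
    have h2 := h.2 k (by omega)
    linarith

theorem in_g0_nonneg {f : ℕ → ℝ} {n : ℕ} (hf : Cv f (n + 1)) : 0 ≤ g0 f n := by
  have hp := phi_cv f (n + 1) hf
  have h1 := in_slope hp n le_rfl
  rw [Phi_one f hf.1, Phi_zero f hf.1] at h1
  unfold g0; linarith

theorem in_gg_cv {f : ℕ → ℝ} {n : ℕ} (hf : Cv f (n + 1)) : Cv (gg f n) n := by
  have hp := phi_cv f (n + 1) hf
  have hg := in_g0_nonneg hf
  refine ⟨by simp [gg], ?_⟩
  intro k hk
  have e2 : gg f n (k + 2) = f (k + 3) + Phi f (n - (k + 2)) - Phi f (n + 1) := by simp [gg]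
  have e1 : gg f n (k + 1) = f (k + 2) + Phi f (n - (k + 1)) - Phi f (n + 1) := by simp [gg]
  have c1 := hf.2 (k + 1) (by omega)
  have c2 := hp.2 (n - (k + 2)) (by omega)
  have a1 : n - (k + 2) + 1 = n - (k + 1) := by omega
  have a2 : n - (k + 2) + 2 = n - k := by omega
  rw [a1, a2] at c2
  have c1' : f (k + 3) + f (k + 1) ≤ 2 * f (k + 2) := c1
  rcases Nat.eq_zero_or_pos k with h0 | h0
  · subst h0
    have e0 : gg f n 0 = 0 := by simp [gg]
    rw [e2, e1, e0]
    unfold g0 at hg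
    simp only [Nat.sub_zero] at c2
    have c1'' : f (0 + 3) + f 1 ≤ 2 * f (0 + 2) := c1'
    linarith
  · have e0 : gg f n k = f (k + 1) + Phi f (n - k) - Phi f (n + 1) := by
      unfold gg; rw [if_neg (by omega)]
    rw [e2, e1, e0]; linarith

theorem in_bell_pos (n : ℕ) : (0 : ℝ) < (Nat.bell n : ℝ) := by
  have h := ZZ_one (range n)
  rw [card_range] at h
  have h2 : (0 : ℝ) < ZZ (fun _ : Finset ℕ => (1 : ℝ)) (range n) := by
    unfold ZZ
    apply Finset.sum_pos
    · intro P _; simp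
    · exact ⟨⊥, Finset.mem_univ _⟩
  rw [h] at h2
  exact h2

theorem in_gg_sum {f : ℕ → ℝ} {n : ℕ} (hf : Cv f (n + 1)) : g0 f n + Phi (gg f n) n = 0 := by
  have hB : (0 : ℝ) < (Nat.bell n : ℝ) := in_bell_pos n
  have h1 := Phi_rec f hf.1 n
  have h2 : (Nat.bell (n + 1) : ℝ) = ∑ k ∈ range (n + 1), (n.choose k : ℝ) * (Nat.bell (n - k) : ℝ) := by
    rw [Nat.bell_succ, ← Nat.range_succ_eq_Iic]
    push_cast
    rfl
  have h3 : (Nat.bell n : ℝ) * Phi (gg f n) n =
      ∑ k ∈ range (n + 1), (n.choose k : ℝ) * (Nat.bell (n - k) : ℝ) * gg f n k := by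
    unfold Phi
    field_simp
  have h4 : ∑ k ∈ range (n + 1), (n.choose k : ℝ) * (Nat.bell (n - k) : ℝ) * gg f n k +
      (Nat.bell n : ℝ) * g0 f n =
      ∑ k ∈ range (n + 1), (n.choose k : ℝ) * (Nat.bell (n - k) : ℝ) *
        (f (k + 1) + Phi f (n - k) - Phi f (n + 1)) := by
    rw [Finset.sum_range_succ', Finset.sum_range_succ']
    have : ∀ k ∈ range n, (n.choose (k + 1) : ℝ) * (Nat.bell (n - (k + 1)) : ℝ) * gg f n (k + 1) =
        (n.choose (k + 1) : ℝ) * (Nat.bell (n - (k + 1)) : ℝ) *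
          (f (k + 1 + 1) + Phi f (n - (k + 1)) - Phi f (n + 1)) := by
      intro k _
      simp [gg]
    rw [Finset.sum_congr rfl this]
    simp [gg, g0]
  have h5 : ∑ k ∈ range (n + 1), (n.choose k : ℝ) * (Nat.bell (n - k) : ℝ) *
        (f (k + 1) + Phi f (n - k) - Phi f (n + 1)) = 0 := by
    have : ∀ k ∈ range (n + 1), (n.choose k : ℝ) * (Nat.bell (n - k) : ℝ) *
        (f (k + 1) + Phi f (n - k) - Phi f (n + 1)) =
        (n.choose k : ℝ) * (Nat.bell (n - k) : ℝ) * (f (k + 1) + Phi f (n - k)) -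
        (n.choose k : ℝ) * (Nat.bell (n - k) : ℝ) * Phi f (n + 1) := by
      intro k _; ring
    rw [Finset.sum_congr rfl this, Finset.sum_sub_distrib, ← Finset.sum_mul, ← h2, ← h1]
    ring
  have h6 : (Nat.bell n : ℝ) * (g0 f n + Phi (gg f n) n) = 0 := by
    rw [mul_add, h3]; linarith
  rcases mul_eq_zero.1 h6 with h7 | h7
  · linarith
  · exact h7

/-- the lower bound for `g 0 + Phi g' y`. -/
theorem in_phi_lower {f : ℕ → ℝ} {n : ℕ} (hf : Cv f (n + 1)) {y : ℕ} (hy : y ≤ n) :
    g0 f n * ((n : ℝ) - y) ≤ n * (g0 f n + Phi (gg f n) y) := by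
  have h1 := in_cv_mul (phi_cv _ _ (in_gg_cv hf)) hy
  have h2 := in_gg_sum hf
  have h3 : Phi (gg f n) n = - g0 f n := by linarith
  rw [h3] at h1
  nlinarith

theorem in_key (G : SimpleGraph V) [DecidableRel G.Adj] {n : ℕ}
    (ih : ∀ m ≤ n, ∀ f : ℕ → ℝ, Cv f m → ∀ T : Finset V, #T = m →
      Phi f m * ZZ (om G) T ≤ SS (fun b => f (#b)) (om G) T)
    {f : ℕ → ℝ} (hf : Cv f (n + 1)) {w : V} {T : Finset V} (hw : w ∉ T) (hT : #T = n) :
    ∑ Y ∈ (T.filter (fun x => ¬ G.Adj w x)).powerset,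
      (g0 f n + Phi (gg f n) (#Y)) * (ZZ (om G) Y *
        ZZ (omN (om G) (T.filter (fun x => ¬ G.Adj w x))) (T \ Y)) ≤
    SS (fun b => f (#b)) (om G) (insert w T) - Phi f (n + 1) * ZZ (om G) (insert w T) := by
  classical
  set W := T.filter (fun x => ¬ G.Adj w x) with hWdef
  have hWT : W ⊆ T := Finset.filter_subset _ _
  set c := Phi f (n + 1) with hc
  -- rewrite the right side as a sum over subsets of W
  have e1 : SS (fun b => f (#b)) (om G) (insert w T) - c * ZZ (om G) (insert w T) =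
      ∑ b ∈ W.powerset, om G b * ((f (#b + 1) - c) * ZZ (om G) (T \ b) +
        SS (fun b => f (#b)) (om G) (T \ b)) := by
    rw [SS_insert _ _ hw, ZZ_insert _ hw, Finset.mul_sum, ← Finset.sum_sub_distrib]
    rw [← Finset.sum_subset (Finset.powerset_mono.2 hWT)]
    · apply Finset.sum_congr rfl
      intro b hb
      have hbW := Finset.mem_powerset.1 hb
      have hbT : b ⊆ T := hbW.trans hWT
      rw [in_om_insert G hw hbT, if_pos hbW,
        Finset.card_insert_of_notMem (fun h => hw (hbT h))]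
      ring
    · intro b hb hb2
      have hbT := Finset.mem_powerset.1 hb
      have hbW : ¬ b ⊆ W := fun h => hb2 (Finset.mem_powerset.2 h)
      rw [in_om_insert G hw hbT, if_neg hbW]
      ring
  have e2 : ∑ b ∈ W.powerset, om G b * ((f (#b + 1) - c + Phi f (n - #b)) * ZZ (om G) (T \ b)) ≤
      ∑ b ∈ W.powerset, om G b * ((f (#b + 1) - c) * ZZ (om G) (T \ b) +
        SS (fun b => f (#b)) (om G) (T \ b)) := by
    apply Finset.sum_le_sum
    intro b hb
    have hbW := Finset.mem_powerset.1 hb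
    have hbT : b ⊆ T := hbW.trans hWT
    apply mul_le_mul_of_nonneg_left _ (in_om_nonneg G b)
    have hcard : #(T \ b) = n - #b := by
      rw [Finset.card_sdiff_of_subset hbT, hT]
    have := ih (n - #b) (Nat.sub_le _ _) f (in_cv_mono hf (by omega)) (T \ b) hcard
    nlinarith
  have e3 : ∑ b ∈ W.powerset, om G b * ((f (#b + 1) - c + Phi f (n - #b)) * ZZ (om G) (T \ b)) =
      g0 f n * ZZ (om G) T + ∑ b ∈ W.powerset, gg f n (#b) * om G b * ZZ (om G) (T \ b) := by
    have hom0 : om G ∅ = 1 := by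
      unfold om; rw [if_pos]; intro x hx; simp at hx
    have hmem : (∅ : Finset V) ∈ W.powerset := Finset.empty_mem_powerset _
    rw [← Finset.add_sum_erase _ _ hmem, ← Finset.add_sum_erase _ _ hmem]
    have : ∑ b ∈ W.powerset.erase ∅, om G b * ((f (#b + 1) - c + Phi f (n - #b)) * ZZ (om G) (T \ b)) =
        ∑ b ∈ W.powerset.erase ∅, gg f n (#b) * om G b * ZZ (om G) (T \ b) := by
      apply Finset.sum_congr rfl
      intro b hb
      have hb0 : b ≠ ∅ := (Finset.mem_erase.1 hb).1
      have : #b ≠ 0 := fun h => hb0 (Finset.card_eq_zero.1 h)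
      unfold gg
      rw [if_neg this]
      ring
    rw [this]
    have hg00 : gg f n (#(∅ : Finset V)) = 0 := by simp [gg]
    rw [hg00, hom0]
    simp only [Finset.card_empty, Finset.sdiff_empty, Nat.sub_zero, zero_add]
    unfold g0
    ring
  have e4 := SS_split (fun b => gg f n (#b)) (om G) (by simp [gg]) hWT
  have e5 := ZZ_split (om G) W T
  rw [Finset.inter_eq_right.2 hWT] at e5
  have e6 : g0 f n * ZZ (om G) T + ∑ b ∈ W.powerset, gg f n (#b) * om G b * ZZ (om G) (T \ b) =
      ∑ Y ∈ W.powerset, (g0 f n * ZZ (om G) Y + SS (fun b => gg f n (#b)) (om G) Y) *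
        ZZ (omN (om G) W) (T \ Y) := by
    rw [e4, e5, Finset.mul_sum, ← Finset.sum_add_distrib]
    apply Finset.sum_congr rfl
    intro Y _
    ring
  rw [e1]
  refine le_trans ?_ e2
  rw [e3, e6]
  apply Finset.sum_le_sum
  intro Y hY
  have hYW := Finset.mem_powerset.1 hY
  have hYn : #Y ≤ n := by
    rw [← hT]; exact Finset.card_le_card (hYW.trans hWT)
  have hN : 0 ≤ ZZ (omN (om G) W) (T \ Y) := by
    apply ZZ_nonneg
    intro b
    unfold omN
    split_ifs
    · exact le_rfl
    · exact in_om_nonneg G b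
  have h1 := ih (#Y) hYn (gg f n) (in_cv_mono (in_gg_cv hf) hYn) Y rfl
  have h2 : (g0 f n + Phi (gg f n) (#Y)) * ZZ (om G) Y ≤
      g0 f n * ZZ (om G) Y + SS (fun b => gg f n (#b)) (om G) Y := by linarith
  calc (g0 f n + Phi (gg f n) (#Y)) * (ZZ (om G) Y * ZZ (omN (om G) W) (T \ Y))
      = (g0 f n + Phi (gg f n) (#Y)) * ZZ (om G) Y * ZZ (omN (om G) W) (T \ Y) := by ring
    _ ≤ _ := mul_le_mul_of_nonneg_right h2 hN

theorem in_main (G : SimpleGraph V) : ∀ n : ℕ, ∀ f : ℕ → ℝ, Cv f n → ∀ T : Finset V, #T = n →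
    Phi f n * ZZ (om G) T ≤ SS (fun b => f (#b)) (om G) T := by
  classical
  intro n
  induction n using Nat.strong_induction_on with
  | _ n ih =>
    intro f hf T hT
    rcases Nat.eq_zero_or_pos n with h0 | h0
    · subst h0
      have : T = ∅ := Finset.card_eq_zero.1 hT
      subst this
      rw [SS_empty, Phi_zero f hf.1]; simp
    · obtain ⟨m, rfl⟩ : ∃ m, n = m + 1 := ⟨n - 1, by omega⟩
      have hne : T.Nonempty := Finset.card_pos.1 (by omega)
      obtain ⟨w, hwT⟩ := hne
      obtain ⟨T', hwT', rfl⟩ : ∃ T', w ∉ T' ∧ insert w T' = T :=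
        ⟨T.erase w, Finset.notMem_erase _ _, Finset.insert_erase hwT⟩
      have hT' : #T' = m := by
        rw [Finset.card_insert_of_notMem hwT'] at hT; omega
      have hk := in_key G (fun k hk => ih k (by omega)) hf hwT' hT'
      have hpos : 0 ≤ ∑ Y ∈ (T'.filter (fun x => ¬ G.Adj w x)).powerset,
          (g0 f m + Phi (gg f m) (#Y)) * (ZZ (om G) Y *
            ZZ (omN (om G) (T'.filter (fun x => ¬ G.Adj w x))) (T' \ Y)) := by
        apply Finset.sum_nonneg
        intro Y hY
        have hYm : #Y ≤ m := by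
          rw [← hT']
          exact Finset.card_le_card ((Finset.mem_powerset.1 hY).trans (Finset.filter_subset _ _))
        apply mul_nonneg
        · rcases Nat.eq_zero_or_pos m with hm | hm
          · have hY0 : #Y = 0 := by omega
            rw [hY0, Phi_zero _ (by simp [gg])]
            have := in_g0_nonneg hf
            linarith
          · have h1 := in_phi_lower hf hYm
            have h2 := in_g0_nonneg hf
            have h3 : (0 : ℝ) ≤ (m : ℝ) - #Y := by
              have : ((#Y : ℕ) : ℝ) ≤ m := by exact_mod_cast hYm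
              linarith
            have hm' : (0 : ℝ) < m := by exact_mod_cast hm
            have h4 : 0 ≤ (m : ℝ) * (g0 f m + Phi (gg f m) (#Y)) :=
              le_trans (mul_nonneg h2 h3) h1
            exact nonneg_of_mul_nonneg_right h4 hm'
        · apply mul_nonneg
          · exact ZZ_nonneg _ (in_om_nonneg G) _
          · apply ZZ_nonneg
            intro b
            unfold omN
            split_ifs
            · exact le_rfl
            · exact in_om_nonneg G b
      linarith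

theorem main_ineq (G : SimpleGraph V) (f : ℕ → ℝ) (N : ℕ) (hf : Cv f N) (T : Finset V) (hT : #T ≤ N) :
    Phi f (#T) * ZZ (om G) T ≤ SS (fun b => f (#b)) (om G) T :=
  in_main G (#T) f (in_cv_mono hf hT) T rfl

theorem main_strict (G : SimpleGraph V) (f : ℕ → ℝ) (N : ℕ) (hf : Cv f N) (w x : V) (T : Finset V)
    (hw : w ∉ T) (hT : #T + 1 ≤ N) (hx : x ∈ T) (hadj : G.Adj w x)
    (hpos : Phi f (#T + 1) < f 1 + Phi f (#T)) :
    Phi f (#T + 1) * ZZ (om G) (insert w T) < SS (fun b => f (#b)) (om G) (insert w T) := by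
  classical
  set n := #T with hn
  have hf' : Cv f (n + 1) := in_cv_mono hf hT
  have hk := in_key G (fun k _ => in_main G k) hf' hw hn.symm
  set W := T.filter (fun x => ¬ G.Adj w x) with hW
  have hWT : W ⊆ T := Finset.filter_subset _ _
  have hWlt : #W < n := by
    rw [hn]
    apply Finset.card_lt_card
    refine ⟨hWT, fun h => ?_⟩
    exact (Finset.mem_filter.1 (h hx)).2 hadj
  have hg0 : 0 < g0 f n := by unfold g0; linarith
  have hn0 : (0 : ℝ) < n := by
    have : 0 < n := by omega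
    exact_mod_cast this
  have e5 := ZZ_split (om G) W T
  rw [Finset.inter_eq_right.2 hWT] at e5
  have hZ : 1 ≤ ZZ (om G) T := ZZ_om_pos G T
  have hlow : (g0 f n / n) * ZZ (om G) T ≤ ∑ Y ∈ W.powerset,
      (g0 f n + Phi (gg f n) (#Y)) * (ZZ (om G) Y * ZZ (omN (om G) W) (T \ Y)) := by
    rw [e5, Finset.mul_sum]
    apply Finset.sum_le_sum
    intro Y hY
    have hYn : #Y < n := lt_of_le_of_lt (Finset.card_le_card (Finset.mem_powerset.1 hY)) hWlt
    apply mul_le_mul_of_nonneg_right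
    · have h1 := in_phi_lower hf' hYn.le
      have h3 : (1 : ℝ) ≤ (n : ℝ) - #Y := by
        have : ((#Y : ℕ) : ℝ) + 1 ≤ n := by exact_mod_cast hYn
        linarith
      rw [div_le_iff₀ hn0]
      nlinarith
    · apply mul_nonneg
      · exact ZZ_nonneg _ (in_om_nonneg G) _
      · apply ZZ_nonneg
        intro b
        unfold omN
        split_ifs
        · exact le_rfl
        · exact in_om_nonneg G b
  have hfin : 0 < (g0 f n / n) * ZZ (om G) T := by positivity
  linarith

end Pool.H68.AC
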