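import Pool.Agent.H68.AC.FDefs
import Pool.Agent.H68.AC.IN

/-!
# Final assembly
-/

namespace Pool.H68.AC

open Finset

variable {V : Type*} [Fintype V] [DecidableEq V]

theorem fi_prod (G : SimpleGraph V) (P : Finpartition (univ : Finset V)) :
    ∏ b ∈ P.parts, om G b = open Classical in (if Stable G P then (1 : ℝ) else 0) := by
  classical
  by_cases h : Stable G P
  · rw [if_pos h]
    apply Finset.prod_eq_one
    intro b hb
    unfold om
    rw [if_pos (h b hb)]
  · rw [if_neg h]
    unfold Stable at h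
    push Not at h
    obtain ⟨b, hb, x, hx, y, hy, hxy⟩ := h
    apply Finset.prod_eq_zero hb
    unfold om
    rw [if_neg]
    intro h2
    exact h2 x hx y hy hxy

theorem fi_card (G : SimpleGraph V) : (#(stableParts G) : ℝ) = ZZ (om G) univ := by
  classical
  unfold ZZ stableParts
  rw [Finset.sum_congr rfl (fun P _ => fi_prod G P), Finset.sum_boole]

theorem fi_sum (G : SimpleGraph V) (f : ℕ → ℝ) :
    ∑ P ∈ stableParts G, ∑ b ∈ P.parts, f (#b) = SS (fun b => f (#b)) (om G) univ := by
  classical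
  unfold SS stableParts
  rw [Finset.sum_filter]
  apply Finset.sum_congr rfl
  intro P _
  rw [fi_prod]
  split_ifs <;> simp

theorem fi_pos (G : SimpleGraph V) : (0 : ℝ) < (#(stableParts G) : ℝ) := by
  rw [fi_card]
  exact lt_of_lt_of_le one_pos (ZZ_om_pos G univ)

/-- the constant function `1` (on nonempty blocks) -/
noncomputable def f1 : ℕ → ℝ := fun k => if k = 0 then 0 else 1

theorem fi_avg (G : SimpleGraph V) : avgColours G = blockAvg G f1 := by
  unfold avgColours blockAvg
  congr 1
  apply Finset.sum_congr rfl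
  intro P _
  have : ∀ b ∈ P.parts, f1 (#b) = 1 := by
    intro b hb
    unfold f1
    rw [if_neg]
    have := P.nonempty_of_mem_parts hb
    exact Finset.card_pos.2 this |>.ne'
  rw [Finset.sum_congr rfl this]
  simp

theorem fi_om_bot (T b : Finset V) (G : SimpleGraph V) (hG : ∀ x ∈ T, ∀ y ∈ T, ¬ G.Adj x y) (hb : b ⊆ T) :
    om G b = 1 := by
  unfold om
  rw [if_pos]
  intro x hx y hy
  exact hG x (hb hx) y (hb hy)

/-- on an independent set everything is as for the edgeless graph -/
theorem fi_indep (G : SimpleGraph V) (T : Finset V) (hG : ∀ x ∈ T, ∀ y ∈ T, ¬ G.Adj x y) (f : ℕ → ℝ)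
    (h0 : f 0 = 0) :
    SS (fun b => f (#b)) (om G) T = Phi f (#T) * ZZ (om G) T := by
  have h1 : ∀ P : Finpartition T, ∏ b ∈ P.parts, om G b = ∏ b ∈ P.parts, (fun _ => (1 : ℝ)) b := by
    intro P
    apply Finset.prod_congr rfl
    intro b hb
    exact fi_om_bot T b G hG (P.le hb)
  have h2 : SS (fun b => f (#b)) (om G) T = SS (fun b => f (#b)) (fun _ => (1 : ℝ)) T := by
    unfold SS
    apply Finset.sum_congr rfl
    intro P _
    rw [h1 P]
  have h3 : ZZ (om G) T = ZZ (fun _ => (1 : ℝ)) T := by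
    unfold ZZ
    apply Finset.sum_congr rfl
    intro P _
    rw [h1 P]
  rw [h2, h3, SS_one f h0, ZZ_one, mul_comm]

theorem fi_bot (f : ℕ → ℝ) (h0 : f 0 = 0) :
    blockAvg (⊥ : SimpleGraph V) f = Phi f (Fintype.card V) := by
  unfold blockAvg
  rw [fi_sum, div_eq_iff (fi_pos _).ne', fi_card]
  rw [fi_indep (⊥ : SimpleGraph V) univ (by intro x _ y _; simp) f h0, Finset.card_univ]

theorem fi_ge (G : SimpleGraph V) (f : ℕ → ℝ) (hf : Cv f (Fintype.card V)) :
    blockAvg (⊥ : SimpleGraph V) f ≤ blockAvg G f := by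
  rw [fi_bot f hf.1]
  unfold blockAvg
  rw [le_div_iff₀ (fi_pos G), fi_card, fi_sum]
  have := main_ineq G f (Fintype.card V) hf univ (by rw [Finset.card_univ])
  rw [Finset.card_univ] at this
  exact this

theorem fi_f1_cv (N : ℕ) : Cv f1 N := pf_cv N

theorem fi_hpos (k : ℕ) (hk : 1 ≤ k) : Phi f1 (k + 1) < f1 1 + Phi f1 k := by
  have hp := phi_cv f1 (k + 1) (fi_f1_cv (k + 1))
  have h1 : ∀ j, 1 ≤ j → j + 1 ≤ k + 1 → Phi f1 (j + 1) - Phi f1 j ≤ 1 / 2 := by
    intro j hj
    induction j, hj using Nat.le_induction with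
    | base =>
      intro _
      have e2 : Phi f1 2 = 3 / 2 := by
        have := pf_const 2
        unfold f1
        rw [this, pp_2]; norm_num
      have e1 : Phi f1 1 = 1 := by
        rw [Phi_one f1 (by simp [f1])]; simp [f1]
      rw [e2, e1]; norm_num
    | succ j hj ih =>
      intro hjk
      have := ih (by omega)
      have h2 := hp.2 j (by omega)
      have e : j + 1 + 1 = j + 2 := rfl
      rw [e]
      linarith
  have h2 := h1 k hk le_rfl
  have h3 : f1 1 = 1 := by simp [f1]
  rw [h3]; linarith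

/-- strict inequality on a set containing an edge -/
theorem fi_strict (G : SimpleGraph V) (T : Finset V) {x y : V} (hx : x ∈ T) (hy : y ∈ T) (hxy : G.Adj x y) :
    Phi f1 (#T) * ZZ (om G) T < SS (fun b => f1 (#b)) (om G) T := by
  obtain ⟨T', hxT', rfl⟩ : ∃ T', x ∉ T' ∧ insert x T' = T :=
    ⟨T.erase x, Finset.notMem_erase _ _, Finset.insert_erase hx⟩
  have hyT' : y ∈ T' := by
    rcases Finset.mem_insert.1 hy with h | h
    · exact absurd h.symm hxy.ne
    · exact h
  rw [Finset.card_insert_of_notMem hxT']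
  have hk : 1 ≤ #T' := Finset.card_pos.2 ⟨y, hyT'⟩
  exact main_strict G f1 (#T' + 1) (fi_f1_cv _) x y T' hxT' le_rfl hyT' hxy (fi_hpos _ hk)

theorem fi_main (G : SimpleGraph V) :
    avgColours (⊥ : SimpleGraph V) ≤ avgColours G ∧ (avgColours G = avgColours (⊥ : SimpleGraph V) ↔ G = ⊥) := by
  refine ⟨?_, ?_, ?_⟩
  · rw [fi_avg, fi_avg]; exact fi_ge G f1 (fi_f1_cv _)
  · intro h
    by_contra hne
    obtain ⟨x, y, hxy⟩ : ∃ x y, G.Adj x y := by
      by_contra hno
      push Not at hno
      apply hne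
      ext x y
      simp [hno x y]
    rw [fi_avg, fi_avg, fi_bot f1 (by simp [f1])] at h
    have h1 := fi_strict G univ (Finset.mem_univ x) (Finset.mem_univ y) hxy
    unfold blockAvg at h
    rw [div_eq_iff (fi_pos G).ne', fi_card, fi_sum] at h
    rw [Finset.card_univ] at h1
    linarith
  · rintro rfl; rfl

/-- `w` adjacent to all other vertices -/
theorem fi_univ (G : SimpleGraph V) (w : V) (hw : ∀ x, x ≠ w → G.Adj w x) :
    avgColours G = 1 + SS (fun b => f1 (#b)) (om G) (univ.erase w) / ZZ (om G) (univ.erase w) := by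
  classical
  have hi : insert w (univ.erase w) = (univ : Finset V) := Finset.insert_erase (Finset.mem_univ w)
  have hnw : w ∉ (univ.erase w : Finset V) := Finset.notMem_erase _ _
  have hom : ∀ b ∈ (univ.erase w : Finset V).powerset, b ≠ ∅ → om G (insert w b) = 0 := by
    intro b hb hne
    obtain ⟨x, hx⟩ := Finset.nonempty_iff_ne_empty.2 hne
    unfold om
    rw [if_neg]
    intro h
    have hxw : x ≠ w := by
      have := Finset.mem_powerset.1 hb hx
      exact Finset.ne_of_mem_erase this
    exact h w (Finset.mem_insert_self _ _) x (Finset.mem_insert_of_mem hx) (hw x hxw)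
  have hom0 : om G (insert w ∅) = 1 := by
    unfold om
    rw [if_pos]
    intro x hx y hy
    simp at hx hy
    subst hx; subst hy
    exact G.irrefl
  have e1 : ZZ (om G) univ = ZZ (om G) (univ.erase w) := by
    conv_lhs => rw [← hi]
    rw [ZZ_insert _ hnw, Finset.sum_eq_single ∅]
    · rw [hom0]; simp
    · intro b hb hne
      rw [hom b hb hne]; simp
    · intro h; exact absurd (Finset.empty_mem_powerset _) h
  have e2 : SS (fun b => f1 (#b)) (om G) univ =
      ZZ (om G) (univ.erase w) + SS (fun b => f1 (#b)) (om G) (univ.erase w) := by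
    conv_lhs => rw [← hi]
    rw [SS_insert _ _ hnw, Finset.sum_eq_single ∅]
    · rw [hom0]; simp [f1]
    · intro b hb hne
      rw [hom b hb hne]; simp
    · intro h; exact absurd (Finset.empty_mem_powerset _) h
  rw [fi_avg]
  unfold blockAvg
  rw [fi_card, fi_sum, e1, e2]
  have : (0 : ℝ) < ZZ (om G) (univ.erase w) := lt_of_lt_of_le one_pos (ZZ_om_pos G _)
  field_simp

theorem fi_L3 (n : ℕ) : L3 (n + 1) (n + 1) = 1 + Phi f1 n := by
  have h := Phi_const n
  unfold L3
  unfold f1
  rw [h]
  simp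

theorem fi_star (G : SimpleGraph V) [DecidableRel G.Adj] (hG : G.maxDegree + 1 = Fintype.card V) :
    L3 (Fintype.card V) (G.maxDegree + 1) ≤ avgColours G ∧
    (avgColours G = L3 (Fintype.card V) (G.maxDegree + 1) ↔
      Nonempty (G ≃g starPlus (Fintype.card V) G.maxDegree)) := by
  classical
  have hne : Nonempty V := by
    rw [← Fintype.card_pos_iff]; omega
  obtain ⟨w, hw⟩ := G.exists_maximal_degree_vertex
  have hwadj : ∀ x, x ≠ w → G.Adj w x := by
    have h1 : #(G.neighborFinset w) = Fintype.card V - 1 := by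
      rw [SimpleGraph.card_neighborFinset_eq_degree]; omega
    have h2 : G.neighborFinset w ⊆ univ.erase w := by
      intro x hx
      rw [SimpleGraph.mem_neighborFinset] at hx
      exact Finset.mem_erase.2 ⟨hx.ne', Finset.mem_univ _⟩
    have h3 : G.neighborFinset w = univ.erase w := by
      apply Finset.eq_of_subset_of_card_le h2
      rw [Finset.card_erase_of_mem (Finset.mem_univ _), Finset.card_univ, h1]
    intro x hx
    have : x ∈ G.neighborFinset w := by
      rw [h3]; exact Finset.mem_erase.2 ⟨hx, Finset.mem_univ _⟩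
    exact (SimpleGraph.mem_neighborFinset _ _ _).1 this
  obtain ⟨n, hn⟩ : ∃ n, Fintype.card V = n + 1 := ⟨Fintype.card V - 1, by
    have := Fintype.card_pos (α := V); omega⟩
  have hd : G.maxDegree = n := by omega
  have hT : #(univ.erase w : Finset V) = n := by
    rw [Finset.card_erase_of_mem (Finset.mem_univ _), Finset.card_univ]; omega
  have hZ : (0 : ℝ) < ZZ (om G) (univ.erase w) := lt_of_lt_of_le one_pos (ZZ_om_pos G _)
  have hA := fi_univ G w hwadj
  rw [hd, hn, fi_L3]
  have hmain := main_ineq G f1 n (fi_f1_cv n) (univ.erase w) hT.le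
  rw [hT] at hmain
  refine ⟨?_, ?_, ?_⟩
  · rw [hA]
    have : Phi f1 n ≤ SS (fun b => f1 (#b)) (om G) (univ.erase w) / ZZ (om G) (univ.erase w) := by
      rw [le_div_iff₀ hZ]; exact hmain
    linarith
  · intro heq
    -- no edge avoids w
    have hno : ∀ x ∈ (univ.erase w : Finset V), ∀ y ∈ (univ.erase w : Finset V), ¬ G.Adj x y := by
      intro x hx y hy hxy
      have h1 := fi_strict G (univ.erase w) hx hy hxy
      rw [hT] at h1
      rw [hA] at heq
      have h2 : SS (fun b => f1 (#b)) (om G) (univ.erase w) / ZZ (om G) (univ.erase w) = Phi f1 n := by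
        linarith
      rw [div_eq_iff hZ.ne'] at h2
      linarith
    -- an equivalence sending w to 0
    obtain ⟨e⟩ : Nonempty (V ≃ Fin (n + 1)) := ⟨Fintype.equivFinOfCardEq hn⟩
    let e' : V ≃ Fin (n + 1) := e.trans (Equiv.swap (e w) 0)
    have he' : e' w = 0 := by simp [e']
    have he0 : ∀ x, (e' x).val = 0 ↔ x = w := by
      intro x
      constructor
      · intro h
        apply e'.injective
        rw [he']
        exact Fin.ext h
      · rintro rfl
        rw [he']; rfl
    refine ⟨⟨e', ?_⟩⟩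
    intro x y
    have hx := he0 x
    have hy := he0 y
    have hbx : (e' x).val < n + 1 := (e' x).isLt
    have hby : (e' y).val < n + 1 := (e' y).isLt
    show ((e' x).val = 0 ∧ 1 ≤ (e' y).val ∧ (e' y).val ≤ n) ∨
      ((e' y).val = 0 ∧ 1 ≤ (e' x).val ∧ (e' x).val ≤ n) ↔ G.Adj x y
    constructor
    · rintro (⟨h1, h2, _⟩ | ⟨h1, h2, _⟩)
      · have hxw := hx.1 h1
        have hyw : y ≠ w := fun h => by have := hy.2 h; omega
        rw [hxw]; exact hwadj y hyw
      · have hyw := hy.1 h1
        have hxw : x ≠ w := fun h => by have := hx.2 h; omega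
        rw [hyw]; exact (hwadj x hxw).symm
    · intro hxy
      by_cases hxw : x = w
      · left
        have hyw : y ≠ w := fun h => hxy.ne (hxw.trans h.symm)
        have : (e' y).val ≠ 0 := fun h => hyw (hy.1 h)
        exact ⟨hx.2 hxw, by omega, by omega⟩
      · by_cases hyw : y = w
        · right
          have : (e' x).val ≠ 0 := fun h => hxw (hx.1 h)
          exact ⟨hy.2 hyw, by omega, by omega⟩
        · exact absurd hxy (hno x (Finset.mem_erase.2 ⟨hxw, Finset.mem_univ _⟩) y
            (Finset.mem_erase.2 ⟨hyw, Finset.mem_univ _⟩))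
  · rintro ⟨φ⟩
    -- G is a star: find the centre
    have hsub : ∀ x ∈ (univ.erase w : Finset V), ∀ y ∈ (univ.erase w : Finset V), ¬ G.Adj x y := by
      intro x hx y hy hxy
      have hxw := Finset.ne_of_mem_erase hx
      have hyw := Finset.ne_of_mem_erase hy
      -- w, x, y pairwise adjacent: a triangle, but the star has none
      have a1 := φ.map_rel_iff.2 (hwadj x hxw)
      have a2 := φ.map_rel_iff.2 (hwadj y hyw)
      have a3 := φ.map_rel_iff.2 hxy
      have b1 : ((φ w).val = 0 ∧ 1 ≤ (φ x).val ∧ (φ x).val ≤ n) ∨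
        ((φ x).val = 0 ∧ 1 ≤ (φ w).val ∧ (φ w).val ≤ n) := a1
      have b2 : ((φ w).val = 0 ∧ 1 ≤ (φ y).val ∧ (φ y).val ≤ n) ∨
        ((φ y).val = 0 ∧ 1 ≤ (φ w).val ∧ (φ w).val ≤ n) := a2
      have b3 : ((φ x).val = 0 ∧ 1 ≤ (φ y).val ∧ (φ y).val ≤ n) ∨
        ((φ y).val = 0 ∧ 1 ≤ (φ x).val ∧ (φ x).val ≤ n) := a3
      omega
    rw [hA]
    have h1 := fi_indep G (univ.erase w) hsub f1 (by simp [f1])
    rw [hT] at h1
    rw [h1, mul_div_assoc, div_self hZ.ne', mul_one]

end Pool.H68.AC
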