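import Pool.Agent.H68.AC.Defs

/-!
# Module FP : recursions for sums over the partitions of a finite set

Everything follows from ONE bijection: for a nonempty `S ⊆ T`, the partitions `P` of `T` with `S ∈ P.parts` correspond to
the partitions `Q` of `T \ S` (`Q.parts = P.parts.erase S`, `P = Q.extend ...`; see `Finpartition.extend`,
`Finpartition.ofErase`/`ofSubset`, or build the inverse by hand), and `∏_{b ∈ P} ω b = ω S * ∏_{b ∈ Q} ω b`,
`∑_{b ∈ P} F b = F S + ∑_{b ∈ Q} F b`.  So first prove, for nonempty `S ⊆ T` and every `H : Finset (Finset V) → ℝ`,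
  `∑_{P : Finpartition T, S ∈ P.parts} H P.parts = ∑_{Q : Finpartition (T \ S)} H (insert S Q.parts)`.
* `ZZ_insert`: split the partitions of `insert w T'` according to the part containing `w`, which is `insert w b` for a
  unique `b ⊆ T'`; `(insert w T') \ (insert w b) = T' \ b`.
* `SS_insert`: the same, `∑_{c ∈ P} F c = F (insert w b) + ∑_{c ∈ Q} F c`.
* `SS_eq`: `∑_P ∑_{b ∈ P} F b ∏ = ∑_{b ⊆ T, b ≠ ∅} ∑_{P ∋ b} F b ∏`, the term `b = ∅` vanishes since `F ∅ = 0`.
-/

namespace Pool.H68.AC

open Finset

variable {V : Type*} [DecidableEq V]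

/-- remove a part. -/
def fp_rem {S T : Finset V} (P : Finpartition T) (hS : S ∈ P.parts) : Finpartition (T \ S) where
  parts := P.parts.erase S
  supIndep := P.supIndep.subset (erase_subset _ _)
  sup_parts := by
    ext x
    rw [mem_sup, mem_sdiff]
    constructor
    · rintro ⟨c, hc, hx⟩
      rw [mem_erase] at hc
      refine ⟨P.subset hc.2 hx, fun hxS => ?_⟩
      exact hc.1 (P.eq_of_mem_parts hc.2 hS hx hxS)
    · rintro ⟨hx, hxS⟩
      obtain ⟨c, hc, hxc⟩ := P.exists_mem hx
      refine ⟨c, mem_erase.2 ⟨?_, hc⟩, hxc⟩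
      rintro rfl
      exact hxS hxc
  bot_notMem := fun h => P.bot_notMem (mem_of_mem_erase h)

/-- add a part. -/
def fp_add {S T : Finset V} (hS : S.Nonempty) (hST : S ⊆ T) (Q : Finpartition (T \ S)) :
    Finpartition T :=
  Q.extend (b := S) (by simpa using hS.ne_empty) disjoint_sdiff_self_left
    (by rw [sup_eq_union, sdiff_union_of_subset hST])

theorem fp_add_parts {S T : Finset V} (hS : S.Nonempty) (hST : S ⊆ T) (Q : Finpartition (T \ S)) :
    (fp_add hS hST Q).parts = insert S Q.parts := rfl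

theorem fp_notMem {S T : Finset V} (hS : S.Nonempty) (Q : Finpartition (T \ S)) :
    S ∉ Q.parts := by
  intro h
  obtain ⟨x, hx⟩ := hS
  have := Q.subset h hx
  rw [mem_sdiff] at this
  exact this.2 hx

theorem fp_split {S T : Finset V} (hS : S.Nonempty) (hST : S ⊆ T) (H : Finset (Finset V) → ℝ) :
    ∑ P ∈ (univ : Finset (Finpartition T)).filter (fun P => S ∈ P.parts), H P.parts
      = ∑ Q : Finpartition (T \ S), H (insert S Q.parts) := by
  symm
  refine Finset.sum_bij (fun Q _ => fp_add hS hST Q) ?_ ?_ ?_ ?_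
  · intro Q _
    simp [fp_add_parts]
  · intro Q _ Q' _ h
    have h1 : insert S Q.parts = insert S Q'.parts := by
      have := congrArg Finpartition.parts h
      simpa only [fp_add_parts] using this
    ext1
    have h2 := congrArg (fun s => erase s S) h1
    simpa only [erase_insert (fp_notMem hS Q), erase_insert (fp_notMem hS Q')] using h2
  · intro P hP
    rw [mem_filter] at hP
    refine ⟨fp_rem P hP.2, mem_univ _, ?_⟩
    ext1
    rw [fp_add_parts]
    exact insert_erase hP.2
  · intro Q _
    rw [fp_add_parts]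

theorem fp_sdiff {w : V} {T b : Finset V} (hw : w ∉ T) :
    insert w T \ insert w b = T \ b := by
  ext x
  simp only [mem_sdiff, mem_insert]
  constructor
  · rintro ⟨rfl | h1, h2⟩
    · exact absurd (Or.inl rfl) h2
    · exact ⟨h1, fun h => h2 (Or.inr h)⟩
  · rintro ⟨h1, h2⟩
    refine ⟨Or.inr h1, ?_⟩
    rintro (rfl | h3)
    · exact hw h1
    · exact h2 h3

theorem fp_insert {w : V} {T : Finset V} (hw : w ∉ T) (H : Finset (Finset V) → ℝ) :
    ∑ P : Finpartition (insert w T), H P.parts
      = ∑ b ∈ T.powerset, ∑ Q : Finpartition (T \ b), H (insert (insert w b) Q.parts) := by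
  have h1 : ∀ b ∈ T.powerset, ∑ Q : Finpartition (T \ b), H (insert (insert w b) Q.parts)
      = ∑ P ∈ (univ : Finset (Finpartition (insert w T))).filter
          (fun P => (P.part w).erase w = b), H P.parts := by
    intro b hb
    rw [mem_powerset] at hb
    have h2 := fp_split (insert_nonempty w b) (insert_subset_insert w hb) H
    rw [fp_sdiff hw] at h2
    rw [← h2]
    refine Finset.sum_congr ?_ fun _ _ => rfl
    ext P
    simp only [mem_filter, mem_univ, true_and]
    constructor
    · intro h3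
      rw [P.part_eq_of_mem h3 (mem_insert_self _ _)]
      exact erase_insert (fun h => hw (hb h))
    · intro h3
      rw [← h3]
      have h4 : w ∈ P.part w := P.mem_part_self.2 (mem_insert_self _ _)
      rw [insert_erase h4]
      exact P.part_mem.2 (mem_insert_self _ _)
  rw [Finset.sum_congr rfl h1]
  refine (Finset.sum_fiberwise_of_maps_to (fun P _ => ?_) _).symm
  rw [mem_powerset]
  intro x hx
  rw [mem_erase] at hx
  have := P.part_subset w hx.2
  rw [mem_insert] at this
  rcases this with h | h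
  · exact absurd h hx.1
  · exact h

theorem ZZ_empty (ω : Finset V → ℝ) : ZZ ω ∅ = 1 := by
  unfold ZZ
  have : ∀ P : Finpartition (∅ : Finset V), P.parts = ∅ := by
    intro P
    exact P.parts_eq_empty_iff.2 rfl
  have hc : ∑ P : Finpartition (∅ : Finset V), ∏ b ∈ P.parts, ω b
      = ∑ _P : Finpartition (∅ : Finset V), (1 : ℝ) := by
    refine Finset.sum_congr rfl fun P _ => ?_
    rw [this P, prod_empty]
  rw [hc, sum_const, nsmul_eq_mul, mul_one]
  have hu : (univ : Finset (Finpartition (∅ : Finset V))).card = 1 := by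
    rw [card_eq_one]
    refine ⟨Finpartition.empty (Finset V), ?_⟩
    ext P
    simp only [mem_univ, mem_singleton, true_iff]
    ext1
    rw [this P]
    rfl
  rw [hu]
  simp

theorem SS_empty (F ω : Finset V → ℝ) : SS F ω ∅ = 0 := by
  unfold SS
  refine Finset.sum_eq_zero fun P _ => ?_
  rw [P.parts_eq_empty_iff.2 rfl, sum_empty, zero_mul]

theorem ZZ_nonneg (ω : Finset V → ℝ) (hω : ∀ b, 0 ≤ ω b) (T : Finset V) : 0 ≤ ZZ ω T := by
  unfold ZZ
  exact Finset.sum_nonneg fun P _ => Finset.prod_nonneg fun b _ => hω b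

theorem ZZ_insert (ω : Finset V → ℝ) {w : V} {T : Finset V} (hw : w ∉ T) :
    ZZ ω (insert w T) = ∑ b ∈ T.powerset, ω (insert w b) * ZZ ω (T \ b) := by
  unfold ZZ
  rw [fp_insert hw (fun p => ∏ b ∈ p, ω b)]
  refine Finset.sum_congr rfl fun b hb => ?_
  rw [Finset.mul_sum]
  refine Finset.sum_congr rfl fun Q _ => ?_
  rw [prod_insert]
  intro h
  have := Q.subset h (mem_insert_self w b)
  rw [mem_sdiff] at this
  exact hw this.1

theorem SS_insert (F ω : Finset V → ℝ) {w : V} {T : Finset V} (hw : w ∉ T) :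
    SS F ω (insert w T) =
      ∑ b ∈ T.powerset, ω (insert w b) * (F (insert w b) * ZZ ω (T \ b) + SS F ω (T \ b)) := by
  unfold SS ZZ
  rw [fp_insert hw (fun p => (∑ b ∈ p, F b) * ∏ b ∈ p, ω b)]
  refine Finset.sum_congr rfl fun b hb => ?_
  rw [Finset.mul_sum, ← Finset.sum_add_distrib, Finset.mul_sum]
  refine Finset.sum_congr rfl fun Q _ => ?_
  have hn : insert w b ∉ Q.parts := by
    intro h
    have := Q.subset h (mem_insert_self w b)
    rw [mem_sdiff] at this
    exact hw this.1
  rw [prod_insert hn, sum_insert hn]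
  ring

theorem SS_eq (F ω : Finset V → ℝ) (h0 : F ∅ = 0) (T : Finset V) :
    SS F ω T = ∑ b ∈ T.powerset, F b * ω b * ZZ ω (T \ b) := by
  unfold SS
  have h1 : ∀ P : Finpartition T, (∑ b ∈ P.parts, F b) * ∏ b ∈ P.parts, ω b
      = ∑ b ∈ T.powerset, if b ∈ P.parts then F b * ∏ b ∈ P.parts, ω b else 0 := by
    intro P
    rw [← Finset.sum_filter]
    have : T.powerset.filter (fun b => b ∈ P.parts) = P.parts := by
      ext b
      rw [mem_filter, mem_powerset]
      exact ⟨fun h => h.2, fun h => ⟨P.subset h, h⟩⟩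
    rw [this, Finset.sum_mul]
  rw [Finset.sum_congr rfl fun P _ => h1 P, Finset.sum_comm]
  refine Finset.sum_congr rfl fun b hb => ?_
  rw [mem_powerset] at hb
  rw [← Finset.sum_filter]
  rcases b.eq_empty_or_nonempty with rfl | hne
  · rw [h0, zero_mul, zero_mul]
    exact Finset.sum_eq_zero fun P _ => by rw [zero_mul]
  · rw [fp_split hne hb (fun p => F b * ∏ b ∈ p, ω b)]
    unfold ZZ
    rw [Finset.mul_sum]
    refine Finset.sum_congr rfl fun Q _ => ?_
    rw [prod_insert (fp_notMem hne Q)]
    ring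

end Pool.H68.AC
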