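import Pool.Agent.H68.AC.Defs

/-!
# Module NA : the numbers `P_n = B_n / n!` (basic facts, log-concavity)

Proofs.
* `PP_rec` is `Nat.bell_succ` (`B_{n+1} = ∑_{j ≤ n} C(n,j) B_{n-j}`) divided by `n!`.
* `pp_anti` (Bender-Canfield).  Put `Z_0 = 1`, `Z_j = 1/(j-1)!` (`j ≥ 1`) and `z_0 = 1`, `z_j = 1/j`
  (nonincreasing, and `Z_j z_j = 1/j!`).  By `PP_rec`
  `∑_{j ≤ n} Z_j P_{n-j} = P_n + n P_n = (n+1) P_n`  and  `∑_{j ≤ n} Z_j z_j P_{n-j} = (n+1) P_{n+1}`.
  Let `A_j = Z_j P_{n+1-j} / ((n+2) P_{n+1})` (`j ≤ n+1`), `C_j = Z_j P_{n-j} / ((n+1) P_n)` (`j ≤ n`, and `C_{n+1} = 0`).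
  Then `∑ A_j = ∑ C_j = 1`, `∑ z_j A_j = pp (n+1)`, `∑ z_j C_j = pp n`, hence
  `2 (pp (n+1) - pp n) = ∑_{i,j} (z_i - z_j) (A_i C_j - A_j C_i)`.  For `i < j ≤ n`:
  `z_i ≥ z_j` and `A_i C_j ≤ A_j C_i` because this says `P_{n+1-i} P_{n-j} ≤ P_{n+1-j} P_{n-i}`, i.e.
  `pp (n-i) ≤ pp (n-j)`, true by the induction hypothesis (`pp` is antitone on `{0..n}`, `n - i > n - j`);
  for `j = n+1`: `C_j = 0`.  So every term is `≤ 0`.  (Strong induction on `n`.  One may multiply out the
  denominators: `(n+2)P_{n+2}(n+1)P_n - (n+1)P_{n+1}(n+2)P_{n+1}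
   = ∑_{i<j} Z_i Z_j (z_i - z_j) (P_{n+1-i} P_{n-j} - P_{n+1-j} P_{n-i})` with `P_{-1} = 0`.)
* `pp_strict` : `pp 0 = pp 1 = 1`, `pp 2 = 5/6`, `pp 3 = 3/4`, so the claim holds for `n = 1, 2`.  For `n ≥ 3` by
  induction: in the sum above (for the pair `pp n`, `pp (n+1)`) the term `i = 1, j = 2` is
  `Z_1 Z_2 (1 - 1/2) P_{n-1} P_{n-2} (pp (n-1) - pp (n-2)) < 0` since `n - 2 ≥ 1`.
* `qq_mono` : by `PP_rec`, `(n+1) pp n = ∑_{j ≤ n} (1/j!) P_{n-j}/P_n`, and `P_{n-j}/P_n = ∏_{i=1}^{j} 1/pp (n-i)` is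
  nondecreasing in `n` since `pp` is antitone (i.e. `P_{n-j}/P_n ≤ P_{n+1-j}/P_{n+1}`, i.e. `pp n ≤ pp (n-j)`).
-/

namespace Pool.H68.AC

open Finset

theorem PP_pos (n : ℕ) : 0 < PP n := by
  have hb : 0 < Nat.bell n := by
    induction n with
    | zero => simp
    | succ n ih =>
      rw [Nat.bell_succ]
      apply Finset.sum_pos'
      · intro i _
        exact Nat.zero_le _
      · exact ⟨0, by simp, by simpa using ih⟩
  unfold PP
  positivity

theorem PP_zero : PP 0 = 1 := by
  simp [PP]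

theorem PP_succ (n : ℕ) : PP (n + 1) = pp n * PP n := by
  have := PP_pos n
  unfold pp
  field_simp

theorem pp_pos (n : ℕ) : 0 < pp n := by
  have := PP_pos n
  have := PP_pos (n + 1)
  unfold pp
  positivity

theorem PP_rec (n : ℕ) :
    ((n : ℝ) + 1) * PP (n + 1) = ∑ j ∈ range (n + 1), PP (n - j) / (j.factorial : ℝ) := by
  have h1 : ((Nat.bell (n + 1) : ℕ) : ℝ) = ∑ j ∈ range (n + 1), ((n.choose j : ℝ) * (Nat.bell (n - j) : ℝ)) := by
    rw [Nat.bell_succ, ← Nat.range_succ_eq_Iic]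
    push_cast
    rfl
  have hn : ((n.factorial : ℝ)) ≠ 0 := by positivity
  have h2 : ((n : ℝ) + 1) * PP (n + 1) = (Nat.bell (n + 1) : ℝ) / (n.factorial : ℝ) := by
    unfold PP
    rw [Nat.factorial_succ]
    push_cast
    have : (n : ℝ) + 1 ≠ 0 := by positivity
    field_simp
  rw [h2, h1, Finset.sum_div]
  apply Finset.sum_congr rfl
  intro j hj
  have hj' : j ≤ n := by
    have := mem_range.1 hj
    omega
  unfold PP
  have h3 : (n.choose j : ℝ) = (n.factorial : ℝ) / ((j.factorial : ℝ) * ((n - j).factorial : ℝ)) := by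
    rw [Nat.cast_choose ℝ hj']
  rw [h3]
  have e1 : ((j.factorial : ℝ)) ≠ 0 := by positivity
  have e2 : (((n - j).factorial : ℝ)) ≠ 0 := by positivity
  field_simp

/-- `Z_j` -/
noncomputable def NAZ (j : ℕ) : ℝ := if j = 0 then 1 else 1 / ((j - 1).factorial : ℝ)

/-- `z_j` -/
noncomputable def NAz (j : ℕ) : ℝ := if j = 0 then 1 else 1 / (j : ℝ)

/-- `P_{n-j}` or zero -/
noncomputable def NAQ (n j : ℕ) : ℝ := if j ≤ n then PP (n - j) else 0

theorem NAZ_pos (j : ℕ) : 0 < NAZ j := by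
  unfold NAZ
  split_ifs
  · norm_num
  · positivity

theorem NAZz (j : ℕ) : NAZ j * NAz j = 1 / (j.factorial : ℝ) := by
  unfold NAZ NAz
  rcases j with _ | j
  · simp
  · rw [if_neg (by omega), if_neg (by omega), Nat.factorial_succ]
    push_cast
    have e1 : ((j.factorial : ℝ)) ≠ 0 := by positivity
    have e2 : (j : ℝ) + 1 ≠ 0 := by positivity
    field_simp

theorem NAz_anti (i j : ℕ) (h : i ≤ j) : NAz j ≤ NAz i := by
  unfold NAz
  rcases i with _ | i
  · rcases j with _ | j
    · exact le_rfl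
    · rw [if_neg (by omega), if_pos rfl, div_le_one (by positivity)]
      push_cast
      have : (0 : ℝ) ≤ j := by positivity
      linarith
  · rw [if_neg (by omega), if_neg (by omega)]
    have h1 : ((i + 1 : ℕ) : ℝ) ≤ (j : ℝ) := by exact_mod_cast h
    have h2 : (0 : ℝ) < ((i + 1 : ℕ) : ℝ) := by positivity
    exact one_div_le_one_div_of_le h2 h1

theorem NA_sumZ (n : ℕ) : ∑ j ∈ range (n + 1), NAZ j * PP (n - j) = ((n : ℝ) + 1) * PP n := by
  rcases n with _ | n
  · simp [NAZ]
  · rw [Finset.sum_range_succ']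
    have h : ∑ k ∈ range (n + 1), NAZ (k + 1) * PP (n + 1 - (k + 1)) = ((n : ℝ) + 1) * PP (n + 1) := by
      rw [PP_rec]
      apply Finset.sum_congr rfl
      intro j hj
      unfold NAZ
      rw [if_neg (by omega), show j + 1 - 1 = j by omega, show n + 1 - (j + 1) = n - j by omega]
      ring
    rw [h]
    unfold NAZ
    simp
    ring

theorem NA_sumzZ (n : ℕ) : ∑ j ∈ range (n + 1), NAz j * (NAZ j * PP (n - j)) = ((n : ℝ) + 1) * PP (n + 1) := by
  rw [PP_rec]
  apply Finset.sum_congr rfl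
  intro j _
  have := NAZz j
  calc NAz j * (NAZ j * PP (n - j)) = (NAZ j * NAz j) * PP (n - j) := by ring
    _ = _ := by rw [this]; ring

/-- the antisymmetrised term -/
noncomputable def NAT (n i j : ℕ) : ℝ :=
  (NAz i - NAz j) * ((NAZ i * PP (n + 1 - i)) * (NAZ j * NAQ n j) - (NAZ j * PP (n + 1 - j)) * (NAZ i * NAQ n i))

theorem NA_D (n : ℕ) :
    2 * ((((n : ℝ) + 2) * PP (n + 2)) * (((n : ℝ) + 1) * PP n)
      - (((n : ℝ) + 1) * PP (n + 1)) * (((n : ℝ) + 2) * PP (n + 1)))
    = ∑ i ∈ range (n + 2), ∑ j ∈ range (n + 2), NAT n i j := by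
  have hA : ∑ i ∈ range (n + 2), NAZ i * PP (n + 1 - i) = ((n : ℝ) + 2) * PP (n + 1) := by
    have := NA_sumZ (n + 1)
    push_cast at this
    rw [show n + 1 + 1 = n + 2 from rfl] at this
    rw [this]; ring
  have hzA : ∑ i ∈ range (n + 2), NAz i * (NAZ i * PP (n + 1 - i)) = ((n : ℝ) + 2) * PP (n + 2) := by
    have := NA_sumzZ (n + 1)
    push_cast at this
    rw [show n + 1 + 1 = n + 2 from rfl] at this
    rw [this]; ring
  have hC : ∑ j ∈ range (n + 2), NAZ j * NAQ n j = ((n : ℝ) + 1) * PP n := by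
    rw [Finset.sum_range_succ, ← NA_sumZ n]
    have h1 : NAQ n (n + 1) = 0 := by unfold NAQ; rw [if_neg (by omega)]
    rw [h1, mul_zero, add_zero]
    apply Finset.sum_congr rfl
    intro j hj
    have := mem_range.1 hj
    unfold NAQ
    rw [if_pos (by omega)]
  have hzC : ∑ j ∈ range (n + 2), NAz j * (NAZ j * NAQ n j) = ((n : ℝ) + 1) * PP (n + 1) := by
    rw [Finset.sum_range_succ, ← NA_sumzZ n]
    have h1 : NAQ n (n + 1) = 0 := by unfold NAQ; rw [if_neg (by omega)]
    rw [h1, mul_zero, mul_zero, add_zero]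
    apply Finset.sum_congr rfl
    intro j hj
    have := mem_range.1 hj
    unfold NAQ
    rw [if_pos (by omega)]
  rw [← hA, ← hzA, ← hC, ← hzC]
  have e1 : ∑ i ∈ range (n + 2), ∑ j ∈ range (n + 2), NAT n i j
      = ∑ i ∈ range (n + 2), ∑ j ∈ range (n + 2),
          ((NAz i * (NAZ i * PP (n + 1 - i))) * (NAZ j * NAQ n j)
           - (NAZ i * PP (n + 1 - i)) * (NAz j * (NAZ j * NAQ n j)))
        + ∑ i ∈ range (n + 2), ∑ j ∈ range (n + 2),
          ((NAZ i * NAQ n i) * (NAz j * (NAZ j * PP (n + 1 - j)))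
            - (NAz i * (NAZ i * NAQ n i)) * (NAZ j * PP (n + 1 - j))) := by
    rw [← Finset.sum_add_distrib]
    apply Finset.sum_congr rfl
    intro i _
    rw [← Finset.sum_add_distrib]
    apply Finset.sum_congr rfl
    intro j _
    unfold NAT
    ring
  rw [e1]
  have e2 : ∀ a b c d : ℕ → ℝ, ∑ i ∈ range (n + 2), ∑ j ∈ range (n + 2), (a i * b j - c i * d j)
      = (∑ i ∈ range (n + 2), a i) * (∑ j ∈ range (n + 2), b j)
        - (∑ i ∈ range (n + 2), c i) * (∑ j ∈ range (n + 2), d j) := by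
    intro a b c d
    rw [Finset.sum_mul_sum, Finset.sum_mul_sum, ← Finset.sum_sub_distrib]
    apply Finset.sum_congr rfl
    intro i _
    rw [← Finset.sum_sub_distrib]
  rw [e2 (fun i => NAz i * (NAZ i * PP (n + 1 - i))) (fun j => NAZ j * NAQ n j)
    (fun i => NAZ i * PP (n + 1 - i)) (fun j => NAz j * (NAZ j * NAQ n j)),
    e2 (fun i => NAZ i * NAQ n i) (fun j => NAz j * (NAZ j * PP (n + 1 - j)))
    (fun i => NAz i * (NAZ i * NAQ n i)) (fun j => NAZ j * PP (n + 1 - j))]
  ring

theorem NA_brack (n i j : ℕ) (hj : j ≤ n) (hij : i ≤ j) :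
    (NAZ i * PP (n + 1 - i)) * (NAZ j * NAQ n j) - (NAZ j * PP (n + 1 - j)) * (NAZ i * NAQ n i)
      = (NAZ i * NAZ j * PP (n - i) * PP (n - j)) * (pp (n - i) - pp (n - j)) := by
  unfold NAQ
  rw [if_pos hj, if_pos (by omega), show n + 1 - i = (n - i) + 1 by omega,
    show n + 1 - j = (n - j) + 1 by omega, PP_succ, PP_succ]
  ring

theorem NA_lt (n : ℕ) (h : ∀ a b, a ≤ b → b ≤ n → pp b ≤ pp a) (i j : ℕ) (hij : i ≤ j) (hj : j ≤ n + 1) :
    NAT n i j ≤ 0 := by
  have hz := NAz_anti i j hij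
  unfold NAT
  apply mul_nonpos_of_nonneg_of_nonpos (by linarith)
  rcases Nat.lt_or_ge n j with h1 | h1
  · have : NAQ n j = 0 := by unfold NAQ; rw [if_neg (by omega)]
    rw [this, mul_zero, mul_zero, zero_sub]
    have h2 : 0 ≤ NAQ n i := by
      unfold NAQ
      split_ifs
      · exact (PP_pos _).le
      · exact le_rfl
    have := NAZ_pos i
    have := NAZ_pos j
    have := PP_pos (n + 1 - j)
    have : 0 ≤ NAZ j * PP (n + 1 - j) * (NAZ i * NAQ n i) := by positivity
    linarith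
  · rw [NA_brack n i j h1 hij]
    have := NAZ_pos i
    have := NAZ_pos j
    have := PP_pos (n - i)
    have := PP_pos (n - j)
    apply mul_nonpos_of_nonneg_of_nonpos (by positivity)
    have := h (n - j) (n - i) (by omega) (by omega)
    linarith

theorem NAT_symm (n i j : ℕ) : NAT n i j = NAT n j i := by
  unfold NAT
  ring

theorem NA_all (n : ℕ) (h : ∀ a b, a ≤ b → b ≤ n → pp b ≤ pp a) (i j : ℕ) (hi : i ≤ n + 1) (hj : j ≤ n + 1) :
    NAT n i j ≤ 0 := by
  rcases le_total i j with h1 | h1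
  · exact NA_lt n h i j h1 hj
  · rw [NAT_symm]
    exact NA_lt n h j i h1 hi

theorem NA_step (n : ℕ) (h : ∀ a b, a ≤ b → b ≤ n → pp b ≤ pp a) : pp (n + 1) ≤ pp n := by
  have hD := NA_D n
  have hneg : ∑ i ∈ range (n + 2), ∑ j ∈ range (n + 2), NAT n i j ≤ 0 := by
    apply Finset.sum_nonpos
    intro i hi
    apply Finset.sum_nonpos
    intro j hj
    have := mem_range.1 hi
    have := mem_range.1 hj
    exact NA_all n h i j (by omega) (by omega)
  rw [← hD] at hneg
  have p0 := PP_pos n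
  have p1 := PP_pos (n + 1)
  unfold pp
  rw [div_le_div_iff₀ p1 p0]
  have hc : (0 : ℝ) < ((n : ℝ) + 2) * ((n : ℝ) + 1) := by positivity
  by_contra hcon
  push Not at hcon
  rw [show n + 1 + 1 = n + 2 from rfl] at hcon
  have := mul_pos hc (sub_pos.2 hcon)
  nlinarith

theorem pp_anti : Antitone pp := by
  have key : ∀ n, ∀ a b, a ≤ b → b ≤ n → pp b ≤ pp a := by
    intro n
    induction n with
    | zero =>
      intro a b h1 h2
      have : a = b := by omega
      rw [this]
    | succ n ih =>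
      intro a b h1 h2
      rcases Nat.lt_or_ge b (n + 1) with h3 | h3
      · exact ih a b h1 (by omega)
      · have hb : b = n + 1 := by omega
        rcases Nat.lt_or_ge a (n + 1) with h4 | h4
        · rw [hb]
          exact (NA_step n ih).trans (ih a n (by omega) le_rfl)
        · have : a = b := by omega
          rw [this]
  intro a b h
  exact key b a b h le_rfl

theorem NA_bell3 : Nat.bell 3 = 5 := by
  rw [Nat.bell_succ]
  have : Finset.Iic 2 = {0, 1, 2} := Finset.eq_of_veq rfl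
  simp [this]

theorem NA_bell4 : Nat.bell 4 = 15 := by
  rw [Nat.bell_succ]
  have : Finset.Iic 3 = {0, 1, 2, 3} := Finset.eq_of_veq rfl
  simp [this, NA_bell3, Nat.choose]

theorem pp_strict (n : ℕ) (hn : 1 ≤ n) : pp (n + 1) < pp n := by
  induction n using Nat.strong_induction_on with
  | _ n ih =>
    rcases Nat.lt_or_ge n 3 with h3 | h3
    · have : n = 1 ∨ n = 2 := by omega
      rcases this with h | h
      · subst h
        unfold pp PP
        rw [NA_bell3, Nat.bell_two, Nat.bell_one]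
        norm_num [Nat.factorial]
      · subst h
        unfold pp PP
        rw [NA_bell4, NA_bell3, Nat.bell_two]
        norm_num [Nat.factorial]
    · have hall : ∀ a b, a ≤ b → b ≤ n → pp b ≤ pp a := fun a b h1 _ => pp_anti h1
      have hD := NA_D n
      have hneg : ∑ i ∈ range (n + 2), ∑ j ∈ range (n + 2), NAT n i j < 0 := by
        have h12 : NAT n 1 2 < 0 := by
          unfold NAT
          rw [NA_brack n 1 2 (by omega) (by omega)]
          have hz : 0 < NAz 1 - NAz 2 := by unfold NAz; norm_num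
          have := NAZ_pos 1
          have := NAZ_pos 2
          have := PP_pos (n - 1)
          have := PP_pos (n - 2)
          apply mul_neg_of_pos_of_neg hz
          apply mul_neg_of_pos_of_neg (by positivity)
          have := ih (n - 2) (by omega) (by omega)
          rw [show n - 2 + 1 = n - 1 by omega] at this
          linarith
        have hinner : ∀ i ∈ range (n + 2), ∑ j ∈ range (n + 2), NAT n i j ≤ 0 := by
          intro i hi
          apply Finset.sum_nonpos
          intro j hj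
          have := mem_range.1 hi
          have := mem_range.1 hj
          exact NA_all n hall i j (by omega) (by omega)
        have h1 : ∑ j ∈ range (n + 2), NAT n 1 j < 0 := by
          apply Finset.sum_neg' _ ⟨2, by simp; omega, h12⟩
          intro j hj
          have := mem_range.1 hj
          exact NA_all n hall 1 j (by omega) (by omega)
        exact Finset.sum_neg' hinner ⟨1, by simp, h1⟩
      rw [← hD] at hneg
      have p0 := PP_pos n
      have p1 := PP_pos (n + 1)
      unfold pp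
      rw [div_lt_div_iff₀ p1 p0]
      have hc : (0 : ℝ) < ((n : ℝ) + 2) * ((n : ℝ) + 1) := by positivity
      by_contra hcon
      push Not at hcon
      rw [show n + 1 + 1 = n + 2 from rfl] at hcon
      have := mul_nonneg hc.le (sub_nonneg.2 hcon)
      nlinarith

theorem qq_mono (n : ℕ) : ((n : ℝ) + 1) * pp n ≤ ((n : ℝ) + 2) * pp (n + 1) := by
  have p0 := PP_pos n
  have p1 := PP_pos (n + 1)
  have h1 := PP_rec n
  have h2 := PP_rec (n + 1)
  push_cast at h2
  rw [show n + 1 + 1 = n + 2 from rfl] at h2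
  have h3 : ∑ j ∈ range (n + 1), PP (n - j) / (j.factorial : ℝ) * PP (n + 1)
      ≤ ∑ j ∈ range (n + 2), PP (n + 1 - j) / (j.factorial : ℝ) * PP n := by
    rw [Finset.sum_range_succ _ (n + 1)]
    have h4 : ∑ j ∈ range (n + 1), PP (n - j) / (j.factorial : ℝ) * PP (n + 1)
      ≤ ∑ j ∈ range (n + 1), PP (n + 1 - j) / (j.factorial : ℝ) * PP n := by
      apply Finset.sum_le_sum
      intro j hj
      have hj' := mem_range.1 hj
      rw [div_mul_eq_mul_div, div_mul_eq_mul_div]
      apply div_le_div_of_nonneg_right _ (by positivity)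
      rw [PP_succ, show n + 1 - j = (n - j) + 1 by omega, PP_succ]
      have := pp_anti (show n - j ≤ n by omega)
      have := PP_pos (n - j)
      have : 0 ≤ PP (n - j) * PP n * (pp (n - j) - pp n) := by
        apply mul_nonneg (by positivity)
        linarith
      nlinarith
    have h5 : 0 ≤ PP (n + 1 - (n + 1)) / ((n + 1).factorial : ℝ) * PP n := by
      have := PP_pos (n + 1 - (n + 1))
      positivity
    linarith
  rw [← Finset.sum_mul, ← Finset.sum_mul, ← h1, ← h2] at h3
  unfold pp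
  rw [← mul_div_assoc, ← mul_div_assoc, div_le_div_iff₀ p0 p1]
  rw [show n + 1 + 1 = n + 2 from rfl]
  nlinarith

end Pool.H68.AC
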