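import Pool.Agent.H68.AC.Defs

/-!
# Module NB : numerical values

`Nat.bell 0..19` = 1, 1, 2, 5, 15, 52, 203, 877, 4140, 21147, 115975, 678570, 4213597, 27644437, 190899322,
1382958545, 10480142147, 82864869804, 682076806159, 5832742205057.
Prove them one after the other with `Nat.bell_succ` (first convert the sum over `Finset.Iic n` to `range (n+1)`),
then everything below is `norm_num` with `PP`, `pp`, `yy`, `ee`, `sl` unfolded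
(`pp n = bell (n+1) / ((n+1) * bell n)` is a convenient intermediate form).
Values: pp = 1, 1, 5/6, 3/4, 52/75, 203/312, ...; sl 1 = 1.25, sl 2 = 1.26, sl 3 = 1.2157, sl 4 = 1.1607, sl 5 = 1.1167,
sl 6 = 1.0808, sl 7 = 1.0495, sl 8 = 1.0219, sl 9 = 0.9973, sl 10 = 0.9754, sl 11 = 0.9555, sl 12 = 0.9375,
sl 13 = 0.9211, sl 14 = 0.906, sl 15 = 0.892.  pp 13 = 0.4933, 16 * pp 15 = 7.578.
-/

namespace Pool.H68.AC

open Finset

theorem nb_rec (n : ℕ) : Nat.bell (n + 1) = ∑ k ∈ range (n + 1), n.choose k * Nat.bell (n - k) := by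
  rw [Nat.bell_succ, ← Nat.range_succ_eq_Iic]

theorem nbc_2_1 : Nat.choose 2 1 = 2 :=
  (Nat.choose_succ_succ' 1 0).trans (congrArg₂ (· + ·) (Nat.choose_zero_right 1) (Nat.choose_self 1))
theorem nbc_3_1 : Nat.choose 3 1 = 3 :=
  (Nat.choose_succ_succ' 2 0).trans (congrArg₂ (· + ·) (Nat.choose_zero_right 2) nbc_2_1)
theorem nbc_3_2 : Nat.choose 3 2 = 3 :=
  (Nat.choose_succ_succ' 2 1).trans (congrArg₂ (· + ·) nbc_2_1 (Nat.choose_self 2))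
theorem nbc_4_1 : Nat.choose 4 1 = 4 :=
  (Nat.choose_succ_succ' 3 0).trans (congrArg₂ (· + ·) (Nat.choose_zero_right 3) nbc_3_1)
theorem nbc_4_2 : Nat.choose 4 2 = 6 :=
  (Nat.choose_succ_succ' 3 1).trans (congrArg₂ (· + ·) nbc_3_1 nbc_3_2)
theorem nbc_4_3 : Nat.choose 4 3 = 4 :=
  (Nat.choose_succ_succ' 3 2).trans (congrArg₂ (· + ·) nbc_3_2 (Nat.choose_self 3))
theorem nbc_5_1 : Nat.choose 5 1 = 5 :=
  (Nat.choose_succ_succ' 4 0).trans (congrArg₂ (· + ·) (Nat.choose_zero_right 4) nbc_4_1)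
theorem nbc_5_2 : Nat.choose 5 2 = 10 :=
  (Nat.choose_succ_succ' 4 1).trans (congrArg₂ (· + ·) nbc_4_1 nbc_4_2)
theorem nbc_5_3 : Nat.choose 5 3 = 10 :=
  (Nat.choose_succ_succ' 4 2).trans (congrArg₂ (· + ·) nbc_4_2 nbc_4_3)
theorem nbc_5_4 : Nat.choose 5 4 = 5 :=
  (Nat.choose_succ_succ' 4 3).trans (congrArg₂ (· + ·) nbc_4_3 (Nat.choose_self 4))
theorem nbc_6_1 : Nat.choose 6 1 = 6 :=
  (Nat.choose_succ_succ' 5 0).trans (congrArg₂ (· + ·) (Nat.choose_zero_right 5) nbc_5_1)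
theorem nbc_6_2 : Nat.choose 6 2 = 15 :=
  (Nat.choose_succ_succ' 5 1).trans (congrArg₂ (· + ·) nbc_5_1 nbc_5_2)
theorem nbc_6_3 : Nat.choose 6 3 = 20 :=
  (Nat.choose_succ_succ' 5 2).trans (congrArg₂ (· + ·) nbc_5_2 nbc_5_3)
theorem nbc_6_4 : Nat.choose 6 4 = 15 :=
  (Nat.choose_succ_succ' 5 3).trans (congrArg₂ (· + ·) nbc_5_3 nbc_5_4)
theorem nbc_6_5 : Nat.choose 6 5 = 6 :=
  (Nat.choose_succ_succ' 5 4).trans (congrArg₂ (· + ·) nbc_5_4 (Nat.choose_self 5))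
theorem nbc_7_1 : Nat.choose 7 1 = 7 :=
  (Nat.choose_succ_succ' 6 0).trans (congrArg₂ (· + ·) (Nat.choose_zero_right 6) nbc_6_1)
theorem nbc_7_2 : Nat.choose 7 2 = 21 :=
  (Nat.choose_succ_succ' 6 1).trans (congrArg₂ (· + ·) nbc_6_1 nbc_6_2)
theorem nbc_7_3 : Nat.choose 7 3 = 35 :=
  (Nat.choose_succ_succ' 6 2).trans (congrArg₂ (· + ·) nbc_6_2 nbc_6_3)
theorem nbc_7_4 : Nat.choose 7 4 = 35 :=
  (Nat.choose_succ_succ' 6 3).trans (congrArg₂ (· + ·) nbc_6_3 nbc_6_4)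
theorem nbc_7_5 : Nat.choose 7 5 = 21 :=
  (Nat.choose_succ_succ' 6 4).trans (congrArg₂ (· + ·) nbc_6_4 nbc_6_5)
theorem nbc_7_6 : Nat.choose 7 6 = 7 :=
  (Nat.choose_succ_succ' 6 5).trans (congrArg₂ (· + ·) nbc_6_5 (Nat.choose_self 6))
theorem nbc_8_1 : Nat.choose 8 1 = 8 :=
  (Nat.choose_succ_succ' 7 0).trans (congrArg₂ (· + ·) (Nat.choose_zero_right 7) nbc_7_1)
theorem nbc_8_2 : Nat.choose 8 2 = 28 :=
  (Nat.choose_succ_succ' 7 1).trans (congrArg₂ (· + ·) nbc_7_1 nbc_7_2)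
theorem nbc_8_3 : Nat.choose 8 3 = 56 :=
  (Nat.choose_succ_succ' 7 2).trans (congrArg₂ (· + ·) nbc_7_2 nbc_7_3)
theorem nbc_8_4 : Nat.choose 8 4 = 70 :=
  (Nat.choose_succ_succ' 7 3).trans (congrArg₂ (· + ·) nbc_7_3 nbc_7_4)
theorem nbc_8_5 : Nat.choose 8 5 = 56 :=
  (Nat.choose_succ_succ' 7 4).trans (congrArg₂ (· + ·) nbc_7_4 nbc_7_5)
theorem nbc_8_6 : Nat.choose 8 6 = 28 :=
  (Nat.choose_succ_succ' 7 5).trans (congrArg₂ (· + ·) nbc_7_5 nbc_7_6)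
theorem nbc_8_7 : Nat.choose 8 7 = 8 :=
  (Nat.choose_succ_succ' 7 6).trans (congrArg₂ (· + ·) nbc_7_6 (Nat.choose_self 7))
theorem nbc_9_1 : Nat.choose 9 1 = 9 :=
  (Nat.choose_succ_succ' 8 0).trans (congrArg₂ (· + ·) (Nat.choose_zero_right 8) nbc_8_1)
theorem nbc_9_2 : Nat.choose 9 2 = 36 :=
  (Nat.choose_succ_succ' 8 1).trans (congrArg₂ (· + ·) nbc_8_1 nbc_8_2)
theorem nbc_9_3 : Nat.choose 9 3 = 84 :=
  (Nat.choose_succ_succ' 8 2).trans (congrArg₂ (· + ·) nbc_8_2 nbc_8_3)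
theorem nbc_9_4 : Nat.choose 9 4 = 126 :=
  (Nat.choose_succ_succ' 8 3).trans (congrArg₂ (· + ·) nbc_8_3 nbc_8_4)
theorem nbc_9_5 : Nat.choose 9 5 = 126 :=
  (Nat.choose_succ_succ' 8 4).trans (congrArg₂ (· + ·) nbc_8_4 nbc_8_5)
theorem nbc_9_6 : Nat.choose 9 6 = 84 :=
  (Nat.choose_succ_succ' 8 5).trans (congrArg₂ (· + ·) nbc_8_5 nbc_8_6)
theorem nbc_9_7 : Nat.choose 9 7 = 36 :=
  (Nat.choose_succ_succ' 8 6).trans (congrArg₂ (· + ·) nbc_8_6 nbc_8_7)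
theorem nbc_9_8 : Nat.choose 9 8 = 9 :=
  (Nat.choose_succ_succ' 8 7).trans (congrArg₂ (· + ·) nbc_8_7 (Nat.choose_self 8))
theorem nbc_10_1 : Nat.choose 10 1 = 10 :=
  (Nat.choose_succ_succ' 9 0).trans (congrArg₂ (· + ·) (Nat.choose_zero_right 9) nbc_9_1)
theorem nbc_10_2 : Nat.choose 10 2 = 45 :=
  (Nat.choose_succ_succ' 9 1).trans (congrArg₂ (· + ·) nbc_9_1 nbc_9_2)
theorem nbc_10_3 : Nat.choose 10 3 = 120 :=
  (Nat.choose_succ_succ' 9 2).trans (congrArg₂ (· + ·) nbc_9_2 nbc_9_3)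
theorem nbc_10_4 : Nat.choose 10 4 = 210 :=
  (Nat.choose_succ_succ' 9 3).trans (congrArg₂ (· + ·) nbc_9_3 nbc_9_4)
theorem nbc_10_5 : Nat.choose 10 5 = 252 :=
  (Nat.choose_succ_succ' 9 4).trans (congrArg₂ (· + ·) nbc_9_4 nbc_9_5)
theorem nbc_10_6 : Nat.choose 10 6 = 210 :=
  (Nat.choose_succ_succ' 9 5).trans (congrArg₂ (· + ·) nbc_9_5 nbc_9_6)
theorem nbc_10_7 : Nat.choose 10 7 = 120 :=
  (Nat.choose_succ_succ' 9 6).trans (congrArg₂ (· + ·) nbc_9_6 nbc_9_7)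
theorem nbc_10_8 : Nat.choose 10 8 = 45 :=
  (Nat.choose_succ_succ' 9 7).trans (congrArg₂ (· + ·) nbc_9_7 nbc_9_8)
theorem nbc_10_9 : Nat.choose 10 9 = 10 :=
  (Nat.choose_succ_succ' 9 8).trans (congrArg₂ (· + ·) nbc_9_8 (Nat.choose_self 9))
theorem nbc_11_1 : Nat.choose 11 1 = 11 :=
  (Nat.choose_succ_succ' 10 0).trans (congrArg₂ (· + ·) (Nat.choose_zero_right 10) nbc_10_1)
theorem nbc_11_2 : Nat.choose 11 2 = 55 :=
  (Nat.choose_succ_succ' 10 1).trans (congrArg₂ (· + ·) nbc_10_1 nbc_10_2)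
theorem nbc_11_3 : Nat.choose 11 3 = 165 :=
  (Nat.choose_succ_succ' 10 2).trans (congrArg₂ (· + ·) nbc_10_2 nbc_10_3)
theorem nbc_11_4 : Nat.choose 11 4 = 330 :=
  (Nat.choose_succ_succ' 10 3).trans (congrArg₂ (· + ·) nbc_10_3 nbc_10_4)
theorem nbc_11_5 : Nat.choose 11 5 = 462 :=
  (Nat.choose_succ_succ' 10 4).trans (congrArg₂ (· + ·) nbc_10_4 nbc_10_5)
theorem nbc_11_6 : Nat.choose 11 6 = 462 :=
  (Nat.choose_succ_succ' 10 5).trans (congrArg₂ (· + ·) nbc_10_5 nbc_10_6)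
theorem nbc_11_7 : Nat.choose 11 7 = 330 :=
  (Nat.choose_succ_succ' 10 6).trans (congrArg₂ (· + ·) nbc_10_6 nbc_10_7)
theorem nbc_11_8 : Nat.choose 11 8 = 165 :=
  (Nat.choose_succ_succ' 10 7).trans (congrArg₂ (· + ·) nbc_10_7 nbc_10_8)
theorem nbc_11_9 : Nat.choose 11 9 = 55 :=
  (Nat.choose_succ_succ' 10 8).trans (congrArg₂ (· + ·) nbc_10_8 nbc_10_9)
theorem nbc_11_10 : Nat.choose 11 10 = 11 :=
  (Nat.choose_succ_succ' 10 9).trans (congrArg₂ (· + ·) nbc_10_9 (Nat.choose_self 10))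
theorem nbc_12_1 : Nat.choose 12 1 = 12 :=
  (Nat.choose_succ_succ' 11 0).trans (congrArg₂ (· + ·) (Nat.choose_zero_right 11) nbc_11_1)
theorem nbc_12_2 : Nat.choose 12 2 = 66 :=
  (Nat.choose_succ_succ' 11 1).trans (congrArg₂ (· + ·) nbc_11_1 nbc_11_2)
theorem nbc_12_3 : Nat.choose 12 3 = 220 :=
  (Nat.choose_succ_succ' 11 2).trans (congrArg₂ (· + ·) nbc_11_2 nbc_11_3)
theorem nbc_12_4 : Nat.choose 12 4 = 495 :=
  (Nat.choose_succ_succ' 11 3).trans (congrArg₂ (· + ·) nbc_11_3 nbc_11_4)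
theorem nbc_12_5 : Nat.choose 12 5 = 792 :=
  (Nat.choose_succ_succ' 11 4).trans (congrArg₂ (· + ·) nbc_11_4 nbc_11_5)
theorem nbc_12_6 : Nat.choose 12 6 = 924 :=
  (Nat.choose_succ_succ' 11 5).trans (congrArg₂ (· + ·) nbc_11_5 nbc_11_6)
theorem nbc_12_7 : Nat.choose 12 7 = 792 :=
  (Nat.choose_succ_succ' 11 6).trans (congrArg₂ (· + ·) nbc_11_6 nbc_11_7)
theorem nbc_12_8 : Nat.choose 12 8 = 495 :=
  (Nat.choose_succ_succ' 11 7).trans (congrArg₂ (· + ·) nbc_11_7 nbc_11_8)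
theorem nbc_12_9 : Nat.choose 12 9 = 220 :=
  (Nat.choose_succ_succ' 11 8).trans (congrArg₂ (· + ·) nbc_11_8 nbc_11_9)
theorem nbc_12_10 : Nat.choose 12 10 = 66 :=
  (Nat.choose_succ_succ' 11 9).trans (congrArg₂ (· + ·) nbc_11_9 nbc_11_10)
theorem nbc_12_11 : Nat.choose 12 11 = 12 :=
  (Nat.choose_succ_succ' 11 10).trans (congrArg₂ (· + ·) nbc_11_10 (Nat.choose_self 11))
theorem nbc_13_1 : Nat.choose 13 1 = 13 :=
  (Nat.choose_succ_succ' 12 0).trans (congrArg₂ (· + ·) (Nat.choose_zero_right 12) nbc_12_1)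
theorem nbc_13_2 : Nat.choose 13 2 = 78 :=
  (Nat.choose_succ_succ' 12 1).trans (congrArg₂ (· + ·) nbc_12_1 nbc_12_2)
theorem nbc_13_3 : Nat.choose 13 3 = 286 :=
  (Nat.choose_succ_succ' 12 2).trans (congrArg₂ (· + ·) nbc_12_2 nbc_12_3)
theorem nbc_13_4 : Nat.choose 13 4 = 715 :=
  (Nat.choose_succ_succ' 12 3).trans (congrArg₂ (· + ·) nbc_12_3 nbc_12_4)
theorem nbc_13_5 : Nat.choose 13 5 = 1287 :=
  (Nat.choose_succ_succ' 12 4).trans (congrArg₂ (· + ·) nbc_12_4 nbc_12_5)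
theorem nbc_13_6 : Nat.choose 13 6 = 1716 :=
  (Nat.choose_succ_succ' 12 5).trans (congrArg₂ (· + ·) nbc_12_5 nbc_12_6)
theorem nbc_13_7 : Nat.choose 13 7 = 1716 :=
  (Nat.choose_succ_succ' 12 6).trans (congrArg₂ (· + ·) nbc_12_6 nbc_12_7)
theorem nbc_13_8 : Nat.choose 13 8 = 1287 :=
  (Nat.choose_succ_succ' 12 7).trans (congrArg₂ (· + ·) nbc_12_7 nbc_12_8)
theorem nbc_13_9 : Nat.choose 13 9 = 715 :=
  (Nat.choose_succ_succ' 12 8).trans (congrArg₂ (· + ·) nbc_12_8 nbc_12_9)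
theorem nbc_13_10 : Nat.choose 13 10 = 286 :=
  (Nat.choose_succ_succ' 12 9).trans (congrArg₂ (· + ·) nbc_12_9 nbc_12_10)
theorem nbc_13_11 : Nat.choose 13 11 = 78 :=
  (Nat.choose_succ_succ' 12 10).trans (congrArg₂ (· + ·) nbc_12_10 nbc_12_11)
theorem nbc_13_12 : Nat.choose 13 12 = 13 :=
  (Nat.choose_succ_succ' 12 11).trans (congrArg₂ (· + ·) nbc_12_11 (Nat.choose_self 12))
theorem nbc_14_1 : Nat.choose 14 1 = 14 :=
  (Nat.choose_succ_succ' 13 0).trans (congrArg₂ (· + ·) (Nat.choose_zero_right 13) nbc_13_1)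
theorem nbc_14_2 : Nat.choose 14 2 = 91 :=
  (Nat.choose_succ_succ' 13 1).trans (congrArg₂ (· + ·) nbc_13_1 nbc_13_2)
theorem nbc_14_3 : Nat.choose 14 3 = 364 :=
  (Nat.choose_succ_succ' 13 2).trans (congrArg₂ (· + ·) nbc_13_2 nbc_13_3)
theorem nbc_14_4 : Nat.choose 14 4 = 1001 :=
  (Nat.choose_succ_succ' 13 3).trans (congrArg₂ (· + ·) nbc_13_3 nbc_13_4)
theorem nbc_14_5 : Nat.choose 14 5 = 2002 :=
  (Nat.choose_succ_succ' 13 4).trans (congrArg₂ (· + ·) nbc_13_4 nbc_13_5)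
theorem nbc_14_6 : Nat.choose 14 6 = 3003 :=
  (Nat.choose_succ_succ' 13 5).trans (congrArg₂ (· + ·) nbc_13_5 nbc_13_6)
theorem nbc_14_7 : Nat.choose 14 7 = 3432 :=
  (Nat.choose_succ_succ' 13 6).trans (congrArg₂ (· + ·) nbc_13_6 nbc_13_7)
theorem nbc_14_8 : Nat.choose 14 8 = 3003 :=
  (Nat.choose_succ_succ' 13 7).trans (congrArg₂ (· + ·) nbc_13_7 nbc_13_8)
theorem nbc_14_9 : Nat.choose 14 9 = 2002 :=
  (Nat.choose_succ_succ' 13 8).trans (congrArg₂ (· + ·) nbc_13_8 nbc_13_9)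
theorem nbc_14_10 : Nat.choose 14 10 = 1001 :=
  (Nat.choose_succ_succ' 13 9).trans (congrArg₂ (· + ·) nbc_13_9 nbc_13_10)
theorem nbc_14_11 : Nat.choose 14 11 = 364 :=
  (Nat.choose_succ_succ' 13 10).trans (congrArg₂ (· + ·) nbc_13_10 nbc_13_11)
theorem nbc_14_12 : Nat.choose 14 12 = 91 :=
  (Nat.choose_succ_succ' 13 11).trans (congrArg₂ (· + ·) nbc_13_11 nbc_13_12)
theorem nbc_14_13 : Nat.choose 14 13 = 14 :=
  (Nat.choose_succ_succ' 13 12).trans (congrArg₂ (· + ·) nbc_13_12 (Nat.choose_self 13))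
theorem nbc_15_1 : Nat.choose 15 1 = 15 :=
  (Nat.choose_succ_succ' 14 0).trans (congrArg₂ (· + ·) (Nat.choose_zero_right 14) nbc_14_1)
theorem nbc_15_2 : Nat.choose 15 2 = 105 :=
  (Nat.choose_succ_succ' 14 1).trans (congrArg₂ (· + ·) nbc_14_1 nbc_14_2)
theorem nbc_15_3 : Nat.choose 15 3 = 455 :=
  (Nat.choose_succ_succ' 14 2).trans (congrArg₂ (· + ·) nbc_14_2 nbc_14_3)
theorem nbc_15_4 : Nat.choose 15 4 = 1365 :=
  (Nat.choose_succ_succ' 14 3).trans (congrArg₂ (· + ·) nbc_14_3 nbc_14_4)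
theorem nbc_15_5 : Nat.choose 15 5 = 3003 :=
  (Nat.choose_succ_succ' 14 4).trans (congrArg₂ (· + ·) nbc_14_4 nbc_14_5)
theorem nbc_15_6 : Nat.choose 15 6 = 5005 :=
  (Nat.choose_succ_succ' 14 5).trans (congrArg₂ (· + ·) nbc_14_5 nbc_14_6)
theorem nbc_15_7 : Nat.choose 15 7 = 6435 :=
  (Nat.choose_succ_succ' 14 6).trans (congrArg₂ (· + ·) nbc_14_6 nbc_14_7)
theorem nbc_15_8 : Nat.choose 15 8 = 6435 :=
  (Nat.choose_succ_succ' 14 7).trans (congrArg₂ (· + ·) nbc_14_7 nbc_14_8)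
theorem nbc_15_9 : Nat.choose 15 9 = 5005 :=
  (Nat.choose_succ_succ' 14 8).trans (congrArg₂ (· + ·) nbc_14_8 nbc_14_9)
theorem nbc_15_10 : Nat.choose 15 10 = 3003 :=
  (Nat.choose_succ_succ' 14 9).trans (congrArg₂ (· + ·) nbc_14_9 nbc_14_10)
theorem nbc_15_11 : Nat.choose 15 11 = 1365 :=
  (Nat.choose_succ_succ' 14 10).trans (congrArg₂ (· + ·) nbc_14_10 nbc_14_11)
theorem nbc_15_12 : Nat.choose 15 12 = 455 :=
  (Nat.choose_succ_succ' 14 11).trans (congrArg₂ (· + ·) nbc_14_11 nbc_14_12)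
theorem nbc_15_13 : Nat.choose 15 13 = 105 :=
  (Nat.choose_succ_succ' 14 12).trans (congrArg₂ (· + ·) nbc_14_12 nbc_14_13)
theorem nbc_15_14 : Nat.choose 15 14 = 15 :=
  (Nat.choose_succ_succ' 14 13).trans (congrArg₂ (· + ·) nbc_14_13 (Nat.choose_self 14))
theorem nbc_16_1 : Nat.choose 16 1 = 16 :=
  (Nat.choose_succ_succ' 15 0).trans (congrArg₂ (· + ·) (Nat.choose_zero_right 15) nbc_15_1)
theorem nbc_16_2 : Nat.choose 16 2 = 120 :=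
  (Nat.choose_succ_succ' 15 1).trans (congrArg₂ (· + ·) nbc_15_1 nbc_15_2)
theorem nbc_16_3 : Nat.choose 16 3 = 560 :=
  (Nat.choose_succ_succ' 15 2).trans (congrArg₂ (· + ·) nbc_15_2 nbc_15_3)
theorem nbc_16_4 : Nat.choose 16 4 = 1820 :=
  (Nat.choose_succ_succ' 15 3).trans (congrArg₂ (· + ·) nbc_15_3 nbc_15_4)
theorem nbc_16_5 : Nat.choose 16 5 = 4368 :=
  (Nat.choose_succ_succ' 15 4).trans (congrArg₂ (· + ·) nbc_15_4 nbc_15_5)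
theorem nbc_16_6 : Nat.choose 16 6 = 8008 :=
  (Nat.choose_succ_succ' 15 5).trans (congrArg₂ (· + ·) nbc_15_5 nbc_15_6)
theorem nbc_16_7 : Nat.choose 16 7 = 11440 :=
  (Nat.choose_succ_succ' 15 6).trans (congrArg₂ (· + ·) nbc_15_6 nbc_15_7)
theorem nbc_16_8 : Nat.choose 16 8 = 12870 :=
  (Nat.choose_succ_succ' 15 7).trans (congrArg₂ (· + ·) nbc_15_7 nbc_15_8)
theorem nbc_16_9 : Nat.choose 16 9 = 11440 :=
  (Nat.choose_succ_succ' 15 8).trans (congrArg₂ (· + ·) nbc_15_8 nbc_15_9)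
theorem nbc_16_10 : Nat.choose 16 10 = 8008 :=
  (Nat.choose_succ_succ' 15 9).trans (congrArg₂ (· + ·) nbc_15_9 nbc_15_10)
theorem nbc_16_11 : Nat.choose 16 11 = 4368 :=
  (Nat.choose_succ_succ' 15 10).trans (congrArg₂ (· + ·) nbc_15_10 nbc_15_11)
theorem nbc_16_12 : Nat.choose 16 12 = 1820 :=
  (Nat.choose_succ_succ' 15 11).trans (congrArg₂ (· + ·) nbc_15_11 nbc_15_12)
theorem nbc_16_13 : Nat.choose 16 13 = 560 :=
  (Nat.choose_succ_succ' 15 12).trans (congrArg₂ (· + ·) nbc_15_12 nbc_15_13)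
theorem nbc_16_14 : Nat.choose 16 14 = 120 :=
  (Nat.choose_succ_succ' 15 13).trans (congrArg₂ (· + ·) nbc_15_13 nbc_15_14)
theorem nbc_16_15 : Nat.choose 16 15 = 16 :=
  (Nat.choose_succ_succ' 15 14).trans (congrArg₂ (· + ·) nbc_15_14 (Nat.choose_self 15))
theorem nbc_17_1 : Nat.choose 17 1 = 17 :=
  (Nat.choose_succ_succ' 16 0).trans (congrArg₂ (· + ·) (Nat.choose_zero_right 16) nbc_16_1)
theorem nbc_17_2 : Nat.choose 17 2 = 136 :=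
  (Nat.choose_succ_succ' 16 1).trans (congrArg₂ (· + ·) nbc_16_1 nbc_16_2)
theorem nbc_17_3 : Nat.choose 17 3 = 680 :=
  (Nat.choose_succ_succ' 16 2).trans (congrArg₂ (· + ·) nbc_16_2 nbc_16_3)
theorem nbc_17_4 : Nat.choose 17 4 = 2380 :=
  (Nat.choose_succ_succ' 16 3).trans (congrArg₂ (· + ·) nbc_16_3 nbc_16_4)
theorem nbc_17_5 : Nat.choose 17 5 = 6188 :=
  (Nat.choose_succ_succ' 16 4).trans (congrArg₂ (· + ·) nbc_16_4 nbc_16_5)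
theorem nbc_17_6 : Nat.choose 17 6 = 12376 :=
  (Nat.choose_succ_succ' 16 5).trans (congrArg₂ (· + ·) nbc_16_5 nbc_16_6)
theorem nbc_17_7 : Nat.choose 17 7 = 19448 :=
  (Nat.choose_succ_succ' 16 6).trans (congrArg₂ (· + ·) nbc_16_6 nbc_16_7)
theorem nbc_17_8 : Nat.choose 17 8 = 24310 :=
  (Nat.choose_succ_succ' 16 7).trans (congrArg₂ (· + ·) nbc_16_7 nbc_16_8)
theorem nbc_17_9 : Nat.choose 17 9 = 24310 :=
  (Nat.choose_succ_succ' 16 8).trans (congrArg₂ (· + ·) nbc_16_8 nbc_16_9)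
theorem nbc_17_10 : Nat.choose 17 10 = 19448 :=
  (Nat.choose_succ_succ' 16 9).trans (congrArg₂ (· + ·) nbc_16_9 nbc_16_10)
theorem nbc_17_11 : Nat.choose 17 11 = 12376 :=
  (Nat.choose_succ_succ' 16 10).trans (congrArg₂ (· + ·) nbc_16_10 nbc_16_11)
theorem nbc_17_12 : Nat.choose 17 12 = 6188 :=
  (Nat.choose_succ_succ' 16 11).trans (congrArg₂ (· + ·) nbc_16_11 nbc_16_12)
theorem nbc_17_13 : Nat.choose 17 13 = 2380 :=
  (Nat.choose_succ_succ' 16 12).trans (congrArg₂ (· + ·) nbc_16_12 nbc_16_13)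
theorem nbc_17_14 : Nat.choose 17 14 = 680 :=
  (Nat.choose_succ_succ' 16 13).trans (congrArg₂ (· + ·) nbc_16_13 nbc_16_14)
theorem nbc_17_15 : Nat.choose 17 15 = 136 :=
  (Nat.choose_succ_succ' 16 14).trans (congrArg₂ (· + ·) nbc_16_14 nbc_16_15)
theorem nbc_17_16 : Nat.choose 17 16 = 17 :=
  (Nat.choose_succ_succ' 16 15).trans (congrArg₂ (· + ·) nbc_16_15 (Nat.choose_self 16))
theorem nbc_18_1 : Nat.choose 18 1 = 18 :=
  (Nat.choose_succ_succ' 17 0).trans (congrArg₂ (· + ·) (Nat.choose_zero_right 17) nbc_17_1)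
theorem nbc_18_2 : Nat.choose 18 2 = 153 :=
  (Nat.choose_succ_succ' 17 1).trans (congrArg₂ (· + ·) nbc_17_1 nbc_17_2)
theorem nbc_18_3 : Nat.choose 18 3 = 816 :=
  (Nat.choose_succ_succ' 17 2).trans (congrArg₂ (· + ·) nbc_17_2 nbc_17_3)
theorem nbc_18_4 : Nat.choose 18 4 = 3060 :=
  (Nat.choose_succ_succ' 17 3).trans (congrArg₂ (· + ·) nbc_17_3 nbc_17_4)
theorem nbc_18_5 : Nat.choose 18 5 = 8568 :=
  (Nat.choose_succ_succ' 17 4).trans (congrArg₂ (· + ·) nbc_17_4 nbc_17_5)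
theorem nbc_18_6 : Nat.choose 18 6 = 18564 :=
  (Nat.choose_succ_succ' 17 5).trans (congrArg₂ (· + ·) nbc_17_5 nbc_17_6)
theorem nbc_18_7 : Nat.choose 18 7 = 31824 :=
  (Nat.choose_succ_succ' 17 6).trans (congrArg₂ (· + ·) nbc_17_6 nbc_17_7)
theorem nbc_18_8 : Nat.choose 18 8 = 43758 :=
  (Nat.choose_succ_succ' 17 7).trans (congrArg₂ (· + ·) nbc_17_7 nbc_17_8)
theorem nbc_18_9 : Nat.choose 18 9 = 48620 :=
  (Nat.choose_succ_succ' 17 8).trans (congrArg₂ (· + ·) nbc_17_8 nbc_17_9)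
theorem nbc_18_10 : Nat.choose 18 10 = 43758 :=
  (Nat.choose_succ_succ' 17 9).trans (congrArg₂ (· + ·) nbc_17_9 nbc_17_10)
theorem nbc_18_11 : Nat.choose 18 11 = 31824 :=
  (Nat.choose_succ_succ' 17 10).trans (congrArg₂ (· + ·) nbc_17_10 nbc_17_11)
theorem nbc_18_12 : Nat.choose 18 12 = 18564 :=
  (Nat.choose_succ_succ' 17 11).trans (congrArg₂ (· + ·) nbc_17_11 nbc_17_12)
theorem nbc_18_13 : Nat.choose 18 13 = 8568 :=
  (Nat.choose_succ_succ' 17 12).trans (congrArg₂ (· + ·) nbc_17_12 nbc_17_13)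
theorem nbc_18_14 : Nat.choose 18 14 = 3060 :=
  (Nat.choose_succ_succ' 17 13).trans (congrArg₂ (· + ·) nbc_17_13 nbc_17_14)
theorem nbc_18_15 : Nat.choose 18 15 = 816 :=
  (Nat.choose_succ_succ' 17 14).trans (congrArg₂ (· + ·) nbc_17_14 nbc_17_15)
theorem nbc_18_16 : Nat.choose 18 16 = 153 :=
  (Nat.choose_succ_succ' 17 15).trans (congrArg₂ (· + ·) nbc_17_15 nbc_17_16)
theorem nbc_18_17 : Nat.choose 18 17 = 18 :=
  (Nat.choose_succ_succ' 17 16).trans (congrArg₂ (· + ·) nbc_17_16 (Nat.choose_self 17))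

theorem nb0 : Nat.bell 0 = 1 := Nat.bell_zero

theorem nb1 : Nat.bell 1 = 1 := Nat.bell_one

theorem nbg2 (b c : ℕ → ℕ) (b0 : b 0 = 1) (b1 : b 1 = 1)
    (c0 : c 0 = 1) (c1 : c 1 = 1) :
    ∑ k ∈ range (1 + 1), c k * b (1 - k) = 2 := by
  simp only [Finset.sum_range_succ, Finset.sum_range_zero, Nat.reduceSub, Nat.sub_zero, Nat.sub_self,
    b0, b1, c0, c1]

theorem nb2 : Nat.bell 2 = 2 :=
  (nb_rec 1).trans (nbg2 Nat.bell (Nat.choose 1) nb0 nb1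
    (Nat.choose_zero_right 1) (Nat.choose_self 1))

theorem nbg3 (b c : ℕ → ℕ) (b0 : b 0 = 1) (b1 : b 1 = 1) (b2 : b 2 = 2)
    (c0 : c 0 = 1) (c1 : c 1 = 2) (c2 : c 2 = 1) :
    ∑ k ∈ range (2 + 1), c k * b (2 - k) = 5 := by
  simp only [Finset.sum_range_succ, Finset.sum_range_zero, Nat.reduceSub, Nat.sub_zero, Nat.sub_self,
    b0, b1, b2, c0, c1, c2]

theorem nb3 : Nat.bell 3 = 5 :=
  (nb_rec 2).trans (nbg3 Nat.bell (Nat.choose 2) nb0 nb1 nb2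
    (Nat.choose_zero_right 2) nbc_2_1 (Nat.choose_self 2))

theorem nbg4 (b c : ℕ → ℕ) (b0 : b 0 = 1) (b1 : b 1 = 1) (b2 : b 2 = 2) (b3 : b 3 = 5)
    (c0 : c 0 = 1) (c1 : c 1 = 3) (c2 : c 2 = 3) (c3 : c 3 = 1) :
    ∑ k ∈ range (3 + 1), c k * b (3 - k) = 15 := by
  simp only [Finset.sum_range_succ, Finset.sum_range_zero, Nat.reduceSub, Nat.sub_zero, Nat.sub_self,
    b0, b1, b2, b3, c0, c1, c2, c3]

theorem nb4 : Nat.bell 4 = 15 :=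
  (nb_rec 3).trans (nbg4 Nat.bell (Nat.choose 3) nb0 nb1 nb2 nb3
    (Nat.choose_zero_right 3) nbc_3_1 nbc_3_2 (Nat.choose_self 3))

theorem nbg5 (b c : ℕ → ℕ) (b0 : b 0 = 1) (b1 : b 1 = 1) (b2 : b 2 = 2) (b3 : b 3 = 5) (b4 : b 4 = 15)
    (c0 : c 0 = 1) (c1 : c 1 = 4) (c2 : c 2 = 6) (c3 : c 3 = 4) (c4 : c 4 = 1) :
    ∑ k ∈ range (4 + 1), c k * b (4 - k) = 52 := by
  simp only [Finset.sum_range_succ, Finset.sum_range_zero, Nat.reduceSub, Nat.sub_zero, Nat.sub_self,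
    b0, b1, b2, b3, b4, c0, c1, c2, c3, c4]

theorem nb5 : Nat.bell 5 = 52 :=
  (nb_rec 4).trans (nbg5 Nat.bell (Nat.choose 4) nb0 nb1 nb2 nb3 nb4
    (Nat.choose_zero_right 4) nbc_4_1 nbc_4_2 nbc_4_3 (Nat.choose_self 4))

theorem nbg6 (b c : ℕ → ℕ) (b0 : b 0 = 1) (b1 : b 1 = 1) (b2 : b 2 = 2) (b3 : b 3 = 5) (b4 : b 4 = 15) (b5 : b 5 = 52)
    (c0 : c 0 = 1) (c1 : c 1 = 5) (c2 : c 2 = 10) (c3 : c 3 = 10) (c4 : c 4 = 5) (c5 : c 5 = 1) :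
    ∑ k ∈ range (5 + 1), c k * b (5 - k) = 203 := by
  simp only [Finset.sum_range_succ, Finset.sum_range_zero, Nat.reduceSub, Nat.sub_zero, Nat.sub_self,
    b0, b1, b2, b3, b4, b5, c0, c1, c2, c3, c4, c5]

theorem nb6 : Nat.bell 6 = 203 :=
  (nb_rec 5).trans (nbg6 Nat.bell (Nat.choose 5) nb0 nb1 nb2 nb3 nb4 nb5
    (Nat.choose_zero_right 5) nbc_5_1 nbc_5_2 nbc_5_3 nbc_5_4 (Nat.choose_self 5))

theorem nbg7 (b c : ℕ → ℕ) (b0 : b 0 = 1) (b1 : b 1 = 1) (b2 : b 2 = 2) (b3 : b 3 = 5) (b4 : b 4 = 15) (b5 : b 5 = 52) (b6 : b 6 = 203)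
    (c0 : c 0 = 1) (c1 : c 1 = 6) (c2 : c 2 = 15) (c3 : c 3 = 20) (c4 : c 4 = 15) (c5 : c 5 = 6) (c6 : c 6 = 1) :
    ∑ k ∈ range (6 + 1), c k * b (6 - k) = 877 := by
  simp only [Finset.sum_range_succ, Finset.sum_range_zero, Nat.reduceSub, Nat.sub_zero, Nat.sub_self,
    b0, b1, b2, b3, b4, b5, b6, c0, c1, c2, c3, c4, c5, c6]

theorem nb7 : Nat.bell 7 = 877 :=
  (nb_rec 6).trans (nbg7 Nat.bell (Nat.choose 6) nb0 nb1 nb2 nb3 nb4 nb5 nb6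
    (Nat.choose_zero_right 6) nbc_6_1 nbc_6_2 nbc_6_3 nbc_6_4 nbc_6_5 (Nat.choose_self 6))

theorem nbg8 (b c : ℕ → ℕ) (b0 : b 0 = 1) (b1 : b 1 = 1) (b2 : b 2 = 2) (b3 : b 3 = 5) (b4 : b 4 = 15) (b5 : b 5 = 52) (b6 : b 6 = 203) (b7 : b 7 = 877)
    (c0 : c 0 = 1) (c1 : c 1 = 7) (c2 : c 2 = 21) (c3 : c 3 = 35) (c4 : c 4 = 35) (c5 : c 5 = 21) (c6 : c 6 = 7) (c7 : c 7 = 1) :
    ∑ k ∈ range (7 + 1), c k * b (7 - k) = 4140 := by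
  simp only [Finset.sum_range_succ, Finset.sum_range_zero, Nat.reduceSub, Nat.sub_zero, Nat.sub_self,
    b0, b1, b2, b3, b4, b5, b6, b7, c0, c1, c2, c3, c4, c5, c6, c7]

theorem nb8 : Nat.bell 8 = 4140 :=
  (nb_rec 7).trans (nbg8 Nat.bell (Nat.choose 7) nb0 nb1 nb2 nb3 nb4 nb5 nb6 nb7
    (Nat.choose_zero_right 7) nbc_7_1 nbc_7_2 nbc_7_3 nbc_7_4 nbc_7_5 nbc_7_6 (Nat.choose_self 7))

theorem nbg9 (b c : ℕ → ℕ) (b0 : b 0 = 1) (b1 : b 1 = 1) (b2 : b 2 = 2) (b3 : b 3 = 5) (b4 : b 4 = 15) (b5 : b 5 = 52) (b6 : b 6 = 203) (b7 : b 7 = 877) (b8 : b 8 = 4140)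
    (c0 : c 0 = 1) (c1 : c 1 = 8) (c2 : c 2 = 28) (c3 : c 3 = 56) (c4 : c 4 = 70) (c5 : c 5 = 56) (c6 : c 6 = 28) (c7 : c 7 = 8) (c8 : c 8 = 1) :
    ∑ k ∈ range (8 + 1), c k * b (8 - k) = 21147 := by
  simp only [Finset.sum_range_succ, Finset.sum_range_zero, Nat.reduceSub, Nat.sub_zero, Nat.sub_self,
    b0, b1, b2, b3, b4, b5, b6, b7, b8, c0, c1, c2, c3, c4, c5, c6, c7, c8]

theorem nb9 : Nat.bell 9 = 21147 :=
  (nb_rec 8).trans (nbg9 Nat.bell (Nat.choose 8) nb0 nb1 nb2 nb3 nb4 nb5 nb6 nb7 nb8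
    (Nat.choose_zero_right 8) nbc_8_1 nbc_8_2 nbc_8_3 nbc_8_4 nbc_8_5 nbc_8_6 nbc_8_7 (Nat.choose_self 8))

theorem nbg10 (b c : ℕ → ℕ) (b0 : b 0 = 1) (b1 : b 1 = 1) (b2 : b 2 = 2) (b3 : b 3 = 5) (b4 : b 4 = 15) (b5 : b 5 = 52) (b6 : b 6 = 203) (b7 : b 7 = 877) (b8 : b 8 = 4140) (b9 : b 9 = 21147)
    (c0 : c 0 = 1) (c1 : c 1 = 9) (c2 : c 2 = 36) (c3 : c 3 = 84) (c4 : c 4 = 126) (c5 : c 5 = 126) (c6 : c 6 = 84) (c7 : c 7 = 36) (c8 : c 8 = 9) (c9 : c 9 = 1) :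
    ∑ k ∈ range (9 + 1), c k * b (9 - k) = 115975 := by
  simp only [Finset.sum_range_succ, Finset.sum_range_zero, Nat.reduceSub, Nat.sub_zero, Nat.sub_self,
    b0, b1, b2, b3, b4, b5, b6, b7, b8, b9, c0, c1, c2, c3, c4, c5, c6, c7, c8, c9]

theorem nb10 : Nat.bell 10 = 115975 :=
  (nb_rec 9).trans (nbg10 Nat.bell (Nat.choose 9) nb0 nb1 nb2 nb3 nb4 nb5 nb6 nb7 nb8 nb9
    (Nat.choose_zero_right 9) nbc_9_1 nbc_9_2 nbc_9_3 nbc_9_4 nbc_9_5 nbc_9_6 nbc_9_7 nbc_9_8 (Nat.choose_self 9))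

theorem nbg11 (b c : ℕ → ℕ) (b0 : b 0 = 1) (b1 : b 1 = 1) (b2 : b 2 = 2) (b3 : b 3 = 5) (b4 : b 4 = 15) (b5 : b 5 = 52) (b6 : b 6 = 203) (b7 : b 7 = 877) (b8 : b 8 = 4140) (b9 : b 9 = 21147) (b10 : b 10 = 115975)
    (c0 : c 0 = 1) (c1 : c 1 = 10) (c2 : c 2 = 45) (c3 : c 3 = 120) (c4 : c 4 = 210) (c5 : c 5 = 252) (c6 : c 6 = 210) (c7 : c 7 = 120) (c8 : c 8 = 45) (c9 : c 9 = 10) (c10 : c 10 = 1) :
    ∑ k ∈ range (10 + 1), c k * b (10 - k) = 678570 := by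
  simp only [Finset.sum_range_succ, Finset.sum_range_zero, Nat.reduceSub, Nat.sub_zero, Nat.sub_self,
    b0, b1, b2, b3, b4, b5, b6, b7, b8, b9, b10, c0, c1, c2, c3, c4, c5, c6, c7, c8, c9, c10]

theorem nb11 : Nat.bell 11 = 678570 :=
  (nb_rec 10).trans (nbg11 Nat.bell (Nat.choose 10) nb0 nb1 nb2 nb3 nb4 nb5 nb6 nb7 nb8 nb9 nb10
    (Nat.choose_zero_right 10) nbc_10_1 nbc_10_2 nbc_10_3 nbc_10_4 nbc_10_5 nbc_10_6 nbc_10_7 nbc_10_8 nbc_10_9 (Nat.choose_self 10))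

theorem nbg12 (b c : ℕ → ℕ) (b0 : b 0 = 1) (b1 : b 1 = 1) (b2 : b 2 = 2) (b3 : b 3 = 5) (b4 : b 4 = 15) (b5 : b 5 = 52) (b6 : b 6 = 203) (b7 : b 7 = 877) (b8 : b 8 = 4140) (b9 : b 9 = 21147) (b10 : b 10 = 115975) (b11 : b 11 = 678570)
    (c0 : c 0 = 1) (c1 : c 1 = 11) (c2 : c 2 = 55) (c3 : c 3 = 165) (c4 : c 4 = 330) (c5 : c 5 = 462) (c6 : c 6 = 462) (c7 : c 7 = 330) (c8 : c 8 = 165) (c9 : c 9 = 55) (c10 : c 10 = 11) (c11 : c 11 = 1) :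
    ∑ k ∈ range (11 + 1), c k * b (11 - k) = 4213597 := by
  simp only [Finset.sum_range_succ, Finset.sum_range_zero, Nat.reduceSub, Nat.sub_zero, Nat.sub_self,
    b0, b1, b2, b3, b4, b5, b6, b7, b8, b9, b10, b11, c0, c1, c2, c3, c4, c5, c6, c7, c8, c9, c10, c11]

theorem nb12 : Nat.bell 12 = 4213597 :=
  (nb_rec 11).trans (nbg12 Nat.bell (Nat.choose 11) nb0 nb1 nb2 nb3 nb4 nb5 nb6 nb7 nb8 nb9 nb10 nb11
    (Nat.choose_zero_right 11) nbc_11_1 nbc_11_2 nbc_11_3 nbc_11_4 nbc_11_5 nbc_11_6 nbc_11_7 nbc_11_8 nbc_11_9 nbc_11_10 (Nat.choose_self 11))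

theorem nbg13 (b c : ℕ → ℕ) (b0 : b 0 = 1) (b1 : b 1 = 1) (b2 : b 2 = 2) (b3 : b 3 = 5) (b4 : b 4 = 15) (b5 : b 5 = 52) (b6 : b 6 = 203) (b7 : b 7 = 877) (b8 : b 8 = 4140) (b9 : b 9 = 21147) (b10 : b 10 = 115975) (b11 : b 11 = 678570) (b12 : b 12 = 4213597)
    (c0 : c 0 = 1) (c1 : c 1 = 12) (c2 : c 2 = 66) (c3 : c 3 = 220) (c4 : c 4 = 495) (c5 : c 5 = 792) (c6 : c 6 = 924) (c7 : c 7 = 792) (c8 : c 8 = 495) (c9 : c 9 = 220) (c10 : c 10 = 66) (c11 : c 11 = 12) (c12 : c 12 = 1) :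
    ∑ k ∈ range (12 + 1), c k * b (12 - k) = 27644437 := by
  simp only [Finset.sum_range_succ, Finset.sum_range_zero, Nat.reduceSub, Nat.sub_zero, Nat.sub_self,
    b0, b1, b2, b3, b4, b5, b6, b7, b8, b9, b10, b11, b12, c0, c1, c2, c3, c4, c5, c6, c7, c8, c9, c10, c11, c12]

theorem nb13 : Nat.bell 13 = 27644437 :=
  (nb_rec 12).trans (nbg13 Nat.bell (Nat.choose 12) nb0 nb1 nb2 nb3 nb4 nb5 nb6 nb7 nb8 nb9 nb10 nb11 nb12
    (Nat.choose_zero_right 12) nbc_12_1 nbc_12_2 nbc_12_3 nbc_12_4 nbc_12_5 nbc_12_6 nbc_12_7 nbc_12_8 nbc_12_9 nbc_12_10 nbc_12_11 (Nat.choose_self 12))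

theorem nbg14 (b c : ℕ → ℕ) (b0 : b 0 = 1) (b1 : b 1 = 1) (b2 : b 2 = 2) (b3 : b 3 = 5) (b4 : b 4 = 15) (b5 : b 5 = 52) (b6 : b 6 = 203) (b7 : b 7 = 877) (b8 : b 8 = 4140) (b9 : b 9 = 21147) (b10 : b 10 = 115975) (b11 : b 11 = 678570) (b12 : b 12 = 4213597) (b13 : b 13 = 27644437)
    (c0 : c 0 = 1) (c1 : c 1 = 13) (c2 : c 2 = 78) (c3 : c 3 = 286) (c4 : c 4 = 715) (c5 : c 5 = 1287) (c6 : c 6 = 1716) (c7 : c 7 = 1716) (c8 : c 8 = 1287) (c9 : c 9 = 715) (c10 : c 10 = 286) (c11 : c 11 = 78) (c12 : c 12 = 13) (c13 : c 13 = 1) :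
    ∑ k ∈ range (13 + 1), c k * b (13 - k) = 190899322 := by
  simp only [Finset.sum_range_succ, Finset.sum_range_zero, Nat.reduceSub, Nat.sub_zero, Nat.sub_self,
    b0, b1, b2, b3, b4, b5, b6, b7, b8, b9, b10, b11, b12, b13, c0, c1, c2, c3, c4, c5, c6, c7, c8, c9, c10, c11, c12, c13]

theorem nb14 : Nat.bell 14 = 190899322 :=
  (nb_rec 13).trans (nbg14 Nat.bell (Nat.choose 13) nb0 nb1 nb2 nb3 nb4 nb5 nb6 nb7 nb8 nb9 nb10 nb11 nb12 nb13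
    (Nat.choose_zero_right 13) nbc_13_1 nbc_13_2 nbc_13_3 nbc_13_4 nbc_13_5 nbc_13_6 nbc_13_7 nbc_13_8 nbc_13_9 nbc_13_10 nbc_13_11 nbc_13_12 (Nat.choose_self 13))

theorem nbg15 (b c : ℕ → ℕ) (b0 : b 0 = 1) (b1 : b 1 = 1) (b2 : b 2 = 2) (b3 : b 3 = 5) (b4 : b 4 = 15) (b5 : b 5 = 52) (b6 : b 6 = 203) (b7 : b 7 = 877) (b8 : b 8 = 4140) (b9 : b 9 = 21147) (b10 : b 10 = 115975) (b11 : b 11 = 678570) (b12 : b 12 = 4213597) (b13 : b 13 = 27644437) (b14 : b 14 = 190899322)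
    (c0 : c 0 = 1) (c1 : c 1 = 14) (c2 : c 2 = 91) (c3 : c 3 = 364) (c4 : c 4 = 1001) (c5 : c 5 = 2002) (c6 : c 6 = 3003) (c7 : c 7 = 3432) (c8 : c 8 = 3003) (c9 : c 9 = 2002) (c10 : c 10 = 1001) (c11 : c 11 = 364) (c12 : c 12 = 91) (c13 : c 13 = 14) (c14 : c 14 = 1) :
    ∑ k ∈ range (14 + 1), c k * b (14 - k) = 1382958545 := by
  simp only [Finset.sum_range_succ, Finset.sum_range_zero, Nat.reduceSub, Nat.sub_zero, Nat.sub_self,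
    b0, b1, b2, b3, b4, b5, b6, b7, b8, b9, b10, b11, b12, b13, b14, c0, c1, c2, c3, c4, c5, c6, c7, c8, c9, c10, c11, c12, c13, c14]

theorem nb15 : Nat.bell 15 = 1382958545 :=
  (nb_rec 14).trans (nbg15 Nat.bell (Nat.choose 14) nb0 nb1 nb2 nb3 nb4 nb5 nb6 nb7 nb8 nb9 nb10 nb11 nb12 nb13 nb14
    (Nat.choose_zero_right 14) nbc_14_1 nbc_14_2 nbc_14_3 nbc_14_4 nbc_14_5 nbc_14_6 nbc_14_7 nbc_14_8 nbc_14_9 nbc_14_10 nbc_14_11 nbc_14_12 nbc_14_13 (Nat.choose_self 14))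

theorem nbg16 (b c : ℕ → ℕ) (b0 : b 0 = 1) (b1 : b 1 = 1) (b2 : b 2 = 2) (b3 : b 3 = 5) (b4 : b 4 = 15) (b5 : b 5 = 52) (b6 : b 6 = 203) (b7 : b 7 = 877) (b8 : b 8 = 4140) (b9 : b 9 = 21147) (b10 : b 10 = 115975) (b11 : b 11 = 678570) (b12 : b 12 = 4213597) (b13 : b 13 = 27644437) (b14 : b 14 = 190899322) (b15 : b 15 = 1382958545)
    (c0 : c 0 = 1) (c1 : c 1 = 15) (c2 : c 2 = 105) (c3 : c 3 = 455) (c4 : c 4 = 1365) (c5 : c 5 = 3003) (c6 : c 6 = 5005) (c7 : c 7 = 6435) (c8 : c 8 = 6435) (c9 : c 9 = 5005) (c10 : c 10 = 3003) (c11 : c 11 = 1365) (c12 : c 12 = 455) (c13 : c 13 = 105) (c14 : c 14 = 15) (c15 : c 15 = 1) :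
    ∑ k ∈ range (15 + 1), c k * b (15 - k) = 10480142147 := by
  simp only [Finset.sum_range_succ, Finset.sum_range_zero, Nat.reduceSub, Nat.sub_zero, Nat.sub_self,
    b0, b1, b2, b3, b4, b5, b6, b7, b8, b9, b10, b11, b12, b13, b14, b15, c0, c1, c2, c3, c4, c5, c6, c7, c8, c9, c10, c11, c12, c13, c14, c15]

theorem nb16 : Nat.bell 16 = 10480142147 :=
  (nb_rec 15).trans (nbg16 Nat.bell (Nat.choose 15) nb0 nb1 nb2 nb3 nb4 nb5 nb6 nb7 nb8 nb9 nb10 nb11 nb12 nb13 nb14 nb15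
    (Nat.choose_zero_right 15) nbc_15_1 nbc_15_2 nbc_15_3 nbc_15_4 nbc_15_5 nbc_15_6 nbc_15_7 nbc_15_8 nbc_15_9 nbc_15_10 nbc_15_11 nbc_15_12 nbc_15_13 nbc_15_14 (Nat.choose_self 15))

theorem nbg17 (b c : ℕ → ℕ) (b0 : b 0 = 1) (b1 : b 1 = 1) (b2 : b 2 = 2) (b3 : b 3 = 5) (b4 : b 4 = 15) (b5 : b 5 = 52) (b6 : b 6 = 203) (b7 : b 7 = 877) (b8 : b 8 = 4140) (b9 : b 9 = 21147) (b10 : b 10 = 115975) (b11 : b 11 = 678570) (b12 : b 12 = 4213597) (b13 : b 13 = 27644437) (b14 : b 14 = 190899322) (b15 : b 15 = 1382958545) (b16 : b 16 = 10480142147)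
    (c0 : c 0 = 1) (c1 : c 1 = 16) (c2 : c 2 = 120) (c3 : c 3 = 560) (c4 : c 4 = 1820) (c5 : c 5 = 4368) (c6 : c 6 = 8008) (c7 : c 7 = 11440) (c8 : c 8 = 12870) (c9 : c 9 = 11440) (c10 : c 10 = 8008) (c11 : c 11 = 4368) (c12 : c 12 = 1820) (c13 : c 13 = 560) (c14 : c 14 = 120) (c15 : c 15 = 16) (c16 : c 16 = 1) :
    ∑ k ∈ range (16 + 1), c k * b (16 - k) = 82864869804 := by
  simp only [Finset.sum_range_succ, Finset.sum_range_zero, Nat.reduceSub, Nat.sub_zero, Nat.sub_self,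
    b0, b1, b2, b3, b4, b5, b6, b7, b8, b9, b10, b11, b12, b13, b14, b15, b16, c0, c1, c2, c3, c4, c5, c6, c7, c8, c9, c10, c11, c12, c13, c14, c15, c16]

theorem nb17 : Nat.bell 17 = 82864869804 :=
  (nb_rec 16).trans (nbg17 Nat.bell (Nat.choose 16) nb0 nb1 nb2 nb3 nb4 nb5 nb6 nb7 nb8 nb9 nb10 nb11 nb12 nb13 nb14 nb15 nb16
    (Nat.choose_zero_right 16) nbc_16_1 nbc_16_2 nbc_16_3 nbc_16_4 nbc_16_5 nbc_16_6 nbc_16_7 nbc_16_8 nbc_16_9 nbc_16_10 nbc_16_11 nbc_16_12 nbc_16_13 nbc_16_14 nbc_16_15 (Nat.choose_self 16))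

theorem nbg18 (b c : ℕ → ℕ) (b0 : b 0 = 1) (b1 : b 1 = 1) (b2 : b 2 = 2) (b3 : b 3 = 5) (b4 : b 4 = 15) (b5 : b 5 = 52) (b6 : b 6 = 203) (b7 : b 7 = 877) (b8 : b 8 = 4140) (b9 : b 9 = 21147) (b10 : b 10 = 115975) (b11 : b 11 = 678570) (b12 : b 12 = 4213597) (b13 : b 13 = 27644437) (b14 : b 14 = 190899322) (b15 : b 15 = 1382958545) (b16 : b 16 = 10480142147) (b17 : b 17 = 82864869804)
    (c0 : c 0 = 1) (c1 : c 1 = 17) (c2 : c 2 = 136) (c3 : c 3 = 680) (c4 : c 4 = 2380) (c5 : c 5 = 6188) (c6 : c 6 = 12376) (c7 : c 7 = 19448) (c8 : c 8 = 24310) (c9 : c 9 = 24310) (c10 : c 10 = 19448) (c11 : c 11 = 12376) (c12 : c 12 = 6188) (c13 : c 13 = 2380) (c14 : c 14 = 680) (c15 : c 15 = 136) (c16 : c 16 = 17) (c17 : c 17 = 1) :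
    ∑ k ∈ range (17 + 1), c k * b (17 - k) = 682076806159 := by
  simp only [Finset.sum_range_succ, Finset.sum_range_zero, Nat.reduceSub, Nat.sub_zero, Nat.sub_self,
    b0, b1, b2, b3, b4, b5, b6, b7, b8, b9, b10, b11, b12, b13, b14, b15, b16, b17, c0, c1, c2, c3, c4, c5, c6, c7, c8, c9, c10, c11, c12, c13, c14, c15, c16, c17]

theorem nb18 : Nat.bell 18 = 682076806159 :=
  (nb_rec 17).trans (nbg18 Nat.bell (Nat.choose 17) nb0 nb1 nb2 nb3 nb4 nb5 nb6 nb7 nb8 nb9 nb10 nb11 nb12 nb13 nb14 nb15 nb16 nb17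
    (Nat.choose_zero_right 17) nbc_17_1 nbc_17_2 nbc_17_3 nbc_17_4 nbc_17_5 nbc_17_6 nbc_17_7 nbc_17_8 nbc_17_9 nbc_17_10 nbc_17_11 nbc_17_12 nbc_17_13 nbc_17_14 nbc_17_15 nbc_17_16 (Nat.choose_self 17))

theorem nbg19 (b c : ℕ → ℕ) (b0 : b 0 = 1) (b1 : b 1 = 1) (b2 : b 2 = 2) (b3 : b 3 = 5) (b4 : b 4 = 15) (b5 : b 5 = 52) (b6 : b 6 = 203) (b7 : b 7 = 877) (b8 : b 8 = 4140) (b9 : b 9 = 21147) (b10 : b 10 = 115975) (b11 : b 11 = 678570) (b12 : b 12 = 4213597) (b13 : b 13 = 27644437) (b14 : b 14 = 190899322) (b15 : b 15 = 1382958545) (b16 : b 16 = 10480142147) (b17 : b 17 = 82864869804) (b18 : b 18 = 682076806159)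
    (c0 : c 0 = 1) (c1 : c 1 = 18) (c2 : c 2 = 153) (c3 : c 3 = 816) (c4 : c 4 = 3060) (c5 : c 5 = 8568) (c6 : c 6 = 18564) (c7 : c 7 = 31824) (c8 : c 8 = 43758) (c9 : c 9 = 48620) (c10 : c 10 = 43758) (c11 : c 11 = 31824) (c12 : c 12 = 18564) (c13 : c 13 = 8568) (c14 : c 14 = 3060) (c15 : c 15 = 816) (c16 : c 16 = 153) (c17 : c 17 = 18) (c18 : c 18 = 1) :
    ∑ k ∈ range (18 + 1), c k * b (18 - k) = 5832742205057 := by
  simp only [Finset.sum_range_succ, Finset.sum_range_zero, Nat.reduceSub, Nat.sub_zero, Nat.sub_self,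
    b0, b1, b2, b3, b4, b5, b6, b7, b8, b9, b10, b11, b12, b13, b14, b15, b16, b17, b18, c0, c1, c2, c3, c4, c5, c6, c7, c8, c9, c10, c11, c12, c13, c14, c15, c16, c17, c18]

theorem nb19 : Nat.bell 19 = 5832742205057 :=
  (nb_rec 18).trans (nbg19 Nat.bell (Nat.choose 18) nb0 nb1 nb2 nb3 nb4 nb5 nb6 nb7 nb8 nb9 nb10 nb11 nb12 nb13 nb14 nb15 nb16 nb17 nb18
    (Nat.choose_zero_right 18) nbc_18_1 nbc_18_2 nbc_18_3 nbc_18_4 nbc_18_5 nbc_18_6 nbc_18_7 nbc_18_8 nbc_18_9 nbc_18_10 nbc_18_11 nbc_18_12 nbc_18_13 nbc_18_14 nbc_18_15 nbc_18_16 nbc_18_17 (Nat.choose_self 18))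

/-- the values of the Bell numbers -/
theorem bell_vals :
    Nat.bell 0 = 1 ∧ Nat.bell 1 = 1 ∧ Nat.bell 2 = 2 ∧ Nat.bell 3 = 5 ∧ Nat.bell 4 = 15 ∧ Nat.bell 5 = 52 ∧
    Nat.bell 6 = 203 ∧ Nat.bell 7 = 877 ∧ Nat.bell 8 = 4140 ∧ Nat.bell 9 = 21147 ∧ Nat.bell 10 = 115975 ∧
    Nat.bell 11 = 678570 ∧ Nat.bell 12 = 4213597 ∧ Nat.bell 13 = 27644437 ∧ Nat.bell 14 = 190899322 ∧
    Nat.bell 15 = 1382958545 ∧ Nat.bell 16 = 10480142147 ∧ Nat.bell 17 = 82864869804 ∧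
    Nat.bell 18 = 682076806159 ∧ Nat.bell 19 = 5832742205057 :=
  ⟨nb0, nb1, nb2, nb3, nb4, nb5, nb6, nb7, nb8, nb9, nb10, nb11, nb12, nb13, nb14, nb15, nb16, nb17, nb18, nb19⟩

theorem nb_pp (n : ℕ) : pp n = (Nat.bell (n + 1) : ℝ) / (((n : ℝ) + 1) * (Nat.bell n : ℝ)) := by
  unfold pp PP
  have hf : (0 : ℝ) < (n.factorial : ℝ) := by exact_mod_cast Nat.factorial_pos n
  rw [Nat.factorial_succ]
  push_cast
  by_cases hB : (Nat.bell n : ℝ) = 0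
  · simp [hB]
  · field_simp

theorem nbp0 : pp 0 = 1 := by
  rw [nb_pp]; rw [show (0 : ℕ) + 1 = 1 from rfl, nb0, nb1]; norm_num

theorem nbp1 : pp 1 = 1 := by
  rw [nb_pp]; rw [show (1 : ℕ) + 1 = 2 from rfl, nb1, nb2]; norm_num

theorem nbp2 : pp 2 = 5 / 6 := by
  rw [nb_pp]; rw [show (2 : ℕ) + 1 = 3 from rfl, nb2, nb3]; norm_num

theorem nbp3 : pp 3 = 3 / 4 := by
  rw [nb_pp]; rw [show (3 : ℕ) + 1 = 4 from rfl, nb3, nb4]; norm_num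

theorem nbp4 : pp 4 = 52 / 75 := by
  rw [nb_pp]; rw [show (4 : ℕ) + 1 = 5 from rfl, nb4, nb5]; norm_num

theorem nbp5 : pp 5 = 203 / 312 := by
  rw [nb_pp]; rw [show (5 : ℕ) + 1 = 6 from rfl, nb5, nb6]; norm_num

theorem nbp6 : pp 6 = 877 / 1421 := by
  rw [nb_pp]; rw [show (6 : ℕ) + 1 = 7 from rfl, nb6, nb7]; norm_num

theorem nbp7 : pp 7 = 1035 / 1754 := by
  rw [nb_pp]; rw [show (7 : ℕ) + 1 = 8 from rfl, nb7, nb8]; norm_num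

theorem nbp8 : pp 8 = 7049 / 12420 := by
  rw [nb_pp]; rw [show (8 : ℕ) + 1 = 9 from rfl, nb8, nb9]; norm_num

theorem nbp9 : pp 9 = 23195 / 42294 := by
  rw [nb_pp]; rw [show (9 : ℕ) + 1 = 10 from rfl, nb9, nb10]; norm_num

theorem nbp10 : pp 10 = 135714 / 255145 := by
  rw [nb_pp]; rw [show (10 : ℕ) + 1 = 11 from rfl, nb10, nb11]; norm_num

theorem nbp11 : pp 11 = 4213597 / 8142840 := by
  rw [nb_pp]; rw [show (11 : ℕ) + 1 = 12 from rfl, nb11, nb12]; norm_num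

theorem nbp12 : pp 12 = 27644437 / 54776761 := by
  rw [nb_pp]; rw [show (12 : ℕ) + 1 = 13 from rfl, nb12, nb13]; norm_num

theorem nbp13 : pp 13 = 95449661 / 193511059 := by
  rw [nb_pp]; rw [show (13 : ℕ) + 1 = 14 from rfl, nb13, nb14]; norm_num

theorem nbp14 : pp 14 = 276591709 / 572697966 := by
  rw [nb_pp]; rw [show (14 : ℕ) + 1 = 15 from rfl, nb14, nb15]; norm_num

theorem nbp15 : pp 15 = 10480142147 / 22127336720 := by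
  rw [nb_pp]; rw [show (15 : ℕ) + 1 = 16 from rfl, nb15, nb16]; norm_num

theorem nbp16 : pp 16 = 82864869804 / 178162416499 := by
  rw [nb_pp]; rw [show (16 : ℕ) + 1 = 17 from rfl, nb16, nb17]; norm_num

theorem nbp17 : pp 17 = 682076806159 / 1491567656472 := by
  rw [nb_pp]; rw [show (17 : ℕ) + 1 = 18 from rfl, nb17, nb18]; norm_num

theorem nbp18 : pp 18 = 5832742205057 / 12959459317021 := by
  rw [nb_pp]; rw [show (18 : ℕ) + 1 = 19 from rfl, nb18, nb19]; norm_num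

theorem pp_0 : pp 0 = 1 := nbp0

theorem pp_1 : pp 1 = 1 := nbp1

theorem pp_2 : pp 2 = 5 / 6 := nbp2

theorem pp_3 : pp 3 = 3 / 4 := nbp3

theorem pp_13_le : pp 13 ≤ 1 / 2 := by
  rw [nbp13]; norm_num

theorem pp_15_ge : 7 ≤ 16 * pp 15 := by
  rw [nbp15]; norm_num

theorem nbs1 : sl 1 = 5 / 4 := by
  unfold sl yy ee
  norm_num [nbp1, nbp2, nbp3]

theorem nbs2 : sl 2 = 63 / 50 := by
  unfold sl yy ee
  norm_num [nbp2, nbp3, nbp4]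

theorem nbs3 : sl 3 = 62 / 51 := by
  unfold sl yy ee
  norm_num [nbp3, nbp4, nbp5]

theorem nbs4 : sl 4 = 8117 / 6993 := by
  unfold sl yy ee
  norm_num [nbp4, nbp5, nbp6]

theorem nbs5 : sl 5 = 16571 / 14839 := by
  unfold sl yy ee
  norm_num [nbp5, nbp6, nbp7]

theorem nbs6 : sl 6 = 875711 / 810276 := by
  unfold sl yy ee
  norm_num [nbp6, nbp7, nbp8]

theorem nbs7 : sl 7 = 772565 / 736131 := by
  unfold sl yy ee
  norm_num [nbp7, nbp8, nbp9]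

theorem nbs8 : sl 8 = 2403175 / 2351778 := by
  unfold sl yy ee
  norm_num [nbp8, nbp9, nbp10]

theorem nbs9 : sl 9 = 1777217047 / 1782003590 := by
  unfold sl yy ee
  norm_num [nbp9, nbp10, nbp11]

theorem nbs10 : sl 10 = 380633463989 / 390249355535 := by
  unfold sl yy ee
  norm_num [nbp10, nbp11, nbp12]

theorem nbs11 : sl 11 = 38146300091983 / 39920779067659 := by
  unfold sl yy ee
  norm_num [nbp11, nbp12, nbp13]

theorem nbs12 : sl 12 = 681114902640593 / 726486067204572 := by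
  unfold sl yy ee
  norm_num [nbp12, nbp13, nbp14]

theorem nbs13 : sl 13 = 84023383420348247 / 91221775270375600 := by
  unfold sl yy ee
  norm_num [nbp13, nbp14, nbp15]

theorem nbs14 : sl 14 = 1821704869422588127 / 2010790396433185126 := by
  unfold sl yy ee
  norm_num [nbp14, nbp15, nbp16]

theorem nbs15 : sl 15 = 269648951455930833452 / 302297163754227124257 := by
  unfold sl yy ee
  norm_num [nbp15, nbp16, nbp17]

theorem nbs16 : sl 16 = 34708462966519028098441 / 39484045049842399528793 := by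
  unfold sl yy ee
  norm_num [nbp16, nbp17, nbp18]

theorem sl_1 : sl 1 = 5 / 4 := nbs1

theorem sl_9_lt : sl 9 < 1 := by
  rw [nbs9]; norm_num

theorem sl_base (i : ℕ) (h2 : 2 ≤ i) (h14 : i ≤ 14) : sl (i + 1) ≤ sl i := by
  interval_cases i
  · rw [show (2 : ℕ) + 1 = 3 from rfl, nbs3, nbs2]; norm_num
  · rw [show (3 : ℕ) + 1 = 4 from rfl, nbs4, nbs3]; norm_num
  · rw [show (4 : ℕ) + 1 = 5 from rfl, nbs5, nbs4]; norm_num
  · rw [show (5 : ℕ) + 1 = 6 from rfl, nbs6, nbs5]; norm_num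
  · rw [show (6 : ℕ) + 1 = 7 from rfl, nbs7, nbs6]; norm_num
  · rw [show (7 : ℕ) + 1 = 8 from rfl, nbs8, nbs7]; norm_num
  · rw [show (8 : ℕ) + 1 = 9 from rfl, nbs9, nbs8]; norm_num
  · rw [show (9 : ℕ) + 1 = 10 from rfl, nbs10, nbs9]; norm_num
  · rw [show (10 : ℕ) + 1 = 11 from rfl, nbs11, nbs10]; norm_num
  · rw [show (11 : ℕ) + 1 = 12 from rfl, nbs12, nbs11]; norm_num
  · rw [show (12 : ℕ) + 1 = 13 from rfl, nbs13, nbs12]; norm_num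
  · rw [show (13 : ℕ) + 1 = 14 from rfl, nbs14, nbs13]; norm_num
  · rw [show (14 : ℕ) + 1 = 15 from rfl, nbs15, nbs14]; norm_num

end Pool.H68.AC
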