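import Pool.Agent.H68.AC.NA
import Pool.Agent.H68.AC.NB
import Pool.Agent.H68.AC.CH

/-!
# Module VB : `Phi f` is concave at `(n, n+1, n+2)` for `n ≥ 12`, given the convex position of the points `2..n`

Notation as in module ST.  Since `Phi f n = ∑_{k ≤ n} (f k / k!) P_{n-k} / P_n`,
  `P_{n+2} (Phi f (n+2) - 2 Phi f (n+1) + Phi f n) = ∑_{k=0}^{n+2} (f k / k!) R_k`,
  `R_k = P_{n+2-k} - 2 p_{n+1} P_{n+1-k} + p_n p_{n+1} P_{n-k}`   (`P_{-1} = P_{-2} = 0`),
because `P_{n+2} / P_{n+1} = p_{n+1}`, `P_{n+2} / P_n = p_n p_{n+1}`.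
`f 0 = 0`, and `∑_{k ≥ 1} (k/k!) R_k = P_{n+2} ((n+2) - 2 (n+1) + n) = 0`
(`∑_{k} (k/k!) P_{N-k} = N P_N` by `PP_rec`; that is `Phi id N = N`).
For `1 ≤ k ≤ n`, with `j = n - k`: `R_k = P_j (y_j - (2 p_{n+1} p_j - y_n))`; the line `x ↦ 2 p_{n+1} x - y_n` passes through
the point `n` (`2 p_{n+1} p_n - y_n = y_n`).  `R_{n+1} = 1 - 2 p_{n+1} ≥ 0` (`pp_13_le`, `pp_anti`), `R_{n+2} = 1`.
SIGN PATTERN: if `R_{k'} < 0` then `R_k ≤ 0` for all `1 ≤ k ≤ k'`.  Indeed `k' ≤ n`; put `m' = n - k'`.
 * `m' ≥ 2`: `line_above` (with `M = 2`, `N = n`, `τ = 2 p_{n+1}`).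
 * `m' = 1`: `y_1 - τ p_1 = (y_2 - τ p_2) + (sl 1 - τ) ee 1` with `sl 1 = 5/4 > 1 ≥ τ`, so the point `2` is also strictly
   below the line, and we are in the first case for `k ≤ n - 2`.
 * `m' = 0`: `p_0 = p_1 = 1`, `y_0 = 1 > 5/6 = y_1`, so the point `1` is also strictly below the line.
CONCLUSION: `h k = f k / k` is nonincreasing for `1 ≤ k ≤ n+2` (from `Cv f (n+2)`: concave with `f 0 = 0`).
Let `k*` be the largest `k` with `R_k < 0` (if none: all `R_k ≥ 0` and `∑ (k/k!) R_k = 0` give `R_k = 0` for all `k ≥ 1`).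
Then `∑_{k≥1} h k (k/k!) R_k ≤ h k* ∑_{k≥1} (k/k!) R_k = 0`, since `R_k ≤ 0, h k ≥ h k*` for `k ≤ k*` and
`R_k ≥ 0, h k ≤ h k*` for `k > k*`.
-/

namespace Pool.H68.AC

open Finset

theorem VB_phi (f : ℕ → ℝ) (n : ℕ) :
    Phi f n = (∑ k ∈ range (n + 1), f k / (k.factorial : ℝ) * PP (n - k)) / PP n := by
  unfold Phi
  have hb : (Nat.bell n : ℝ) = (n.factorial : ℝ) * PP n := by
    unfold PP
    field_simp
  rw [hb, ← div_div]
  congr 1
  rw [Finset.sum_div]
  apply Finset.sum_congr rfl
  intro k hk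
  have hkn : k ≤ n := by
    have := Finset.mem_range.mp hk
    omega
  unfold PP
  rw [Nat.cast_choose ℝ hkn]
  have h1 : (n.factorial : ℝ) ≠ 0 := by positivity
  have h2 : (k.factorial : ℝ) ≠ 0 := by positivity
  have h3 : ((n - k).factorial : ℝ) ≠ 0 := by positivity
  field_simp

/-- `∑_{k ≤ N} (k/k!) P_{N-k} = N P_N` -/
theorem VB_id (N : ℕ) :
    ∑ k ∈ range (N + 1), (k : ℝ) / (k.factorial : ℝ) * PP (N - k) = (N : ℝ) * PP N := by
  cases N with
  | zero => simp
  | succ M =>
    rw [Finset.sum_range_succ']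
    simp only [Nat.cast_zero, zero_div, zero_mul, add_zero]
    have := PP_rec M
    push_cast
    rw [this]
    apply Finset.sum_congr rfl
    intro k _
    have h2 : (k.factorial : ℝ) ≠ 0 := by positivity
    have h3 : ((k : ℝ) + 1) ≠ 0 := by positivity
    rw [Nat.factorial_succ]
    push_cast
    have : M + 1 - (k + 1) = M - k := by omega
    try rw [this]
    field_simp

/-- abstract comparison lemma -/
theorem VB_abs (N : ℕ) (a h : ℕ → ℝ) (ha0 : a 0 = 0) (hs : ∑ k ∈ range (N + 1), a k = 0)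
    (hh : ∀ j k, 1 ≤ j → j ≤ k → k ≤ N → h k ≤ h j)
    (hsg : ∀ j k, 1 ≤ j → j ≤ k → k ≤ N → a k < 0 → a j ≤ 0) :
    ∑ k ∈ range (N + 1), h k * a k ≤ 0 := by
  classical
  by_cases hex : ∃ k, k ≤ N ∧ a k < 0
  · obtain ⟨k0, hk0N, hk0⟩ := hex
    set S := (range (N + 1)).filter (fun k => a k < 0) with hS
    have hSne : S.Nonempty := ⟨k0, by simp [hS]; exact ⟨by omega, hk0⟩⟩
    set ks := S.max' hSne with hks
    have hksS : ks ∈ S := Finset.max'_mem _ _
    have hks1 : ks ≤ N ∧ a ks < 0 := by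
      have := hksS
      rw [hS, Finset.mem_filter, Finset.mem_range] at this
      exact ⟨by omega, this.2⟩
    have hks0 : 1 ≤ ks := by
      rcases Nat.eq_zero_or_pos ks with h0 | h0
      · rw [h0, ha0] at hks1
        exact absurd hks1.2 (lt_irrefl _)
      · exact h0
    have hkey : ∑ k ∈ range (N + 1), (h k - h ks) * a k ≤ 0 := by
      apply Finset.sum_nonpos
      intro k hk
      have hkN : k ≤ N := by
        have := Finset.mem_range.mp hk
        omega
      rcases Nat.eq_zero_or_pos k with h0 | h0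
      · rw [h0, ha0]; simp
      · rcases le_or_gt k ks with hc | hc
        · have h1 := hh k ks h0 hc hks1.1
          have h2 := hsg k ks h0 hc hks1.1 hks1.2
          exact mul_nonpos_of_nonneg_of_nonpos (by linarith) h2
        · have h1 := hh ks k hks0 hc.le hkN
          have h2 : 0 ≤ a k := by
            by_contra hneg
            push Not at hneg
            have : k ∈ S := by
              rw [hS, Finset.mem_filter, Finset.mem_range]
              exact ⟨by omega, hneg⟩
            have := Finset.le_max' S k this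
            omega
          exact mul_nonpos_of_nonpos_of_nonneg (by linarith) h2
    have : ∑ k ∈ range (N + 1), (h k - h ks) * a k
        = ∑ k ∈ range (N + 1), h k * a k - h ks * ∑ k ∈ range (N + 1), a k := by
      rw [Finset.mul_sum, ← Finset.sum_sub_distrib]
      apply Finset.sum_congr rfl
      intro k _
      ring
    rw [this, hs] at hkey
    linarith
  · push Not at hex
    have h0 : ∀ k ∈ range (N + 1), a k = 0 := by
      rw [← Finset.sum_eq_zero_iff_of_nonneg]
      · exact hs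
      · intro k hk
        exact hex k (by have := Finset.mem_range.mp hk; omega)
    apply le_of_eq
    apply Finset.sum_eq_zero
    intro k hk
    rw [h0 k hk, mul_zero]

/-- concave with `f 0 = 0`: `f k / k` is nonincreasing -/
theorem VB_slope (f : ℕ → ℝ) (N : ℕ) (hf : Cv f N) :
    ∀ k, 1 ≤ k → k + 1 ≤ N → f (k + 1) / ((k : ℝ) + 1) ≤ f k / (k : ℝ) := by
  obtain ⟨h0, hc⟩ := hf
  -- k f(k+1) ≤ (k+1) f k
  have key : ∀ k : ℕ, k + 1 ≤ N → (k : ℝ) * f (k + 1) ≤ ((k : ℝ) + 1) * f k := by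
    intro k
    induction k with
    | zero => intro _; simp [h0]
    | succ k ih =>
      intro hk
      have h1 := ih (by omega)
      have h2 := hc k (by omega)
      push_cast
      have h3 : (0 : ℝ) ≤ (k : ℝ) + 1 := by positivity
      have h4 := mul_le_mul_of_nonneg_left h2 h3
      nlinarith
  intro k hk1 hkN
  have hk : (0 : ℝ) < (k : ℝ) := by exact_mod_cast hk1
  rw [div_le_div_iff₀ (by positivity) hk]
  have := key k hkN
  linarith

theorem VB_anti (f : ℕ → ℝ) (N : ℕ) (hf : Cv f N) :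
    ∀ j k, 1 ≤ j → j ≤ k → k ≤ N → f k / (k : ℝ) ≤ f j / (j : ℝ) := by
  intro j k hj hjk
  induction k, hjk using Nat.le_induction with
  | base => intro _; exact le_refl _
  | succ k hk ih =>
    intro hkN
    have h1 := ih (by omega)
    have h2 := VB_slope f N hf k (by omega) hkN
    push_cast
    linarith

/-- The numbers `R_k`. -/
noncomputable def VB_R (n k : ℕ) : ℝ :=
  PP (n + 2 - k) - 2 * pp (n + 1) * (if k ≤ n + 1 then PP (n + 1 - k) else 0)
    + pp n * pp (n + 1) * (if k ≤ n then PP (n - k) else 0)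

theorem VB_sum (n : ℕ) (f : ℕ → ℝ) :
    ∑ k ∈ range (n + 3), f k / (k.factorial : ℝ) * VB_R n k
      = (∑ k ∈ range (n + 3), f k / (k.factorial : ℝ) * PP (n + 2 - k))
        - 2 * pp (n + 1) * (∑ k ∈ range (n + 2), f k / (k.factorial : ℝ) * PP (n + 1 - k))
        + pp n * pp (n + 1) * (∑ k ∈ range (n + 1), f k / (k.factorial : ℝ) * PP (n - k)) := by
  have e1 : ∑ k ∈ range (n + 2), f k / (k.factorial : ℝ) * PP (n + 1 - k)
      = ∑ k ∈ range (n + 3), f k / (k.factorial : ℝ) * (if k ≤ n + 1 then PP (n + 1 - k) else 0) := by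
    rw [Finset.sum_range_succ _ (n + 2)]
    rw [if_neg (by omega), mul_zero, add_zero]
    apply Finset.sum_congr rfl
    intro k hk
    rw [if_pos (by have := Finset.mem_range.mp hk; omega)]
  have e2 : ∑ k ∈ range (n + 1), f k / (k.factorial : ℝ) * PP (n - k)
      = ∑ k ∈ range (n + 3), f k / (k.factorial : ℝ) * (if k ≤ n then PP (n - k) else 0) := by
    rw [Finset.sum_range_succ _ (n + 2), Finset.sum_range_succ _ (n + 1)]
    rw [if_neg (by omega), if_neg (by omega), mul_zero, add_zero, mul_zero, add_zero]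
    apply Finset.sum_congr rfl
    intro k hk
    rw [if_pos (by have := Finset.mem_range.mp hk; omega)]
  rw [e1, e2, Finset.mul_sum, Finset.mul_sum, ← Finset.sum_sub_distrib, ← Finset.sum_add_distrib]
  apply Finset.sum_congr rfl
  intro k _
  unfold VB_R
  ring

theorem VB_total (n : ℕ) (f : ℕ → ℝ) :
    PP (n + 2) * (Phi f (n + 2) - 2 * Phi f (n + 1) + Phi f n)
      = ∑ k ∈ range (n + 3), f k / (k.factorial : ℝ) * VB_R n k := by
  rw [VB_sum, VB_phi, VB_phi, VB_phi]
  have h1 : PP (n + 2) = pp (n + 1) * PP (n + 1) := PP_succ (n + 1)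
  have h2 : PP (n + 1) = pp n * PP n := PP_succ n
  have p0 := (PP_pos n).ne'
  have p1 := (PP_pos (n + 1)).ne'
  have p2 := (PP_pos (n + 2)).ne'
  have e : ∀ A B C : ℝ, PP (n + 2) * (A / PP (n + 2) - 2 * (B / PP (n + 1)) + C / PP n)
      = A - 2 * pp (n + 1) * B + pp n * pp (n + 1) * C := by
    intro A B C
    have r1 : pp (n + 1) = PP (n + 2) / PP (n + 1) := by
      rw [h1]; field_simp
    have r2 : pp n = PP (n + 1) / PP n := by
      rw [h2]; field_simp
    rw [r1, r2]
    field_simp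
  exact e _ _ _

theorem VB_R_le (n k : ℕ) (hk : k ≤ n) :
    VB_R n k = PP (n - k) * (yy (n - k) - (2 * pp (n + 1) * pp (n - k) - yy n)) := by
  unfold VB_R
  rw [if_pos (by omega), if_pos hk]
  have h1 : n + 2 - k = (n - k + 1) + 1 := by omega
  have h2 : n + 1 - k = (n - k) + 1 := by omega
  rw [h1, h2, PP_succ, PP_succ]
  unfold yy
  ring

theorem VB_R_top (n : ℕ) : VB_R n (n + 2) = 1 := by
  unfold VB_R
  rw [if_neg (by omega), if_neg (by omega)]
  simp [PP_zero]

theorem VB_R_top1 (n : ℕ) : VB_R n (n + 1) = 1 - 2 * pp (n + 1) := by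
  unfold VB_R
  rw [if_pos (by omega), if_neg (by omega)]
  have h1 : n + 2 - (n + 1) = 0 + 1 := by omega
  rw [h1, PP_succ]
  simp [PP_zero, pp_0]

theorem V_big (n : ℕ) (hn : 12 ≤ n) (hc : ∀ i, 2 ≤ i → i + 2 ≤ n → sl (i + 1) ≤ sl i)
    (f : ℕ → ℝ) (hf : Cv f (n + 2)) : Phi f (n + 2) + Phi f n ≤ 2 * Phi f (n + 1) := by
  have hp13 : pp (n + 1) ≤ 1 / 2 := le_trans (pp_anti (by omega : 13 ≤ n + 1)) pp_13_le
  have hppos := pp_pos (n + 1)
  -- the sign function
  set D : ℕ → ℝ := fun j => yy j - (2 * pp (n + 1) * pp j - yy n) with hD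
  have hyn : yy n = yy n := rfl
  have hyn' : yy n = pp n * pp (n + 1) := rfl
  have hx : ∀ i, 2 ≤ i → i < n → pp (i + 1) < pp i := fun i hi _ => pp_strict i (by omega)
  have hline : ∀ m' m : ℕ, 2 ≤ m' → m' ≤ m → m ≤ n → D m' < 0 → D m ≤ 0 := by
    intro m' m h2 hmm hmn hneg
    have := line_above pp yy 2 n hx (by
      intro i hi hin
      have := hc i hi hin
      unfold sl ee at this
      exact this) (2 * pp (n + 1)) m' h2 (by omega) (by
        simp only [hD] at hneg
        nlinarith) m hmm hmn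
    simp only [hD]
    nlinarith
  have hy1 : yy 1 = 5 / 6 := by
    unfold yy; rw [pp_1, pp_2]; norm_num
  have hy2 : yy 2 = 5 / 8 := by
    unfold yy; rw [pp_2, pp_3]; norm_num
  have hy0 : yy 0 = 1 := by
    unfold yy; rw [pp_0]; norm_num [pp_1]
  -- D 1 < 0 -> D 2 < 0
  have hD12 : D 1 < 0 → D 2 < 0 := by
    intro h
    simp only [hD] at h ⊢
    rw [hy1, pp_1] at h
    rw [hy2, pp_2]
    nlinarith
  have hD01 : D 0 < 0 → D 1 < 0 := by
    intro h
    simp only [hD] at h ⊢
    rw [hy0, pp_0] at h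
    rw [hy1, pp_1]
    linarith
  have hDs : ∀ m' m : ℕ, m' ≤ m → m ≤ n → D m' < 0 → D m ≤ 0 := by
    intro m' m hmm hmn hneg
    rcases Nat.lt_or_ge m' 2 with h2 | h2
    · interval_cases m'
      · rcases Nat.lt_or_ge m 2 with h3 | h3
        · interval_cases m
          · exact hneg.le
          · exact (hD01 hneg).le
        · exact hline 2 m le_rfl h3 hmn (hD12 (hD01 hneg))
      · rcases Nat.lt_or_ge m 2 with h3 | h3
        · interval_cases m
          exact hneg.le
        · exact hline 2 m le_rfl h3 hmn (hD12 hneg)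
    · exact hline m' m h2 hmm hmn hneg
  -- sign pattern for R
  have hR : ∀ j k, 1 ≤ j → j ≤ k → k ≤ n + 2 → VB_R n k < 0 → VB_R n j ≤ 0 := by
    intro j k hj hjk hk hneg
    have hkn : k ≤ n := by
      by_contra hcon
      have : k = n + 1 ∨ k = n + 2 := by omega
      rcases this with h | h
      · rw [h, VB_R_top1] at hneg
        linarith
      · rw [h, VB_R_top] at hneg
        linarith
    rw [VB_R_le n k hkn] at hneg
    rw [VB_R_le n j (by omega)]
    have h1 : D (n - k) < 0 := by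
      by_contra hcon
      push Not at hcon
      have := mul_nonneg (PP_pos (n - k)).le hcon
      simp only [hD] at this
      linarith
    have h2 := hDs (n - k) (n - j) (by omega) (by omega) h1
    exact mul_nonpos_of_nonneg_of_nonpos (PP_pos _).le h2
  have habs := VB_abs (n + 2) (fun k => (k : ℝ) / (k.factorial : ℝ) * VB_R n k) (fun k => f k / (k : ℝ))
    (by simp) (by
      show ∑ k ∈ range (n + 3), (k : ℝ) / (k.factorial : ℝ) * VB_R n k = 0
      rw [VB_sum n (fun k => (k : ℝ))]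
      have i1 := VB_id (n + 2)
      have i2 := VB_id (n + 1)
      have i3 := VB_id n
      rw [i1, i2, i3]
      have h1 : PP (n + 2) = pp (n + 1) * PP (n + 1) := PP_succ (n + 1)
      have h2 : PP (n + 1) = pp n * PP n := PP_succ n
      rw [h1, h2]
      push_cast
      ring)
    (fun j k hj hjk hk => VB_anti f (n + 2) hf j k hj hjk hk)
    (by
      intro j k hj hjk hk hneg
      have hkpos : (0 : ℝ) < (k : ℝ) / (k.factorial : ℝ) := by
        have : (0 : ℝ) < (k : ℝ) := by exact_mod_cast (by omega : 0 < k)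
        positivity
      have hjpos : (0 : ℝ) < (j : ℝ) / (j.factorial : ℝ) := by
        have : (0 : ℝ) < (j : ℝ) := by exact_mod_cast (by omega : 0 < j)
        positivity
      have h1 : VB_R n k < 0 := by
        by_contra hcon
        push Not at hcon
        have := mul_nonneg hkpos.le hcon
        linarith
      exact mul_nonpos_of_nonneg_of_nonpos hjpos.le (hR j k hj hjk hk h1))
  have hfin : ∑ k ∈ range (n + 3), f k / (k.factorial : ℝ) * VB_R n k ≤ 0 := by
    refine le_trans (le_of_eq ?_) habs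
    apply Finset.sum_congr rfl
    intro k _
    rcases Nat.eq_zero_or_pos k with h0 | h0
    · subst h0
      simp [hf.1]
    · have : (k : ℝ) ≠ 0 := by
        have : (0 : ℝ) < (k : ℝ) := by exact_mod_cast h0
        exact this.ne'
      field_simp
  rw [← VB_total] at hfin
  have hP := PP_pos (n + 2)
  by_contra hcon
  push Not at hcon
  have : 0 < PP (n + 2) * (Phi f (n + 2) - 2 * Phi f (n + 1) + Phi f n) :=
    mul_pos hP (by linarith)
  linarith

end Pool.H68.AC
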