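import Pool.Agent.H68.AC.NB

/-!
# Module VS : `Phi f` is concave at `(n, n+1, n+2)` for `n ≤ 11` (finite check)

For each `n = 0, ..., 11` expand `Phi f (n+2)`, `Phi f (n+1)`, `Phi f n` (Bell numbers from `bell_vals`); the difference
`Phi f (n+2) + Phi f n - 2 Phi f (n+1)` is a linear form in `f 1, ..., f (n+2)` (with `f 0 = 0`), and it is a combination
with NONNEGATIVE coefficients of the `n+1` hypotheses `f (k+2) + f k - 2 f (k+1) ≤ 0` (`k = 0..n`); so `linarith` (or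
`nlinarith`-free `linear_combination` with explicit coefficients) closes each case.  The coefficient of the hypothesis
`k` is `μ_k = ∑_{j ≥ k+2} (j - k - 1) c_j`, where `c_j` is the coefficient of `f j` in the linear form.
For instance `n = 0`: `f 2 / 2 - f 1`, `n = 1`: `(f 1 - 2 f 2 + f 3) / 5`.
-/

namespace Pool.H68.AC

open Finset

theorem vsp0 (f : ℕ → ℝ) (h0 : f 0 = 0) : Phi f 0 = (0) / 1 := by
  unfold Phi
  simp only [Finset.sum_range_succ, Finset.sum_range_zero, Nat.reduceSub, Nat.sub_zero, Nat.sub_self, Nat.choose_zero_right,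
    Nat.choose_self, nb0, h0]
  norm_num

theorem vsp1 (f : ℕ → ℝ) (h0 : f 0 = 0) : Phi f 1 = (1 * f 1) / 1 := by
  unfold Phi
  simp only [Finset.sum_range_succ, Finset.sum_range_zero, Nat.reduceSub, Nat.sub_zero, Nat.sub_self, Nat.choose_zero_right,
    Nat.choose_self, nb0, nb1, h0]
  norm_num

theorem vsp2 (f : ℕ → ℝ) (h0 : f 0 = 0) : Phi f 2 = (2 * f 1 + 1 * f 2) / 2 := by
  unfold Phi
  simp only [Finset.sum_range_succ, Finset.sum_range_zero, Nat.reduceSub, Nat.sub_zero, Nat.sub_self, Nat.choose_zero_right,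
    Nat.choose_self, nb0, nb1, nb2, nbc_2_1, h0]
  norm_num

theorem vsp3 (f : ℕ → ℝ) (h0 : f 0 = 0) : Phi f 3 = (6 * f 1 + 3 * f 2 + 1 * f 3) / 5 := by
  unfold Phi
  simp only [Finset.sum_range_succ, Finset.sum_range_zero, Nat.reduceSub, Nat.sub_zero, Nat.sub_self, Nat.choose_zero_right,
    Nat.choose_self, nb0, nb1, nb2, nb3, nbc_3_1, nbc_3_2, h0]
  norm_num

theorem vsp4 (f : ℕ → ℝ) (h0 : f 0 = 0) : Phi f 4 = (20 * f 1 + 12 * f 2 + 4 * f 3 + 1 * f 4) / 15 := by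
  unfold Phi
  simp only [Finset.sum_range_succ, Finset.sum_range_zero, Nat.reduceSub, Nat.sub_zero, Nat.sub_self, Nat.choose_zero_right,
    Nat.choose_self, nb0, nb1, nb2, nb3, nb4, nbc_4_1, nbc_4_2, nbc_4_3, h0]
  norm_num

theorem vsp5 (f : ℕ → ℝ) (h0 : f 0 = 0) : Phi f 5 = (75 * f 1 + 50 * f 2 + 20 * f 3 + 5 * f 4 + 1 * f 5) / 52 := by
  unfold Phi
  simp only [Finset.sum_range_succ, Finset.sum_range_zero, Nat.reduceSub, Nat.sub_zero, Nat.sub_self, Nat.choose_zero_right,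
    Nat.choose_self, nb0, nb1, nb2, nb3, nb4, nb5, nbc_5_1, nbc_5_2, nbc_5_3, nbc_5_4, h0]
  norm_num

theorem vsp6 (f : ℕ → ℝ) (h0 : f 0 = 0) : Phi f 6 = (312 * f 1 + 225 * f 2 + 100 * f 3 + 30 * f 4 + 6 * f 5 + 1 * f 6) / 203 := by
  unfold Phi
  simp only [Finset.sum_range_succ, Finset.sum_range_zero, Nat.reduceSub, Nat.sub_zero, Nat.sub_self, Nat.choose_zero_right,
    Nat.choose_self, nb0, nb1, nb2, nb3, nb4, nb5, nb6, nbc_6_1, nbc_6_2, nbc_6_3, nbc_6_4, nbc_6_5, h0]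
  norm_num

theorem vsp7 (f : ℕ → ℝ) (h0 : f 0 = 0) : Phi f 7 = (1421 * f 1 + 1092 * f 2 + 525 * f 3 + 175 * f 4 + 42 * f 5 + 7 * f 6 + 1 * f 7) / 877 := by
  unfold Phi
  simp only [Finset.sum_range_succ, Finset.sum_range_zero, Nat.reduceSub, Nat.sub_zero, Nat.sub_self, Nat.choose_zero_right,
    Nat.choose_self, nb0, nb1, nb2, nb3, nb4, nb5, nb6, nb7, nbc_7_1, nbc_7_2, nbc_7_3, nbc_7_4, nbc_7_5, nbc_7_6, h0]
  norm_num

theorem vsp8 (f : ℕ → ℝ) (h0 : f 0 = 0) : Phi f 8 = (7016 * f 1 + 5684 * f 2 + 2912 * f 3 + 1050 * f 4 + 280 * f 5 + 56 * f 6 + 8 * f 7 + 1 * f 8) / 4140 := by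
  unfold Phi
  simp only [Finset.sum_range_succ, Finset.sum_range_zero, Nat.reduceSub, Nat.sub_zero, Nat.sub_self, Nat.choose_zero_right,
    Nat.choose_self, nb0, nb1, nb2, nb3, nb4, nb5, nb6, nb7, nb8, nbc_8_1, nbc_8_2, nbc_8_3, nbc_8_4, nbc_8_5, nbc_8_6, nbc_8_7, h0]
  norm_num

theorem vsp9 (f : ℕ → ℝ) (h0 : f 0 = 0) : Phi f 9 = (37260 * f 1 + 31572 * f 2 + 17052 * f 3 + 6552 * f 4 + 1890 * f 5 + 420 * f 6 + 72 * f 7 + 9 * f 8 + 1 * f 9) / 21147 := by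
  unfold Phi
  simp only [Finset.sum_range_succ, Finset.sum_range_zero, Nat.reduceSub, Nat.sub_zero, Nat.sub_self, Nat.choose_zero_right,
    Nat.choose_self, nb0, nb1, nb2, nb3, nb4, nb5, nb6, nb7, nb8, nb9, nbc_9_1, nbc_9_2, nbc_9_3, nbc_9_4, nbc_9_5, nbc_9_6, nbc_9_7, nbc_9_8, h0]
  norm_num

theorem vsp10 (f : ℕ → ℝ) (h0 : f 0 = 0) : Phi f 10 = (211470 * f 1 + 186300 * f 2 + 105240 * f 3 + 42630 * f 4 + 13104 * f 5 + 3150 * f 6 + 600 * f 7 + 90 * f 8 + 10 * f 9 + 1 * f 10) / 115975 := by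
  unfold Phi
  simp only [Finset.sum_range_succ, Finset.sum_range_zero, Nat.reduceSub, Nat.sub_zero, Nat.sub_self, Nat.choose_zero_right,
    Nat.choose_self, nb0, nb1, nb2, nb3, nb4, nb5, nb6, nb7, nb8, nb9, nb10, nbc_10_1, nbc_10_2, nbc_10_3, nbc_10_4, nbc_10_5, nbc_10_6, nbc_10_7, nbc_10_8, nbc_10_9, h0]
  norm_num

theorem vsp11 (f : ℕ → ℝ) (h0 : f 0 = 0) : Phi f 11 = (1275725 * f 1 + 1163085 * f 2 + 683100 * f 3 + 289410 * f 4 + 93786 * f 5 + 24024 * f 6 + 4950 * f 7 + 825 * f 8 + 110 * f 9 + 11 * f 10 + 1 * f 11) / 678570 := by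
  unfold Phi
  simp only [Finset.sum_range_succ, Finset.sum_range_zero, Nat.reduceSub, Nat.sub_zero, Nat.sub_self, Nat.choose_zero_right,
    Nat.choose_self, nb0, nb1, nb2, nb3, nb4, nb5, nb6, nb7, nb8, nb9, nb10, nb11, nbc_11_1, nbc_11_2, nbc_11_3, nbc_11_4, nbc_11_5, nbc_11_6, nbc_11_7, nbc_11_8, nbc_11_9, nbc_11_10, h0]
  norm_num

theorem vsp12 (f : ℕ → ℝ) (h0 : f 0 = 0) : Phi f 12 = (8142840 * f 1 + 7654350 * f 2 + 4652340 * f 3 + 2049300 * f 4 + 694584 * f 5 + 187572 * f 6 + 41184 * f 7 + 7425 * f 8 + 1100 * f 9 + 132 * f 10 + 12 * f 11 + 1 * f 12) / 4213597 := by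
  unfold Phi
  simp only [Finset.sum_range_succ, Finset.sum_range_zero, Nat.reduceSub, Nat.sub_zero, Nat.sub_self, Nat.choose_zero_right,
    Nat.choose_self, nb0, nb1, nb2, nb3, nb4, nb5, nb6, nb7, nb8, nb9, nb10, nb11, nb12, nbc_12_1, nbc_12_2, nbc_12_3, nbc_12_4, nbc_12_5, nbc_12_6, nbc_12_7, nbc_12_8, nbc_12_9, nbc_12_10, nbc_12_11, h0]
  norm_num

theorem vsp13 (f : ℕ → ℝ) (h0 : f 0 = 0) : Phi f 13 = (54776761 * f 1 + 52928460 * f 2 + 33168850 * f 3 + 15120105 * f 4 + 5328180 * f 5 + 1504932 * f 6 + 348348 * f 7 + 66924 * f 8 + 10725 * f 9 + 1430 * f 10 + 156 * f 11 + 13 * f 12 + 1 * f 13) / 27644437 := by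
  unfold Phi
  simp only [Finset.sum_range_succ, Finset.sum_range_zero, Nat.reduceSub, Nat.sub_zero, Nat.sub_self, Nat.choose_zero_right,
    Nat.choose_self, nb0, nb1, nb2, nb3, nb4, nb5, nb6, nb7, nb8, nb9, nb10, nb11, nb12, nb13, nbc_13_1, nbc_13_2, nbc_13_3, nbc_13_4, nbc_13_5, nbc_13_6, nbc_13_7, nbc_13_8, nbc_13_9, nbc_13_10, nbc_13_11, nbc_13_12, h0]
  norm_num

theorem V_small (n : ℕ) (hn : n ≤ 11) (f : ℕ → ℝ) (hf : Cv f (n + 2)) :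
    Phi f (n + 2) + Phi f n ≤ 2 * Phi f (n + 1) := by
  obtain ⟨h0, hc⟩ := hf
  interval_cases n
  · rw [show (0 : ℕ) + 2 = 2 from rfl, show (0 : ℕ) + 1 = 1 from rfl, vsp2 f h0, vsp0 f h0, vsp1 f h0]
    have e0 : f 2 + f 0 ≤ 2 * f 1 := hc 0 (by norm_num)
    rw [h0] at e0
    linarith [mul_le_mul_of_nonneg_left e0 (show (0:ℝ) ≤ 1 / 2 by norm_num)]
  · rw [show (1 : ℕ) + 2 = 3 from rfl, show (1 : ℕ) + 1 = 2 from rfl, vsp3 f h0, vsp1 f h0, vsp2 f h0]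
    have e0 : f 2 + f 0 ≤ 2 * f 1 := hc 0 (by norm_num)
    have e1 : f 3 + f 1 ≤ 2 * f 2 := hc 1 (by norm_num)
    rw [h0] at e0
    linarith [mul_le_mul_of_nonneg_left e0 (show (0:ℝ) ≤ 0 / 1 by norm_num), mul_le_mul_of_nonneg_left e1 (show (0:ℝ) ≤ 1 / 5 by norm_num)]
  · rw [show (2 : ℕ) + 2 = 4 from rfl, show (2 : ℕ) + 1 = 3 from rfl, vsp4 f h0, vsp2 f h0, vsp3 f h0]
    have e0 : f 2 + f 0 ≤ 2 * f 1 := hc 0 (by norm_num)
    have e1 : f 3 + f 1 ≤ 2 * f 2 := hc 1 (by norm_num)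
    have e2 : f 4 + f 2 ≤ 2 * f 3 := hc 2 (by norm_num)
    rw [h0] at e0
    linarith [mul_le_mul_of_nonneg_left e0 (show (0:ℝ) ≤ 1 / 30 by norm_num), mul_le_mul_of_nonneg_left e1 (show (0:ℝ) ≤ 0 / 1 by norm_num), mul_le_mul_of_nonneg_left e2 (show (0:ℝ) ≤ 1 / 15 by norm_num)]
  · rw [show (3 : ℕ) + 2 = 5 from rfl, show (3 : ℕ) + 1 = 4 from rfl, vsp5 f h0, vsp3 f h0, vsp4 f h0]
    have e0 : f 2 + f 0 ≤ 2 * f 1 := hc 0 (by norm_num)
    have e1 : f 3 + f 1 ≤ 2 * f 2 := hc 1 (by norm_num)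
    have e2 : f 4 + f 2 ≤ 2 * f 3 := hc 2 (by norm_num)
    have e3 : f 5 + f 3 ≤ 2 * f 4 := hc 3 (by norm_num)
    rw [h0] at e0
    linarith [mul_le_mul_of_nonneg_left e0 (show (0:ℝ) ≤ 23 / 780 by norm_num), mul_le_mul_of_nonneg_left e1 (show (0:ℝ) ≤ 9 / 260 by norm_num), mul_le_mul_of_nonneg_left e2 (show (0:ℝ) ≤ 1 / 780 by norm_num), mul_le_mul_of_nonneg_left e3 (show (0:ℝ) ≤ 1 / 52 by norm_num)]
  · rw [show (4 : ℕ) + 2 = 6 from rfl, show (4 : ℕ) + 1 = 5 from rfl, vsp6 f h0, vsp4 f h0, vsp5 f h0]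
    have e0 : f 2 + f 0 ≤ 2 * f 1 := hc 0 (by norm_num)
    have e1 : f 3 + f 1 ≤ 2 * f 2 := hc 1 (by norm_num)
    have e2 : f 4 + f 2 ≤ 2 * f 3 := hc 2 (by norm_num)
    have e3 : f 5 + f 3 ≤ 2 * f 4 := hc 3 (by norm_num)
    have e4 : f 6 + f 4 ≤ 2 * f 5 := hc 4 (by norm_num)
    rw [h0] at e0
    linarith [mul_le_mul_of_nonneg_left e0 (show (0:ℝ) ≤ 1649 / 79170 by norm_num), mul_le_mul_of_nonneg_left e1 (show (0:ℝ) ≤ 103 / 3770 by norm_num), mul_le_mul_of_nonneg_left e2 (show (0:ℝ) ≤ 1513 / 79170 by norm_num), mul_le_mul_of_nonneg_left e3 (show (0:ℝ) ≤ 5 / 5278 by norm_num), mul_le_mul_of_nonneg_left e4 (show (0:ℝ) ≤ 1 / 203 by norm_num)]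
  · rw [show (5 : ℕ) + 2 = 7 from rfl, show (5 : ℕ) + 1 = 6 from rfl, vsp7 f h0, vsp5 f h0, vsp6 f h0]
    have e0 : f 2 + f 0 ≤ 2 * f 1 := hc 0 (by norm_num)
    have e1 : f 3 + f 1 ≤ 2 * f 2 := hc 1 (by norm_num)
    have e2 : f 4 + f 2 ≤ 2 * f 3 := hc 2 (by norm_num)
    have e3 : f 5 + f 3 ≤ 2 * f 4 := hc 3 (by norm_num)
    have e4 : f 6 + f 4 ≤ 2 * f 5 := hc 4 (by norm_num)
    have e5 : f 7 + f 5 ≤ 2 * f 6 := hc 5 (by norm_num)
    rw [h0] at e0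
    linarith [mul_le_mul_of_nonneg_left e0 (show (0:ℝ) ≤ 147283 / 9257612 by norm_num), mul_le_mul_of_nonneg_left e1 (show (0:ℝ) ≤ 27153 / 1322516 by norm_num), mul_le_mul_of_nonneg_left e2 (show (0:ℝ) ≤ 139761 / 9257612 by norm_num), mul_le_mul_of_nonneg_left e3 (show (0:ℝ) ≤ 71171 / 9257612 by norm_num), mul_le_mul_of_nonneg_left e4 (show (0:ℝ) ≤ 73 / 178031 by norm_num), mul_le_mul_of_nonneg_left e5 (show (0:ℝ) ≤ 1 / 877 by norm_num)]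
  · rw [show (6 : ℕ) + 2 = 8 from rfl, show (6 : ℕ) + 1 = 7 from rfl, vsp8 f h0, vsp6 f h0, vsp7 f h0]
    have e0 : f 2 + f 0 ≤ 2 * f 1 := hc 0 (by norm_num)
    have e1 : f 3 + f 1 ≤ 2 * f 2 := hc 1 (by norm_num)
    have e2 : f 4 + f 2 ≤ 2 * f 3 := hc 2 (by norm_num)
    have e3 : f 5 + f 3 ≤ 2 * f 4 := hc 3 (by norm_num)
    have e4 : f 6 + f 4 ≤ 2 * f 5 := hc 4 (by norm_num)
    have e5 : f 7 + f 5 ≤ 2 * f 6 := hc 5 (by norm_num)
    have e6 : f 8 + f 6 ≤ 2 * f 7 := hc 6 (by norm_num)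
    rw [h0] at e0
    linarith [mul_le_mul_of_nonneg_left e0 (show (0:ℝ) ≤ 3220661 / 245682780 by norm_num), mul_le_mul_of_nonneg_left e1 (show (0:ℝ) ≤ 908513 / 52646310 by norm_num), mul_le_mul_of_nonneg_left e2 (show (0:ℝ) ≤ 610187 / 49136556 by norm_num), mul_le_mul_of_nonneg_left e3 (show (0:ℝ) ≤ 77495 / 12284139 by norm_num), mul_le_mul_of_nonneg_left e4 (show (0:ℝ) ≤ 123703 / 49136556 by norm_num), mul_le_mul_of_nonneg_left e5 (show (0:ℝ) ≤ 49 / 363078 by norm_num), mul_le_mul_of_nonneg_left e6 (show (0:ℝ) ≤ 1 / 4140 by norm_num)]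
  · rw [show (7 : ℕ) + 2 = 9 from rfl, show (7 : ℕ) + 1 = 8 from rfl, vsp9 f h0, vsp7 f h0, vsp8 f h0]
    have e0 : f 2 + f 0 ≤ 2 * f 1 := hc 0 (by norm_num)
    have e1 : f 3 + f 1 ≤ 2 * f 2 := hc 1 (by norm_num)
    have e2 : f 4 + f 2 ≤ 2 * f 3 := hc 2 (by norm_num)
    have e3 : f 5 + f 3 ≤ 2 * f 4 := hc 3 (by norm_num)
    have e4 : f 6 + f 4 ≤ 2 * f 5 := hc 4 (by norm_num)
    have e5 : f 7 + f 5 ≤ 2 * f 6 := hc 5 (by norm_num)
    have e6 : f 8 + f 6 ≤ 2 * f 7 := hc 6 (by norm_num)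
    have e7 : f 9 + f 7 ≤ 2 * f 8 := hc 7 (by norm_num)
    rw [h0] at e0
    linarith [mul_le_mul_of_nonneg_left e0 (show (0:ℝ) ≤ 47237027 / 4265561370 by norm_num), mul_le_mul_of_nonneg_left e1 (show (0:ℝ) ≤ 96132712 / 6398342055 by norm_num), mul_le_mul_of_nonneg_left e2 (show (0:ℝ) ≤ 9566077 / 853112274 by norm_num), mul_le_mul_of_nonneg_left e3 (show (0:ℝ) ≤ 799878 / 142185379 by norm_num), mul_le_mul_of_nonneg_left e4 (show (0:ℝ) ≤ 88023 / 40624394 by norm_num), mul_le_mul_of_nonneg_left e5 (show (0:ℝ) ≤ 904879 / 1279668411 by norm_num), mul_le_mul_of_nonneg_left e6 (show (0:ℝ) ≤ 541 / 14591430 by norm_num), mul_le_mul_of_nonneg_left e7 (show (0:ℝ) ≤ 1 / 21147 by norm_num)]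
  · rw [show (8 : ℕ) + 2 = 10 from rfl, show (8 : ℕ) + 1 = 9 from rfl, vsp10 f h0, vsp8 f h0, vsp9 f h0]
    have e0 : f 2 + f 0 ≤ 2 * f 1 := hc 0 (by norm_num)
    have e1 : f 3 + f 1 ≤ 2 * f 2 := hc 1 (by norm_num)
    have e2 : f 4 + f 2 ≤ 2 * f 3 := hc 2 (by norm_num)
    have e3 : f 5 + f 3 ≤ 2 * f 4 := hc 3 (by norm_num)
    have e4 : f 6 + f 4 ≤ 2 * f 5 := hc 4 (by norm_num)
    have e5 : f 7 + f 5 ≤ 2 * f 6 := hc 5 (by norm_num)
    have e6 : f 8 + f 6 ≤ 2 * f 7 := hc 6 (by norm_num)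
    have e7 : f 9 + f 7 ≤ 2 * f 8 := hc 7 (by norm_num)
    have e8 : f 10 + f 8 ≤ 2 * f 9 := hc 8 (by norm_num)
    rw [h0] at e0
    linarith [mul_le_mul_of_nonneg_left e0 (show (0:ℝ) ≤ 85609325 / 9025285836 by norm_num), mul_le_mul_of_nonneg_left e1 (show (0:ℝ) ≤ 891005747 / 67689643770 by norm_num), mul_le_mul_of_nonneg_left e2 (show (0:ℝ) ≤ 460867159 / 45126429180 by norm_num), mul_le_mul_of_nonneg_left e3 (show (0:ℝ) ≤ 20194313 / 3760535765 by norm_num), mul_le_mul_of_nonneg_left e4 (show (0:ℝ) ≤ 4442527 / 2148877580 by norm_num), mul_le_mul_of_nonneg_left e5 (show (0:ℝ) ≤ 216146279 / 338448218850 by norm_num), mul_le_mul_of_nonneg_left e6 (show (0:ℝ) ≤ 118833991 / 676896437700 by norm_num), mul_le_mul_of_nonneg_left e7 (show (0:ℝ) ≤ 21814 / 2452523325 by norm_num), mul_le_mul_of_nonneg_left e8 (show (0:ℝ) ≤ 1 / 115975 by norm_num)]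
  · rw [show (9 : ℕ) + 2 = 11 from rfl, show (9 : ℕ) + 1 = 10 from rfl, vsp11 f h0, vsp9 f h0, vsp10 f h0]
    have e0 : f 2 + f 0 ≤ 2 * f 1 := hc 0 (by norm_num)
    have e1 : f 3 + f 1 ≤ 2 * f 2 := hc 1 (by norm_num)
    have e2 : f 4 + f 2 ≤ 2 * f 3 := hc 2 (by norm_num)
    have e3 : f 5 + f 3 ≤ 2 * f 4 := hc 3 (by norm_num)
    have e4 : f 6 + f 4 ≤ 2 * f 5 := hc 4 (by norm_num)
    have e5 : f 7 + f 5 ≤ 2 * f 6 := hc 5 (by norm_num)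
    have e6 : f 8 + f 6 ≤ 2 * f 7 := hc 6 (by norm_num)
    have e7 : f 9 + f 7 ≤ 2 * f 8 := hc 7 (by norm_num)
    have e8 : f 10 + f 8 ≤ 2 * f 9 := hc 8 (by norm_num)
    have e9 : f 11 + f 9 ≤ 2 * f 10 := hc 9 (by norm_num)
    rw [h0] at e0
    linarith [mul_le_mul_of_nonneg_left e0 (show (0:ℝ) ≤ 183082040591 / 22189450035270 by norm_num), mul_le_mul_of_nonneg_left e1 (show (0:ℝ) ≤ 258575468489 / 22189450035270 by norm_num), mul_le_mul_of_nonneg_left e2 (show (0:ℝ) ≤ 103128441811 / 11094725017635 by norm_num), mul_le_mul_of_nonneg_left e3 (show (0:ℝ) ≤ 113052455519 / 22189450035270 by norm_num), mul_le_mul_of_nonneg_left e4 (show (0:ℝ) ≤ 3276221641 / 1584960716805 by norm_num), mul_le_mul_of_nonneg_left e5 (show (0:ℝ) ≤ 71576796787 / 110947250176350 by norm_num), mul_le_mul_of_nonneg_left e6 (show (0:ℝ) ≤ 9208742612 / 55473625088175 by norm_num), mul_le_mul_of_nonneg_left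 e7 (show (0:ℝ) ≤ 4359635311 / 110947250176350 by norm_num), mul_le_mul_of_nonneg_left e8 (show (0:ℝ) ≤ 30107 / 15739431150 by norm_num), mul_le_mul_of_nonneg_left e9 (show (0:ℝ) ≤ 1 / 678570 by norm_num)]
  · rw [show (10 : ℕ) + 2 = 12 from rfl, show (10 : ℕ) + 1 = 11 from rfl, vsp12 f h0, vsp10 f h0, vsp11 f h0]
    have e0 : f 2 + f 0 ≤ 2 * f 1 := hc 0 (by norm_num)
    have e1 : f 3 + f 1 ≤ 2 * f 2 := hc 1 (by norm_num)
    have e2 : f 4 + f 2 ≤ 2 * f 3 := hc 2 (by norm_num)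
    have e3 : f 5 + f 3 ≤ 2 * f 4 := hc 3 (by norm_num)
    have e4 : f 6 + f 4 ≤ 2 * f 5 := hc 4 (by norm_num)
    have e5 : f 7 + f 5 ≤ 2 * f 6 := hc 5 (by norm_num)
    have e6 : f 8 + f 6 ≤ 2 * f 7 := hc 6 (by norm_num)
    have e7 : f 9 + f 7 ≤ 2 * f 8 := hc 7 (by norm_num)
    have e8 : f 10 + f 8 ≤ 2 * f 9 := hc 8 (by norm_num)
    have e9 : f 11 + f 9 ≤ 2 * f 10 := hc 9 (by norm_num)
    have e10 : f 12 + f 10 ≤ 2 * f 11 := hc 10 (by norm_num)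
    rw [h0] at e0
    linarith [mul_le_mul_of_nonneg_left e0 (show (0:ℝ) ≤ 9652701831998 / 1326392397506931 by norm_num), mul_le_mul_of_nonneg_left e1 (show (0:ℝ) ≤ 23080741062777 / 2210653995844885 by norm_num), mul_le_mul_of_nonneg_left e2 (show (0:ℝ) ≤ 1527276459011 / 179242215879315 by norm_num), mul_le_mul_of_nonneg_left e3 (show (0:ℝ) ≤ 6382152713495 / 1326392397506931 by norm_num), mul_le_mul_of_nonneg_left e4 (show (0:ℝ) ≤ 4501270988289 / 2210653995844885 by norm_num), mul_le_mul_of_nonneg_left e5 (show (0:ℝ) ≤ 22268610130321 / 33159809937673275 by norm_num), mul_le_mul_of_nonneg_left e6 (show (0:ℝ) ≤ 5840104763597 / 33159809937673275 by norm_num), mul_le_mul_of_nonneg_left e7 (show (0:ℝ) ≤ 428667886941 / 11053269979224425 by norm_num), mul_le_mul_of_nonneg_left e8 (show (0:ℝ) ≤ 266659856659 / 33159809937673275 by norm_num), mul_le_mul_of_nonneg_left e9 (show (0:ℝ)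 ≤ 536393 / 1429610258145 by norm_num), mul_le_mul_of_nonneg_left e10 (show (0:ℝ) ≤ 1 / 4213597 by norm_num)]
  · rw [show (11 : ℕ) + 2 = 13 from rfl, show (11 : ℕ) + 1 = 12 from rfl, vsp13 f h0, vsp11 f h0, vsp12 f h0]
    have e0 : f 2 + f 0 ≤ 2 * f 1 := hc 0 (by norm_num)
    have e1 : f 3 + f 1 ≤ 2 * f 2 := hc 1 (by norm_num)
    have e2 : f 4 + f 2 ≤ 2 * f 3 := hc 2 (by norm_num)
    have e3 : f 5 + f 3 ≤ 2 * f 4 := hc 3 (by norm_num)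
    have e4 : f 6 + f 4 ≤ 2 * f 5 := hc 4 (by norm_num)
    have e5 : f 7 + f 5 ≤ 2 * f 6 := hc 5 (by norm_num)
    have e6 : f 8 + f 6 ≤ 2 * f 7 := hc 6 (by norm_num)
    have e7 : f 9 + f 7 ≤ 2 * f 8 := hc 7 (by norm_num)
    have e8 : f 10 + f 8 ≤ 2 * f 9 := hc 8 (by norm_num)
    have e9 : f 11 + f 9 ≤ 2 * f 10 := hc 9 (by norm_num)
    have e10 : f 12 + f 10 ≤ 2 * f 11 := hc 10 (by norm_num)
    have e11 : f 13 + f 11 ≤ 2 * f 12 := hc 11 (by norm_num)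
    rw [h0] at e0
    linarith [mul_le_mul_of_nonneg_left e0 (show (0:ℝ) ≤ 512963987474692547 / 79041541431686378730 by norm_num), mul_le_mul_of_nonneg_left e1 (show (0:ℝ) ≤ 248824817133351703 / 26347180477228792910 by norm_num), mul_le_mul_of_nonneg_left e2 (show (0:ℝ) ≤ 8406773392722914 / 1068128938266032145 by norm_num), mul_le_mul_of_nonneg_left e3 (show (0:ℝ) ≤ 360424796288057363 / 79041541431686378730 by norm_num), mul_le_mul_of_nonneg_left e4 (show (0:ℝ) ≤ 5243970463857701 / 2634718047722879291 by norm_num), mul_le_mul_of_nonneg_left e5 (show (0:ℝ) ≤ 54118545018361531 / 79041541431686378730 by norm_num), mul_le_mul_of_nonneg_left e6 (show (0:ℝ) ≤ 7509026797892344 / 39520770715843189365 by norm_num), mul_le_mul_of_nonneg_left e7 (show (0:ℝ) ≤ 226290136467613 / 5269436095445758582 by norm_num), mul_le_mul_of_nonneg_left e8 (show (0:ℝ) ≤ 652719314507587 / 79041541431686378730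 by norm_num), mul_le_mul_of_nonneg_left e9 (show (0:ℝ) ≤ 120195115101019 / 79041541431686378730 by norm_num), mul_le_mul_of_nonneg_left e10 (show (0:ℝ) ≤ 7915081 / 116482516809889 by norm_num), mul_le_mul_of_nonneg_left e11 (show (0:ℝ) ≤ 1 / 27644437 by norm_num)]

end Pool.H68.AC
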