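import Pool.Agent.H68.AC.ST
import Pool.Agent.H68.AC.VB
import Pool.Agent.H68.AC.VS
import Pool.Agent.H68.AC.RF

/-!
# Module PF : assembly of the number side: `Phi` preserves concavity

Joint induction.  `conv : ∀ i ≥ 2, sl (i+1) ≤ sl i`: for `i ≤ 14` this is `sl_base`; for `i + 1 = m + 1` with `m = i ≥ 15`
use `step m`, whose hypothesis `hc` is the induction hypothesis and whose hypothesis `hq` is `V_big m`
(`m ≥ 12`) for `f k = if k = 0 then 0 else 1` at `(m, m+1, m+2)`: for this `f`, `Phi f k + 1 = B_{k+1}/B_k = (k+1) pp k`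
(`Nat.bell_succ`), so `V_big` says `(m+3) pp (m+2) + (m+1) pp m ≤ 2 (m+2) pp (m+1)`.
Then `V : Cv f (n+2) → Phi f (n+2) + Phi f n ≤ 2 Phi f (n+1)` from `V_small` and `V_big`, and `phi_cv`.
-/

namespace Pool.H68.AC

open Finset

theorem pf_const (n : ℕ) : Phi (fun k => if k = 0 then 0 else 1) n = ((n : ℝ) + 1) * pp n - 1 := by
  rw [Phi_const]
  have hB := rf_bell_pos n
  have hB1 := rf_bell_pos (n + 1)
  have hf : (0 : ℝ) < (n.factorial : ℝ) := by exact_mod_cast Nat.factorial_pos n
  unfold pp PP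
  rw [Nat.factorial_succ]
  push_cast
  field_simp

theorem pf_cv (N : ℕ) : Cv (fun k => if k = 0 then 0 else 1) N := by
  refine ⟨by simp, ?_⟩
  intro k _
  by_cases hk : k = 0
  · subst hk; norm_num
  · simp [hk]; norm_num

theorem conv_all (i : ℕ) (hi : 2 ≤ i) : sl (i + 1) ≤ sl i := by
  induction i using Nat.strong_induction_on with
  | _ i ih =>
    rcases Nat.lt_or_ge i 15 with h | h
    · exact sl_base i hi (by omega)
    · apply step i h
      · intro j hj hji
        exact ih j (by omega) hj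
      · have h1 := V_big i (by omega) (fun j hj hji => ih j (by omega) hj) _ (pf_cv (i + 2))
        rw [pf_const, pf_const, pf_const] at h1
        push_cast at h1
        linarith

theorem phi_cv (f : ℕ → ℝ) (N : ℕ) (hf : Cv f N) : Cv (Phi f) N := by
  refine ⟨by simp [Phi, hf.1], ?_⟩
  intro k hk
  have hf' : Cv f (k + 2) := ⟨hf.1, fun j hj => hf.2 j (by omega)⟩
  rcases Nat.lt_or_ge k 12 with h | h
  · exact V_small k (by omega) f hf'
  · exact V_big k h (fun i hi _ => conv_all i hi) f hf'

end Pool.H68.AC
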