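import Pool.Agent.H68.AC.NA
import Pool.Agent.H68.AC.NB
import Pool.Agent.H68.AC.CH

/-!
# Module ST : the convexity step (third order analogue of Bender-Canfield)

Notation `P_k = PP k` (and `P_{-1} = P_{-2} = 0`), `p_k = pp k`, `y_k = yy k = p_k p_{k+1}`, so
`(P_k, P_{k+1}, P_{k+2}) = P_k (1, p_k, y_k)`.  Write `n = m + 1` (`m ≥ 15`), `s = sl m` = slope between the points
`m = n-1` and `n`, `ρ = s p_n - y_n`, so that `y_n = s p_n - ρ` and `y_{n-1} = s p_{n-1} - ρ`.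
GOAL: `sl n ≤ s`, i.e. `y_{n+1} ≥ s p_{n+1} - ρ`, i.e. `P_{n+3} - s P_{n+2} + ρ P_{n+1} ≥ 0`.

Put `L_0 = 1 - s`, `L_1 = 1 - s + 2 ρ`, `L_j = 1 - j s + j (j-1) ρ` (`j ≥ 2`), `λ_j = L_j / j!`.
By `PP_rec` (`∑_{j ≤ N} P_{N-j}/j! = (N+1) P_{N+1}`, hence `∑ (j/j!) P_{N-j} = N P_N`, `∑ (j(j-1)/j!) P_{N-j} = (N-1) P_{N-1}`)
  (1) `∑_{j=0}^{n+2} λ_j P_{n+2-j} = (n+3) (P_{n+3} - s P_{n+2} + ρ P_{n+1})`,
  (2) `∑_{j=0}^{n+1} λ_j P_{n+1-j} = (n+2) (P_{n+2} - s P_{n+1} + ρ P_n) = 0`,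
  (3) `∑_{j=0}^{n} λ_j P_{n-j} = (n+1) (P_{n+1} - s P_n + ρ P_{n-1}) = 0`.
So for all `σ, β` :
  (4) `(n+3) (P_{n+3} - s P_{n+2} + ρ P_{n+1})
       = ∑_{j=0}^{n} λ_j P_{n-j} (y_{n-j} - σ p_{n-j} + β) + λ_{n+1} (1 - σ) + λ_{n+2}`
(the last two terms are `j = n+1` : `P_1 - σ P_0 = 1 - σ` and `j = n+2` : `P_0 = 1`).

Facts.  (a) `s ≤ sl 9 < 1` (hypothesis `hc`, `m ≥ 15`), `s > 0`, `ρ > 0` [`s = p_n (1 + t)`, `ρ = p_{n-1} p_n t` with
`t = ee n / ee (n-1) > 0`; indeed `y_{n-1} - y_n = p_n (p_{n-1} - p_{n+1})`].  So `L_0 > 0`, `L_1 > 0`.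
(b) `t ≥ n/(n+2)`: this is hypothesis `hq`.
(c) `L_j ≥ 0` for `j ≥ n - 9`: enough `s ≤ (n - 10) ρ ≤ (j-1) ρ`, i.e. `1 + t ≤ (n-10) p_{n-1} t`.  Now
`n p_{n-1} ≥ 16 p_15 ≥ 7` (`qq_mono`, `pp_15_ge`), `(n-10)/n ≥ 6/16`, so `(n-10) p_{n-1} ≥ 21/8`, and
`t (21/8 - 1) ≥ (16/18)(13/8) > 1`.
(d) `Neg = {j : 2 ≤ j, L_j < 0}` is contained in `[2, n-10]` by (c), and it is an interval (`L_j` is a convex quadratic in `j`).
If `Neg` were empty all `λ_j ≥ 0` and `λ_0 > 0` contradict (3).  Let `j1 = min Neg - 1 ≥ 1`, `j2 = max Neg + 1 ≤ n - 9`.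
So `λ_j ≥ 0` for `j ≤ j1` and for `j ≥ j2`, `λ_j ≤ 0` for `j1 ≤ j ≤ j2` except possibly the end points (positive there,
but the bracket in (4) vanishes at the end points).
(e) Take the line `y = σ x - β` through the points `a = n - j1` and `b = n - j2` (`9 ≤ b < a ≤ n`).  By `chord`
(with `M = 2`, `N = n`, `x = pp`, `y = yy`): the bracket `y_k - σ p_k + β` is `≤ 0` for `b ≤ k ≤ a`, `≥ 0` for
`a ≤ k ≤ n` and for `2 ≤ k ≤ b`, and `σ ≤ sl b ≤ sl 9 < 1`.
For `k = 1`: `y_1 - σ p_1 = (y_2 - σ p_2) + (sl 1 - σ) ee 1 ≥ y_2 - σ p_2` (`sl 1 = 5/4`).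
For `k = 0`: `p_0 = p_1 = 1`, `y_0 = 1 ≥ y_1 = 5/6`.  And `1 - σ ≥ 0`, `λ_{n+1}, λ_{n+2} ≥ 0`.
So every term of (4) is `≥ 0`, which is the goal.
-/

namespace Pool.H68.AC

open Finset

/-- the coefficients `λ_j`. -/
noncomputable def STlam (s ρ : ℝ) (j : ℕ) : ℝ :=
  (1 - j * s + j * (j - 1) * ρ) / (j.factorial : ℝ) + (if j = 0 then -s else 0) + (if j = 1 then 2 * ρ else 0)

theorem ST_sum1 (N : ℕ) :
    ∑ j ∈ range (N + 1), (j : ℝ) / (j.factorial : ℝ) * PP (N - j) = N * PP N := by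
  rcases N with _ | N
  · simp
  · rw [Finset.sum_range_succ']
    have h := PP_rec N
    push_cast
    simp only [Nat.factorial_zero, zero_div, zero_mul, add_zero]
    rw [h]
    apply Finset.sum_congr rfl
    intro j hj
    have hne : ((j.factorial : ℝ)) ≠ 0 := by positivity
    have hj1 : ((j : ℝ) + 1) ≠ 0 := by positivity
    rw [Nat.factorial_succ]
    push_cast
    field_simp

theorem ST_sum2 (N : ℕ) :
    ∑ j ∈ range (N + 2), (j : ℝ) * (j - 1) / (j.factorial : ℝ) * PP (N + 1 - j) = N * PP N := by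
  rw [Finset.sum_range_succ']
  rw [← ST_sum1 N]
  simp only [Nat.cast_zero, zero_mul, zero_div, add_zero]
  apply Finset.sum_congr rfl
  intro j hj
  have hne : ((j.factorial : ℝ)) ≠ 0 := by positivity
  have hj1 : ((j : ℝ) + 1) ≠ 0 := by positivity
  rw [Nat.factorial_succ]
  push_cast
  field_simp
  ring

theorem ST_sum (s ρ : ℝ) (N : ℕ) :
    ∑ j ∈ range (N + 2), STlam s ρ j * PP (N + 1 - j)
      = ((N : ℝ) + 2) * (PP (N + 2) - s * PP (N + 1) + ρ * PP N) := by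
  have h0 := PP_rec (N + 1)
  have h1 := ST_sum1 (N + 1)
  have h2 := ST_sum2 N
  have e0 : ∑ j ∈ range (N + 2), (if j = 0 then -s else 0) * PP (N + 1 - j) = -s * PP (N + 1) := by
    rw [Finset.sum_eq_single 0]
    · simp
    · intro j _ hj
      simp [hj]
    · intro h
      simp at h
  have e1 : ∑ j ∈ range (N + 2), (if j = 1 then 2 * ρ else 0) * PP (N + 1 - j) = 2 * ρ * PP N := by
    rw [Finset.sum_eq_single 1]
    · simp
    · intro j _ hj
      simp [hj]
    · intro h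
      simp at h
  have e2 : ∑ j ∈ range (N + 2), (1 - (j : ℝ) * s + j * (j - 1) * ρ) / (j.factorial : ℝ) * PP (N + 1 - j)
      = ∑ j ∈ range (N + 2), PP (N + 1 - j) / (j.factorial : ℝ)
        - s * ∑ j ∈ range (N + 2), (j : ℝ) / (j.factorial : ℝ) * PP (N + 1 - j)
        + ρ * ∑ j ∈ range (N + 2), (j : ℝ) * (j - 1) / (j.factorial : ℝ) * PP (N + 1 - j) := by
    rw [Finset.mul_sum, Finset.mul_sum, ← Finset.sum_sub_distrib, ← Finset.sum_add_distrib]
    apply Finset.sum_congr rfl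
    intro j _
    ring
  have e3 : ∑ j ∈ range (N + 2), STlam s ρ j * PP (N + 1 - j)
      = ∑ j ∈ range (N + 2), (1 - (j : ℝ) * s + j * (j - 1) * ρ) / (j.factorial : ℝ) * PP (N + 1 - j)
        + ∑ j ∈ range (N + 2), (if j = 0 then -s else 0) * PP (N + 1 - j)
        + ∑ j ∈ range (N + 2), (if j = 1 then 2 * ρ else 0) * PP (N + 1 - j) := by
    rw [← Finset.sum_add_distrib, ← Finset.sum_add_distrib]
    apply Finset.sum_congr rfl
    intro j _
    unfold STlam
    ring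
  rw [show N + 1 + 1 = N + 2 from rfl] at h0 h1
  rw [e3, e2, e0, e1, h1, h2, ← h0]
  push_cast
  ring

theorem ST_qq (m : ℕ) (hm : 15 ≤ m) : 7 ≤ ((m : ℝ) + 1) * pp m := by
  induction m, hm using Nat.le_induction with
  | base =>
    have := pp_15_ge
    push_cast
    linarith
  | succ k hk ih =>
    have := qq_mono k
    push_cast
    linarith

theorem ST_sl (m : ℕ) (hc : ∀ i, 2 ≤ i → i + 1 ≤ m → sl (i + 1) ≤ sl i) (b : ℕ) (hb : 9 ≤ b) (hbm : b ≤ m) :
    sl b ≤ sl 9 := by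
  induction b, hb using Nat.le_induction with
  | base => exact le_rfl
  | succ k hk ih =>
    exact (hc k (by omega) hbm).trans (ih (by omega))

theorem ST_eepos (n : ℕ) (hn : 1 ≤ n) : 0 < ee n := by
  have := pp_strict n hn
  unfold ee
  linarith

/-- `s`, `ρ` and `t`. -/
theorem ST_srho (m : ℕ) (hm : 15 ≤ m) : ∃ t : ℝ, 0 < t ∧ ee (m + 1) = t * ee m ∧
    sl m = pp (m + 1) * (1 + t) ∧ sl m * pp (m + 1) - yy (m + 1) = pp m * pp (m + 1) * t := by
  have e0 := ST_eepos m (by omega)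
  have e1 := ST_eepos (m + 1) (by omega)
  refine ⟨ee (m + 1) / ee m, by positivity, by field_simp, ?_, ?_⟩
  · unfold sl yy
    rw [div_eq_iff e0.ne']
    have : ee (m + 1) / ee m * ee m = ee (m + 1) := by field_simp
    rw [mul_assoc, add_mul, this]
    unfold ee
    rw [show m + 1 + 1 = m + 2 from rfl]
    ring
  · have hs : sl m = pp (m + 1) * (1 + ee (m + 1) / ee m) := by
      unfold sl yy
      rw [div_eq_iff e0.ne']
      have : ee (m + 1) / ee m * ee m = ee (m + 1) := by field_simp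
      rw [mul_assoc, add_mul, this]
      unfold ee
      rw [show m + 1 + 1 = m + 2 from rfl]
      ring
    rw [hs]
    have h1 : pp (m + 1) = pp (m + 2) + ee (m + 1) := by
      unfold ee
      rw [show m + 1 + 1 = m + 2 from rfl]
      ring
    have h2 : ee (m + 1) = ee (m + 1) / ee m * (pp m - pp (m + 1)) := by
      have : pp m - pp (m + 1) = ee m := rfl
      rw [this]
      field_simp
    unfold yy
    rw [show m + 1 + 1 = m + 2 from rfl]
    have h3 : pp (m + 2) = pp (m + 1) - ee (m + 1) / ee m * (pp m - pp (m + 1)) := by linarith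
    rw [h3]
    ring

/-- quadratic convexity. -/
theorem ST_quad (s ρ a b j : ℝ) (hρ : 0 ≤ ρ) (haj : a ≤ j) (hjb : j ≤ b)
    (ha : 1 - a * s + a * (a - 1) * ρ < 0) (hb : 1 - b * s + b * (b - 1) * ρ < 0) :
    1 - j * s + j * (j - 1) * ρ ≤ 0 := by
  rcases eq_or_lt_of_le (haj.trans hjb) with h | h
  · have : j = a := by linarith
    rw [this]; exact ha.le
  · by_contra hcon
    push Not at hcon
    have key : (b - a) * (1 - j * s + j * (j - 1) * ρ)
        = (b - j) * (1 - a * s + a * (a - 1) * ρ) + (j - a) * (1 - b * s + b * (b - 1) * ρ)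
          - ρ * ((b - j) * (j - a) * (b - a)) := by ring
    have h1 : 0 < (b - a) * (1 - j * s + j * (j - 1) * ρ) := mul_pos (by linarith) hcon
    have h2 : (b - j) * (1 - a * s + a * (a - 1) * ρ) ≤ 0 :=
      mul_nonpos_of_nonneg_of_nonpos (by linarith) ha.le
    have h3 : (j - a) * (1 - b * s + b * (b - 1) * ρ) ≤ 0 :=
      mul_nonpos_of_nonneg_of_nonpos (by linarith) hb.le
    have h4 : 0 ≤ ρ * ((b - j) * (j - a) * (b - a)) := by
      apply mul_nonneg hρ
      apply mul_nonneg (mul_nonneg (by linarith) (by linarith)) (by linarith)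
    linarith

theorem ST_PP1 (k : ℕ) : PP (k + 1) = pp k * PP k := PP_succ k

theorem ST_PP2 (k : ℕ) : PP (k + 2) = yy k * PP k := by
  rw [show k + 2 = (k + 1) + 1 from rfl, PP_succ, PP_succ]
  unfold yy
  ring

/-- (b), (c) : `(n - 10) ρ ≥ s` with `n = m + 1`. -/
theorem ST_c (m : ℕ) (hm : 15 ≤ m) (t : ℝ) (ht : ee (m + 1) = t * ee m)
    (hq : ((m : ℝ) + 3) * pp (m + 2) + ((m : ℝ) + 1) * pp m ≤ 2 * (((m : ℝ) + 2) * pp (m + 1))) :
    1 + t ≤ ((m : ℝ) - 9) * pp m * t := by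
  have e0 := ST_eepos m (by omega)
  have hm' : (15 : ℝ) ≤ m := by exact_mod_cast hm
  have h1 : ((m : ℝ) + 1) * ee m ≤ ((m : ℝ) + 3) * ee (m + 1) := by
    unfold ee
    rw [show m + 1 + 1 = m + 2 from rfl]
    linarith
  have h2 : ((m : ℝ) + 1) ≤ ((m : ℝ) + 3) * t := by
    rw [ht] at h1
    have : ((m : ℝ) + 1) * ee m ≤ (((m : ℝ) + 3) * t) * ee m := by linarith
    exact le_of_mul_le_mul_right this e0
  have h3 : 8 / 9 ≤ t := by
    by_contra hcon
    push Not at hcon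
    nlinarith
  have h4 := ST_qq m hm
  have h5 : 21 / 8 ≤ ((m : ℝ) - 9) * pp m := by
    have : 0 < (m : ℝ) + 1 := by linarith
    have h6 : (21 / 8) * ((m : ℝ) + 1) ≤ (((m : ℝ) - 9) * pp m) * ((m : ℝ) + 1) := by
      have h7 : (((m : ℝ) - 9)) * 7 ≤ ((m : ℝ) - 9) * (((m : ℝ) + 1) * pp m) :=
        mul_le_mul_of_nonneg_left h4 (by linarith)
      nlinarith
    exact le_of_mul_le_mul_right h6 this
  have h6 : (21 / 8) * t ≤ ((m : ℝ) - 9) * pp m * t :=
    mul_le_mul_of_nonneg_right h5 (by linarith)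
  linarith

/-- `hc` : the points `2, ..., m+1` are in convex position.  `hq` : concavity of `q_k = (k+1) pp k` at `k = m+1`. -/
theorem step (m : ℕ) (hm : 15 ≤ m) (hc : ∀ i, 2 ≤ i → i + 1 ≤ m → sl (i + 1) ≤ sl i)
    (hq : ((m : ℝ) + 3) * pp (m + 2) + ((m : ℝ) + 1) * pp m ≤ 2 * (((m : ℝ) + 2) * pp (m + 1))) :
    sl (m + 1) ≤ sl m := by
  obtain ⟨t, ht0, hte, hs, hρ⟩ := ST_srho m hm
  have hcc := ST_c m hm t hte hq
  have hs1 : sl m < 1 := (ST_sl m hc m (by omega) le_rfl).trans_lt sl_9_lt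
  have hp0 := pp_pos m
  have hp1 := pp_pos (m + 1)
  set s := sl m with hsdef
  set ρ := s * pp (m + 1) - yy (m + 1) with hρdef
  have hs0 : 0 < s := by rw [hs]; positivity
  have hρ0 : 0 < ρ := by rw [hρ]; positivity
  have hsρ : s ≤ ((m : ℝ) - 9) * ρ := by
    rw [hs, hρ]
    have := mul_le_mul_of_nonneg_left hcc hp1.le
    linarith
  have e0 := ST_eepos m (by omega)
  have e1 := ST_eepos (m + 1) (by omega)
  -- the points
  have hy1 : yy (m + 1) = s * pp (m + 1) - ρ := by rw [hρdef]; ring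
  have hy0 : yy m = s * pp m - ρ := by
    have h1 : s * ee m = yy m - yy (m + 1) := by
      rw [hsdef]; unfold sl
      field_simp
    have h2 : ee m = pp m - pp (m + 1) := rfl
    rw [h2] at h1
    rw [hρdef]
    linarith
  -- coefficients
  have lam_big : ∀ j : ℕ, m ≤ j + 8 → 0 ≤ STlam s ρ j := by
    intro j hj
    have hj2 : 2 ≤ j := by omega
    unfold STlam
    rw [if_neg (by omega), if_neg (by omega), add_zero, add_zero]
    apply div_nonneg _ (by positivity)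
    have h1 : (m : ℝ) ≤ j + 8 := by exact_mod_cast hj
    have h2 : s ≤ ((j : ℝ) - 1) * ρ := hsρ.trans (mul_le_mul_of_nonneg_right (by linarith) hρ0.le)
    have h3 : (j : ℝ) * s ≤ (j : ℝ) * (((j : ℝ) - 1) * ρ) := mul_le_mul_of_nonneg_left h2 (by positivity)
    linarith
  have lam0 : 0 < STlam s ρ 0 := by
    unfold STlam
    simp
    linarith
  have lam1 : 0 < STlam s ρ 1 := by
    unfold STlam
    simp
    linarith
  -- the sums
  have S3 : ∑ j ∈ range (m + 2), STlam s ρ j * PP (m + 1 - j) = 0 := by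
    rw [ST_sum, ST_PP2 m, ST_PP1 m, hy0]
    ring
  have S2 : ∑ j ∈ range (m + 3), STlam s ρ j * PP (m + 2 - j) = 0 := by
    have := ST_sum s ρ (m + 1)
    rw [show m + 1 + 2 = m + 3 from rfl, show m + 1 + 1 = m + 2 from rfl] at this
    rw [this, show m + 3 = (m + 1) + 2 from rfl, ST_PP2 (m + 1), show m + 2 = (m + 1) + 1 from rfl,
      ST_PP1 (m + 1), hy1]
    ring
  have S1 : ∑ j ∈ range (m + 4), STlam s ρ j * PP (m + 3 - j)
      = ((m : ℝ) + 4) * (PP (m + 4) - s * PP (m + 3) + ρ * PP (m + 2)) := by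
    have := ST_sum s ρ (m + 2)
    rw [show m + 2 + 2 = m + 4 from rfl, show m + 2 + 1 = m + 3 from rfl] at this
    rw [this]
    push_cast
    ring
  -- the goal
  suffices hgoal : 0 ≤ ((m : ℝ) + 4) * (PP (m + 4) - s * PP (m + 3) + ρ * PP (m + 2)) by
    have hm4 : (0 : ℝ) < (m : ℝ) + 4 := by positivity
    have h1 : 0 ≤ PP (m + 4) - s * PP (m + 3) + ρ * PP (m + 2) := nonneg_of_mul_nonneg_right hgoal hm4
    rw [show m + 4 = (m + 2) + 2 from rfl, ST_PP2 (m + 2), show m + 3 = (m + 2) + 1 from rfl,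
      ST_PP1 (m + 2)] at h1
    have hP := PP_pos (m + 2)
    have h2 : 0 ≤ (yy (m + 2) - s * pp (m + 2) + ρ) * PP (m + 2) := by linarith
    have h3 : 0 ≤ yy (m + 2) - s * pp (m + 2) + ρ := nonneg_of_mul_nonneg_left h2 hP
    unfold sl
    rw [div_le_iff₀ e1]
    have h4 : ee (m + 1) = pp (m + 1) - pp (m + 2) := rfl
    rw [h4, show m + 1 + 1 = m + 2 from rfl]
    linarith
  -- the set Neg
  set Neg := (range (m - 8)).filter (fun j => STlam s ρ j < 0) with hNeg
  have hNotNeg : ∀ j, j ∉ Neg → 0 ≤ STlam s ρ j := by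
    intro j hj
    by_cases h : j < m - 8
    · rw [hNeg, mem_filter, mem_range, not_and] at hj
      have := hj h
      push Not at this
      exact this
    · exact lam_big j (by omega)
  have hne : Neg.Nonempty := by
    rw [Finset.nonempty_iff_ne_empty]
    intro hemp
    have hall : ∀ j, 0 ≤ STlam s ρ j := by
      intro j
      exact hNotNeg j (by rw [hemp]; simp)
    have hpos : 0 < ∑ j ∈ range (m + 2), STlam s ρ j * PP (m + 1 - j) := by
      apply Finset.sum_pos'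
      · intro j _
        exact mul_nonneg (hall j) (PP_pos _).le
      · exact ⟨0, by simp, mul_pos lam0 (PP_pos _)⟩
    linarith
  set a1 := Neg.min' hne with ha1
  set a2 := Neg.max' hne with ha2
  have ha1m : a1 ∈ Neg := Neg.min'_mem hne
  have ha2m : a2 ∈ Neg := Neg.max'_mem hne
  have ha12 : a1 ≤ a2 := Neg.min'_le _ ha2m
  have ha1' : STlam s ρ a1 < 0 := (mem_filter.1 ha1m).2
  have ha2' : STlam s ρ a2 < 0 := (mem_filter.1 ha2m).2
  have ha2r : a2 < m - 8 := mem_range.1 (mem_filter.1 ha2m).1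
  have ha1ge : 2 ≤ a1 := by
    by_contra hcon
    have : a1 = 0 ∨ a1 = 1 := by omega
    rcases this with h | h
    · rw [h] at ha1'; linarith
    · rw [h] at ha1'; linarith
  have hlt : ∀ j, j < a1 → 0 ≤ STlam s ρ j := by
    intro j hj
    apply hNotNeg
    intro hmem
    have := Neg.min'_le _ hmem
    omega
  have hgt : ∀ j, a2 < j → 0 ≤ STlam s ρ j := by
    intro j hj
    apply hNotNeg
    intro hmem
    have := Neg.le_max' _ hmem
    omega
  have hLam2 : ∀ j : ℕ, 2 ≤ j → STlam s ρ j = (1 - j * s + j * (j - 1) * ρ) / (j.factorial : ℝ) := by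
    intro j hj
    unfold STlam
    rw [if_neg (by omega), if_neg (by omega), add_zero, add_zero]
  have hquadneg : ∀ j : ℕ, 2 ≤ j → STlam s ρ j < 0 → 1 - (j : ℝ) * s + j * (j - 1) * ρ < 0 := by
    intro j hj h
    rw [hLam2 j hj] at h
    by_contra hcon
    push Not at hcon
    have : 0 ≤ (1 - (j : ℝ) * s + j * (j - 1) * ρ) / (j.factorial : ℝ) := div_nonneg hcon (by positivity)
    linarith
  have hmid : ∀ j, a1 ≤ j → j ≤ a2 → STlam s ρ j ≤ 0 := by
    intro j h1 h2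
    rw [hLam2 j (by omega)]
    apply div_nonpos_of_nonpos_of_nonneg _ (by positivity)
    exact ST_quad s ρ a1 a2 j hρ0.le (by exact_mod_cast h1) (by exact_mod_cast h2)
      (hquadneg a1 ha1ge ha1') (hquadneg a2 (by omega) ha2')
  -- the chord
  obtain ⟨cA, cB, cC, cD⟩ := chord pp yy 2 (m + 1)
    (fun i hi _ => pp_strict i (by omega))
    (fun i hi hi2 => hc i hi (by omega))
    (m - a2) (m + 2 - a1) (by omega) (by omega) (by omega)
    ((yy (m - a2) - yy (m + 2 - a1)) / (pp (m - a2) - pp (m + 2 - a1))) rfl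
  set σ := (yy (m - a2) - yy (m + 2 - a1)) / (pp (m - a2) - pp (m + 2 - a1)) with hσ
  have hσ1 : σ < 1 := by
    have h1 : σ ≤ sl (m - a2) := cD
    exact (h1.trans (ST_sl m hc (m - a2) (by omega) (by omega))).trans_lt sl_9_lt
  set β := σ * pp (m + 2 - a1) - yy (m + 2 - a1) with hβ
  have bA : ∀ k, m - a2 ≤ k → k ≤ m + 2 - a1 → yy k - σ * pp k + β ≤ 0 := by
    intro k h1 h2
    have := cA k h1 h2
    rw [hβ]; linarith
  have bB : ∀ k, m + 2 - a1 ≤ k → k ≤ m + 1 → 0 ≤ yy k - σ * pp k + β := by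
    intro k h1 h2
    have := cB k h1 h2
    rw [hβ]; linarith
  have bC2 : ∀ k, 2 ≤ k → k ≤ m - a2 → 0 ≤ yy k - σ * pp k + β := by
    intro k h1 h2
    have := cC k h1 h2
    rw [hβ]; linarith
  have y0 : yy 0 = 1 := by unfold yy; rw [pp_0, pp_1]; norm_num
  have y1 : yy 1 = 5 / 6 := by unfold yy; rw [pp_1, pp_2]; norm_num
  have y2 : yy 2 = 5 / 8 := by unfold yy; rw [pp_2, pp_3]; norm_num
  have bC : ∀ k, k ≤ m - a2 → 0 ≤ yy k - σ * pp k + β := by
    intro k hk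
    have h2 := bC2 2 le_rfl (by omega)
    rw [y2, pp_2] at h2
    rcases k with _ | _ | k
    · rw [y0, pp_0]; linarith
    · rw [zero_add, y1, pp_1]; linarith
    · exact bC2 (k + 2) (by omega) hk
  -- the sum
  have main : ∑ j ∈ range (m + 4), STlam s ρ j * PP (m + 3 - j)
      = ∑ j ∈ range (m + 2), STlam s ρ j * (PP (m + 1 - j) * (yy (m + 1 - j) - σ * pp (m + 1 - j) + β))
        + STlam s ρ (m + 2) * (1 - σ) + STlam s ρ (m + 3) := by
    have h1 : ∑ j ∈ range (m + 2), STlam s ρ j * (PP (m + 1 - j) * (yy (m + 1 - j) - σ * pp (m + 1 - j) + β))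
        = ∑ j ∈ range (m + 2), STlam s ρ j * PP (m + 3 - j)
          - σ * ∑ j ∈ range (m + 2), STlam s ρ j * PP (m + 2 - j)
          + β * ∑ j ∈ range (m + 2), STlam s ρ j * PP (m + 1 - j) := by
      rw [Finset.mul_sum, Finset.mul_sum, ← Finset.sum_sub_distrib, ← Finset.sum_add_distrib]
      apply Finset.sum_congr rfl
      intro j hj
      have hj' : j < m + 2 := mem_range.1 hj
      rw [show m + 3 - j = (m + 1 - j) + 2 by omega, ST_PP2, show m + 2 - j = (m + 1 - j) + 1 by omega,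
        ST_PP1]
      ring
    have h2 : ∑ j ∈ range (m + 3), STlam s ρ j * PP (m + 2 - j)
        = ∑ j ∈ range (m + 2), STlam s ρ j * PP (m + 2 - j) + STlam s ρ (m + 2) * PP 0 := by
      rw [Finset.sum_range_succ]
      simp
    have h3 : ∑ j ∈ range (m + 4), STlam s ρ j * PP (m + 3 - j)
        = ∑ j ∈ range (m + 2), STlam s ρ j * PP (m + 3 - j) + STlam s ρ (m + 2) * PP 1
          + STlam s ρ (m + 3) * PP 0 := by
      rw [Finset.sum_range_succ, Finset.sum_range_succ]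
      simp
    have hP1 : PP 1 = 1 := by
      rw [show (1 : ℕ) = 0 + 1 from rfl, ST_PP1, pp_0, PP_zero]; norm_num
    rw [h1, h3, S3]
    rw [S2, PP_zero] at h2
    rw [hP1, PP_zero]
    linear_combination (-σ) * h2
  rw [← S1, main]
  have hsum : 0 ≤ ∑ j ∈ range (m + 2), STlam s ρ j * (PP (m + 1 - j) * (yy (m + 1 - j) - σ * pp (m + 1 - j) + β)) := by
    apply Finset.sum_nonneg
    intro j hj
    have hj' : j < m + 2 := mem_range.1 hj
    have hP := PP_pos (m + 1 - j)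
    rcases lt_or_ge j a1 with h | h
    · exact mul_nonneg (hlt j h) (mul_nonneg hP.le (bB _ (by omega) (by omega)))
    · rcases le_or_gt j a2 with h2 | h2
      · exact mul_nonneg_of_nonpos_of_nonpos (hmid j h h2)
          (mul_nonpos_of_nonneg_of_nonpos hP.le (bA _ (by omega) (by omega)))
      · exact mul_nonneg (hgt j h2) (mul_nonneg hP.le (bC _ (by omega)))
  have h2 : 0 ≤ STlam s ρ (m + 2) * (1 - σ) := mul_nonneg (lam_big _ (by omega)) (by linarith)
  have h3 : 0 ≤ STlam s ρ (m + 3) := lam_big _ (by omega)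
  linarith

end Pool.H68.AC
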